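import Pool.Agent.V5helper93.SMP.TopK

/-!
# Positivity: the operator `Σ (insert, contract)` is semisimple at zero
-/

set_option autoImplicit false
set_option linter.unusedSectionVars false

open Finset Module

namespace Pool.Agent.V5helper93.SMP

noncomputable section

variable {κ σ : Type} [Fintype κ] [DecidableEq κ] [Fintype σ] [DecidableEq σ]

/-- contraction of the slots `a` and `b` -/
def CC {K : Type} [AddCommMonoid K] (bar : κ → κ) (a b : σ) (t : (σ → κ) → K) : (σ → κ) → K :=
  fun J => ∑ x, t (Function.update (Function.update J a x) b (bar x))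

/-- the sum over all pairs of slots of: contract and insert -/
def KK {K : Type} [AddCommMonoid K] (bar : κ → κ) (t : (σ → κ) → K) : (σ → κ) → K :=
  fun J => ∑ p ∈ (Finset.univ : Finset σ).offDiag,
    if J p.2 = bar (J p.1) then CC bar p.1 p.2 t J else 0

theorem sum_upd (j : σ) (g : (σ → κ) → ℚ) :
    ∑ J, ∑ x, g (Function.update J j x) = (Fintype.card κ : ℚ) * ∑ J, g J := by
  rw [← Finset.sum_product', Finset.univ_product_univ]
  have h1 : ∑ p : (σ → κ) × κ, g (Function.update p.1 j p.2) =
      ∑ p : (σ → κ) × κ, g p.1 := by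
    refine Fintype.sum_equiv (Function.Involutive.toPerm
      (fun p : (σ → κ) × κ => (Function.update p.1 j p.2, p.1 j)) ?_) _ _ fun p => rfl
    rintro ⟨J, x⟩
    simp only [Function.update_self, Function.update_idem, Function.update_eq_self]
  rw [h1, Fintype.sum_prod_type]
  simp only [Finset.sum_const, Finset.card_univ, nsmul_eq_mul, Finset.mul_sum]

theorem CC_upd_b {K : Type} [AddCommMonoid K] (bar : κ → κ) {a b : σ} (hab : a ≠ b)
    (t : (σ → κ) → K) (J : σ → κ) (y : κ) :
    CC bar a b t (Function.update J b y) = CC bar a b t J := by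
  unfold CC
  refine Finset.sum_congr rfl fun x _ => ?_
  rw [Function.update_comm hab, Function.update_idem, Function.update_comm hab.symm]

theorem CC_upd_a {K : Type} [AddCommMonoid K] (bar : κ → κ) {a b : σ}
    (t : (σ → κ) → K) (J : σ → κ) (y : κ) :
    CC bar a b t (Function.update J a y) = CC bar a b t J := by
  unfold CC
  refine Finset.sum_congr rfl fun x _ => ?_
  rw [Function.update_idem]

/-- the pairing -/
theorem pair_one (bar : κ → κ) {a b : σ} (hab : a ≠ b) (t s : (σ → κ) → ℚ) :
    (Fintype.card κ : ℚ) ^ 2 *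
      ∑ J, (if J b = bar (J a) then CC bar a b t J else 0) * s J =
      ∑ J, CC bar a b t J * CC bar a b s J := by
  rw [pow_two, mul_assoc, ← sum_upd b, ← sum_upd a]
  refine Finset.sum_congr rfl fun J _ => ?_
  have h1 : ∀ x y : κ, (if Function.update (Function.update J a x) b y b =
      bar (Function.update (Function.update J a x) b y a) then
      CC bar a b t (Function.update (Function.update J a x) b y) else 0) *
      s (Function.update (Function.update J a x) b y) = if y = bar x then
        CC bar a b t J * s (Function.update (Function.update J a x) b y) else 0 := by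
    intro x y
    rw [Function.update_self, Function.update_of_ne hab, Function.update_self,
      CC_upd_b bar hab, CC_upd_a, ite_mul, zero_mul]
  simp only [h1, Finset.sum_ite_eq', Finset.mem_univ, if_true]
  rw [← Finset.mul_sum]
  rfl

theorem pair_all (bar : κ → κ) (t s : (σ → κ) → ℚ) :
    (Fintype.card κ : ℚ) ^ 2 * ∑ J, KK bar t J * s J =
      ∑ p ∈ (Finset.univ : Finset σ).offDiag, ∑ J, CC bar p.1 p.2 t J * CC bar p.1 p.2 s J := by
  have h1 : ∑ J, KK bar t J * s J = ∑ p ∈ (Finset.univ : Finset σ).offDiag,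
      ∑ J, (if J p.2 = bar (J p.1) then CC bar p.1 p.2 t J else 0) * s J := by
    rw [Finset.sum_comm]
    refine Finset.sum_congr rfl fun J _ => ?_
    rw [KK, Finset.sum_mul]
  rw [h1, Finset.mul_sum]
  refine Finset.sum_congr rfl fun p hp => ?_
  exact pair_one bar (Finset.mem_offDiag.1 hp).2.2 t s

theorem sq_zero {X : Type} [Fintype X] (t : X → ℚ) (h : ∑ J, t J * t J = 0) : t = 0 := by
  funext J
  have h1 := (Finset.sum_eq_zero_iff_of_nonneg fun J _ => mul_self_nonneg (t J)).1 h J
    (Finset.mem_univ J)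
  exact mul_self_eq_zero.1 h1

theorem posQ (bar : κ → κ) {t : (σ → κ) → ℚ} (h : KK bar (KK bar t) = 0) :
    KK bar t = 0 ∧ ∀ a b, a ≠ b → CC bar a b t = 0 := by
  rcases isEmpty_or_nonempty κ with hκ | hκ
  · rcases isEmpty_or_nonempty σ with hσ | hσ
    · refine ⟨?_, fun a => hσ.elim a⟩
      funext J
      have h1 : (Finset.univ : Finset σ).offDiag = ∅ := by
        refine Finset.eq_empty_of_forall_notMem fun p => hσ.elim p.1
      rw [KK, h1, Finset.sum_empty]
      rfl
    · obtain ⟨j⟩ := hσ
      have h0 : ∀ f : (σ → κ) → ℚ, f = 0 := fun f => funext fun J => hκ.elim (J j)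
      exact ⟨h0 _, fun a b _ => h0 _⟩
  have hcard : (Fintype.card κ : ℚ) ^ 2 ≠ 0 :=
    pow_ne_zero 2 (Nat.cast_ne_zero.2 Fintype.card_ne_zero)
  have h1 := pair_all bar (KK bar t) t
  rw [h] at h1
  simp only [Pi.zero_apply, zero_mul, Finset.sum_const_zero, mul_zero] at h1
  have h2 := pair_all bar t (KK bar t)
  have h3 : ∑ p ∈ (Finset.univ : Finset σ).offDiag, ∑ J,
      CC bar p.1 p.2 t J * CC bar p.1 p.2 (KK bar t) J = 0 := by
    rw [h1]
    refine Finset.sum_congr rfl fun p _ => Finset.sum_congr rfl fun J _ => mul_comm _ _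
  rw [h3] at h2
  have h4 : KK bar t = 0 := sq_zero _ ((mul_eq_zero.1 h2).resolve_left hcard)
  refine ⟨h4, fun a b hab => ?_⟩
  have h5 := pair_all bar t t
  rw [h4] at h5
  simp only [Pi.zero_apply, zero_mul, Finset.sum_const_zero, mul_zero] at h5
  have h6 := (Finset.sum_eq_zero_iff_of_nonneg fun p _ =>
    Finset.sum_nonneg fun J _ => mul_self_nonneg (CC bar p.1 p.2 t J)).1 h5.symm (a, b)
    (Finset.mem_offDiag.2 ⟨Finset.mem_univ _, Finset.mem_univ _, hab⟩)
  exact sq_zero _ h6

theorem CC_map {K L : Type} [AddCommMonoid K] [AddCommMonoid L] (l : K →+ L) (bar : κ → κ)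
    (a b : σ) (t : (σ → κ) → K) (J : σ → κ) :
    CC bar a b (fun J => l (t J)) J = l (CC bar a b t J) := by
  unfold CC
  rw [map_sum]

theorem KK_map {K L : Type} [AddCommMonoid K] [AddCommMonoid L] (l : K →+ L) (bar : κ → κ)
    (t : (σ → κ) → K) (J : σ → κ) :
    KK bar (fun J => l (t J)) J = l (KK bar t J) := by
  unfold KK
  rw [map_sum]
  refine Finset.sum_congr rfl fun p _ => ?_
  split_ifs
  · exact CC_map l bar _ _ t J
  · rw [map_zero]

/-- **Positivity.** -/
theorem posK {K : Type} [Field K] [CharZero K] (bar : κ → κ) {t : (σ → κ) → K}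
    (h : KK bar (KK bar t) = 0) : KK bar t = 0 ∧ ∀ a b, a ≠ b → CC bar a b t = 0 := by
  have h1 : ∀ l : Dual ℚ K, KK bar (fun J => l (t J)) = 0 ∧
      ∀ a b, a ≠ b → CC bar a b (fun J => l (t J)) = 0 := by
    intro l
    refine posQ bar ?_
    have h2 : KK bar (fun J => l (t J)) = fun J => l (KK bar t J) :=
      funext fun J => KK_map l.toAddMonoidHom bar t J
    rw [h2]
    funext J
    have h3 : KK bar (fun J => l (KK bar t J)) J = l (KK bar (KK bar t) J) :=
      KK_map l.toAddMonoidHom bar (KK bar t) J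
    rw [h3, h, Pi.zero_apply, map_zero]
    rfl
  refine ⟨funext fun J => (Module.forall_dual_apply_eq_zero_iff ℚ _).1 fun l => ?_,
    fun a b hab => funext fun J => (Module.forall_dual_apply_eq_zero_iff ℚ _).1 fun l => ?_⟩
  · have h2 : KK bar (fun J => l (t J)) J = l (KK bar t J) := KK_map l.toAddMonoidHom bar t J
    rw [← h2, (h1 l).1]
    rfl
  · have h2 : CC bar a b (fun J => l (t J)) J = l (CC bar a b t J) :=
      CC_map l.toAddMonoidHom bar a b t J
    rw [← h2, (h1 l).2 a b hab]
    rfl

end

end Pool.Agent.V5helper93.SMP
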