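import Pool.Agent.V5helper93.SMP.Slots
import Pool.Agent.V5helper93.SMP.Harm
import Pool.Agent.V5helper93.GTC.WF

/-!
# Base change of contractions and insertions
-/

set_option autoImplicit false
set_option linter.unusedSectionVars false

namespace Pool.Agent.V5helper93.SMP

open Module TensorProduct Polynomial Pool.Agent.H204R3.SP Pool.Agent.V5helper93.GTC

noncomputable section

variable {k K T W : Type} [Field k] [Field K] [CharZero k] [CharZero K] [Algebra k K]
  [AddCommGroup T] [Module k T] [AddCommGroup W] [Module k W]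

/-! ### the form -/

theorem bcb_symm {B : T →ₗ[k] T →ₗ[k] k} (hs : ∀ u v, B u v = B v u) (u v : K ⊗[k] T) :
    bcb K B u v = bcb K B v u := by
  induction u with
  | zero => simp only [map_zero, LinearMap.zero_apply]
  | add u u' hu hu' => simp only [map_add, LinearMap.add_apply, hu, hu']
  | tmul a u =>
    induction v with
    | zero => simp only [map_zero, LinearMap.zero_apply]
    | add v v' hv hv' => simp only [map_add, LinearMap.add_apply, hv, hv']
    | tmul c v => rw [bcb_tmul, bcb_tmul, hs u v, mul_comm a c]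

theorem DP.bc {B : T →ₗ[k] T →ₗ[k] k} {ι : Type} [Fintype ι] {d d' : ι → T} (h : DP B d d') :
    DP (bcb K B) (fun i => (1 : K) ⊗ₜ[k] d i) (fun i => (1 : K) ⊗ₜ[k] d' i) := by
  refine ⟨fun v => ?_, fun v => ?_⟩
  · induction v with
    | zero => simp only [map_zero, LinearMap.zero_apply, zero_smul, Finset.sum_const_zero]
    | add u v hu hv =>
      simp only [map_add, LinearMap.add_apply, add_smul, Finset.sum_add_distrib, hu, hv]
    | tmul c v =>
      conv_rhs => rw [← h.left v, tmul_sum]
      refine Finset.sum_congr rfl fun i _ => ?_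
      rw [bcb_tmul, TensorProduct.smul_tmul', tmul_smul, TensorProduct.smul_tmul', smul_eq_mul,
        smul_mul_assoc, mul_one, mul_one]
  · induction v with
    | zero => simp only [map_zero, zero_smul, Finset.sum_const_zero]
    | add u v hu hv =>
      simp only [map_add, add_smul, Finset.sum_add_distrib, hu, hv]
    | tmul c v =>
      conv_rhs => rw [← h.right v, tmul_sum]
      refine Finset.sum_congr rfl fun i _ => ?_
      rw [bcb_tmul, TensorProduct.smul_tmul', tmul_smul, TensorProduct.smul_tmul', smul_eq_mul,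
        smul_mul_assoc, one_mul, mul_one]

theorem DP.nondeg {B : T →ₗ[k] T →ₗ[k] k} {ι : Type} [Fintype ι] {d d' : ι → T} (h : DP B d d')
    (u : T) (hu : ∀ w, B u w = 0) : u = 0 := by
  rw [← h.left u]
  simp only [hu, zero_smul, Finset.sum_const_zero]

/-! ### base change of the operators -/

variable {ν : Type} [Fintype ν] [DecidableEq ν] (b : Basis ν k T) {σ : Type} [Fintype σ]
  [DecidableEq σ]

theorem update_one (v : σ → T) (a : σ) (x : T) :
    (fun l => (1 : K) ⊗ₜ[k] Function.update v a x l) =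
      Function.update (fun l => (1 : K) ⊗ₜ[k] v l) a ((1 : K) ⊗ₜ[k] x) := by
  funext l
  by_cases h : l = a
  · subst h
    rw [Function.update_self, Function.update_self]
  · rw [Function.update_of_ne h, Function.update_of_ne h]

theorem ctr_Fm {B : T →ₗ[k] T →ₗ[k] k} {ι ι' : Type} [Fintype ι] [Fintype ι'] {d d' : ι → T}
    (h : DP B d d') {D D' : ι' → K ⊗[k] T} (hD : DP (bcb K B) D D') (μ : Dual K (K ⊗[k] W))
    {x y : σ} (hxy : x ≠ y) (f : MultilinearMap k (fun _ : σ => T) W) :
    ctr hxy D D' (Fm b μ f) = Fm b μ (ctr hxy d d' f) := by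
  refine Fm_eq b fun w => ?_
  obtain ⟨v, rfl⟩ := res_surj x y w
  have h1 : (fun l => (1 : K) ⊗ₜ[k] res x y v l) = res x y fun l => (1 : K) ⊗ₜ[k] v l := rfl
  rw [ctr_indep (h.bc (K := K)) hD, h1, ctr_res, ctr_res, tmul_sum, map_sum]
  refine Finset.sum_congr rfl fun i _ => ?_
  rw [← update_one, ← update_one, Fm_one]

theorem ins_Fm {B : T →ₗ[k] T →ₗ[k] k} (μ : Dual K (K ⊗[k] W))
    {x y : σ} (hxy : x ≠ y) (g : MultilinearMap k (fun _ : {l : σ // l ≠ x ∧ l ≠ y} => T) W) :
    ins hxy (bcb K B) (Fm b μ g) = Fm b μ (ins hxy B g) := by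
  refine Fm_eq b fun v => ?_
  have h1 : res x y (fun l => (1 : K) ⊗ₜ[k] v l) = fun l => (1 : K) ⊗ₜ[k] res x y v l := rfl
  rw [ins_apply, ins_apply, h1, Fm_one, bcb_one, tmul_smul, ← algebraMap_smul K (B (v x) (v y))
    (1 ⊗ₜ[k] _ : K ⊗[k] W), map_smul]

theorem KS_Fm {B : T →ₗ[k] T →ₗ[k] k} {ι ι' : Type} [Fintype ι] [Fintype ι'] {d d' : ι → T}
    (h : DP B d d') {D D' : ι' → K ⊗[k] T} (hD : DP (bcb K B) D D') (μ : Dual K (K ⊗[k] W))
    (f : MultilinearMap k (fun _ : σ => T) W) :
    KS (bcb K B) D D' (Fm b μ f) = Fm b μ (KS B d d' f) := by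
  rw [KS_apply, KS_apply, map_sum]
  refine Finset.sum_congr rfl fun p _ => ?_
  rw [ctr_Fm b h hD, ins_Fm]

/-! ### on an adapted basis -/

section basis

variable {X : Type} [AddCommGroup X] [Module K X] {B : X →ₗ[K] X →ₗ[K] K} {g : Module.End K X}
  {ι : Type} [DecidableEq ι] [Fintype ι] {e : Basis ι K X} {bar : ι → ι} {α : ι → K}

theorem update_e (e : ι → X) (J : σ → ι) (a : σ) (x : ι) :
    (fun l => e (Function.update J a x l)) = Function.update (fun l => e (J l)) a (e x) := by
  funext l
  by_cases h : l = a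
  · subst h
    rw [Function.update_self, Function.update_self]
  · rw [Function.update_of_ne h, Function.update_of_ne h]

theorem ctr_e (F : MultilinearMap K (fun _ : σ => X) K) {x y : σ} (hxy : x ≠ y) (J : σ → ι) :
    ctr hxy e (fun z => e (bar z)) F (res x y fun l => e (J l)) =
      CC bar x y (fun J => F fun l => e (J l)) J := by
  rw [ctr_res, CC]
  refine Finset.sum_congr rfl fun z _ => ?_
  rw [update_e, update_e]

theorem KS_e (h : Sys B g e bar α) (F : MultilinearMap K (fun _ : σ => X) K) (J : σ → ι) :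
    KS B e (fun z => e (bar z)) F (fun l => e (J l)) =
      KK bar (fun J => F fun l => e (J l)) J := by
  rw [KS_apply, sum_apply, KK]
  have h1 : (Finset.univ : Finset σ).offDiag = Finset.univ.filter fun p : σ × σ => p.1 ≠ p.2 := by
    ext p
    simp
  rw [h1, ← Finset.sum_subtype_eq_sum_filter]
  refine Finset.sum_congr ?_ fun p _ => ?_
  · ext p
    simp
  · rw [ins_apply, ctr_e, h.form]
    split_ifs
    · rw [one_smul]
    · rw [zero_smul]

theorem ext_e {F G : MultilinearMap K (fun _ : σ => X) K}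
    (h : (fun J : σ → ι => F fun l => e (J l)) = fun J => G fun l => e (J l)) : F = G :=
  Basis.ext_multilinear (fun _ => e) fun J => congrFun h J

/-- Positivity on an adapted basis. -/
theorem harm_e (h : Sys B g e bar α) (F : MultilinearMap K (fun _ : σ => X) K)
    (hF : KS B e (fun z => e (bar z)) (KS B e (fun z => e (bar z)) F) = 0) :
    KS B e (fun z => e (bar z)) F = 0 ∧
      ∀ (x y : σ) (hxy : x ≠ y), ctr hxy e (fun z => e (bar z)) F = 0 := by
  have h1 : (fun J : σ → ι => KS B e (fun z => e (bar z)) F fun l => e (J l)) =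
      KK bar fun J => F fun l => e (J l) := funext fun J => KS_e h F J
  have h2 : KK bar (KK bar fun J => F fun l => e (J l)) = 0 := by
    rw [← h1]
    funext J
    rw [← KS_e h, hF]
    rfl
  obtain ⟨h3, h4⟩ := posK bar h2
  refine ⟨ext_e (e := e) ?_, fun x y hxy => Basis.ext_multilinear (fun _ => e) fun J' => ?_⟩
  · rw [h1, h3]
    rfl
  · rcases isEmpty_or_nonempty ι with hι | ⟨⟨i0⟩⟩
    · -- no basis vectors
      have h5 : ∀ x : X, x = 0 := by
        intro x
        rw [← e.sum_repr x]
        exact Finset.sum_of_isEmpty _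
      have h6 : F = 0 := by
        ext v
        rw [MultilinearMap.map_coord_zero F x (h5 (v x))]
        rfl
      rw [h6, map_zero]
    let J : σ → ι := fun l => if h : l ≠ x ∧ l ≠ y then J' ⟨l, h⟩ else i0
    have h5 : (fun l => e (J' l)) = res x y fun l => e (J l) := by
      funext l
      change e (J' l) = e (if h : l.1 ≠ x ∧ l.1 ≠ y then J' ⟨l.1, h⟩ else i0)
      rw [dif_pos l.2]
    rw [h5, ctr_e, h4 x y hxy]
    rfl

end basis

/-- **Positivity.** -/
theorem harm [FiniteDimensional k T] {B : T →ₗ[k] T →ₗ[k] k}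
    (hs : ∀ u v, B u v = B v u) {ι : Type} [Fintype ι] {d d' : ι → T} (hd : DP B d d')
    (f : MultilinearMap k (fun _ : σ => T) W) (hf : KS B d d' (KS B d d' f) = 0) :
    KS B d d' f = 0 ∧ ∀ (x y : σ) (hxy : x ≠ y), ctr hxy d d' f = 0 := by
  classical
  let K := AlgebraicClosure k
  have hDP := hd.bc (K := K)
  obtain ⟨ι', _, _, e, bar, α, h⟩ := exists_sys (K := K) (V := K ⊗[k] T) (B := bcb K B) (g := 1)
    (μ := 1) one_ne_zero (bcb_symm hs) hDP.nondeg (fun u v => (one_mul _).symm)
    (by
      refine Module.End.isSemisimple_of_squarefree_aeval_eq_zero (p := X - C 1)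
        (irreducible_X_sub_C 1).squarefree ?_
      simp)
  let b := Module.finBasis k T
  have h1 : ∀ μ : Dual K (K ⊗[k] W), KS (bcb K B) e (fun z => e (bar z)) (Fm b μ f) = 0 ∧
      ∀ (x y : σ) (hxy : x ≠ y), ctr hxy e (fun z => e (bar z)) (Fm b μ f) = 0 := by
    intro μ
    refine harm_e h _ ?_
    rw [KS_Fm b hd h.dp, KS_Fm b hd h.dp, hf, map_zero]
  have h2 : ∀ {κ : Type} [Fintype κ] [DecidableEq κ] (g : MultilinearMap k (fun _ : κ => T) W),
      (∀ μ : Dual K (K ⊗[k] W), Fm b μ g = 0) → g = 0 := by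
    intro κ _ _ g hg
    ext v
    have h3 : (1 : K) ⊗ₜ[k] g v = 0 := by
      refine (Module.forall_dual_apply_eq_zero_iff K _).1 fun μ => ?_
      rw [← Fm_one b, hg]
      rfl
    have h4 : Function.Injective (TensorProduct.mk k K W 1) :=
      Module.Flat.tensorProduct_mk_injective k W K
    exact h4 (by
      change (1 : K) ⊗ₜ[k] g v = (1 : K) ⊗ₜ[k] (0 : W)
      rw [h3, tmul_zero])
  refine ⟨h2 _ fun μ => ?_, fun x y hxy => h2 _ fun μ => ?_⟩
  · rw [← KS_Fm b hd h.dp]
    exact (h1 μ).1
  · rw [← ctr_Fm b hd h.dp]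
    exact (h1 μ).2 x y hxy

end

end Pool.Agent.V5helper93.SMP
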