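import Mathlib
import Pool.Agent.V5helper93.GTC.Defs

/-!
# Multilinear maps on a quadratic space with values in a representation
-/

set_option autoImplicit false
set_option linter.unusedSectionVars false

namespace Pool.Agent.V5helper93.SMP

open Module Polynomial Pool.Agent.V5helper93.GTC

noncomputable section

variable {k T W : Type} [Field k] [AddCommGroup T] [Module k T] [AddCommGroup W] [Module k W]

section slots

variable {σ : Type} [DecidableEq σ]

/-- The restriction of a tuple to the indices different from `a` and `b`. -/
def res (a b : σ) (v : σ → T) : {l : σ // l ≠ a ∧ l ≠ b} → T := fun l => v l.1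

theorem res_update_a (a b : σ) (v : σ → T) (x : T) :
    res a b (Function.update v a x) = res a b v := by
  funext l
  exact Function.update_of_ne l.2.1 _ _

theorem res_update_b (a b : σ) (v : σ → T) (x : T) :
    res a b (Function.update v b x) = res a b v := by
  funext l
  exact Function.update_of_ne l.2.2 _ _

theorem res_update (a b : σ) (v : σ → T) (i : {l : σ // l ≠ a ∧ l ≠ b}) (x : T) :
    res a b (Function.update v i.1 x) = Function.update (res a b v) i x := by
  funext l
  by_cases h : l = i
  · subst h
    rw [Function.update_self]
    exact Function.update_self _ _ _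
  · rw [Function.update_of_ne h]
    exact Function.update_of_ne (fun h' => h (Subtype.ext h')) _ _

/-- The map `g ↦ (v ↦ B(v_a, v_b) • g(v without v_a and v_b))` on multilinear maps. -/
def ins {a b : σ} (hab : a ≠ b) (B : T →ₗ[k] T →ₗ[k] k) :
    MultilinearMap k (fun _ : {l : σ // l ≠ a ∧ l ≠ b} => T) W →ₗ[k]
      MultilinearMap k (fun _ : σ => T) W where
  toFun c := MultilinearMap.mk' (fun v => B (v a) (v b) • c (res a b v))
    (by
      intro v i x y
      by_cases hia : i = a
      · subst hia
        simp only [Function.update_self, Function.update_of_ne hab.symm, res_update_a, map_add,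
          LinearMap.add_apply, add_smul]
      · by_cases hib : i = b
        · subst hib
          simp only [Function.update_self, Function.update_of_ne hab, res_update_b, map_add,
            add_smul]
        · simp only [Function.update_of_ne (Ne.symm hia), Function.update_of_ne (Ne.symm hib)]
          have h := fun x => res_update a b v ⟨i, hia, hib⟩ x
          simp only at h
          rw [h, h, h, MultilinearMap.map_update_add, smul_add])
    (by
      intro v i c' x
      by_cases hia : i = a
      · subst hia
        simp only [Function.update_self, Function.update_of_ne hab.symm, res_update_a, map_smul,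
          LinearMap.smul_apply, smul_eq_mul, mul_smul]
      · by_cases hib : i = b
        · subst hib
          simp only [Function.update_self, Function.update_of_ne hab, res_update_b, map_smul,
            smul_eq_mul, mul_smul]
        · simp only [Function.update_of_ne (Ne.symm hia), Function.update_of_ne (Ne.symm hib)]
          have h := fun x => res_update a b v ⟨i, hia, hib⟩ x
          simp only at h
          rw [h, h, MultilinearMap.map_update_smul, smul_comm])
  map_add' c d := by
    ext v
    exact smul_add _ _ _
  map_smul' r c := by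
    ext v
    change B (v a) (v b) • (r • c (res a b v)) = r • (B (v a) (v b) • c (res a b v))
    rw [smul_comm]

theorem ins_apply {a b : σ} (hab : a ≠ b) (B : T →ₗ[k] T →ₗ[k] k)
    (c : MultilinearMap k (fun _ : {l : σ // l ≠ a ∧ l ≠ b} => T) W) (v : σ → T) :
    ins hab B c v = B (v a) (v b) • c (res a b v) := rfl

end slots

/-- `prods B c σ` is the span of the forms `B(v_{a₁}, v_{b₁}) ⋯ B(v_{a_c}, v_{b_c}) ψ(v')` where the
indices `a_j`, `b_j` are distinct elements of `σ` and `ψ` is an arbitrary multilinear form of the tuple `v'`
of the other vectors of the tuple `v`. -/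
def prods (B : T →ₗ[k] T →ₗ[k] k) : ℕ → (σ : Type) → [DecidableEq σ] →
    Submodule k (MultilinearMap k (fun _ : σ => T) k)
  | 0, _, _ => ⊤
  | c + 1, σ, _ => Submodule.span k {F | ∃ (a b : σ) (hab : a ≠ b)
      (g : MultilinearMap k (fun _ : {l : σ // l ≠ a ∧ l ≠ b} => T) k),
        g ∈ prods B c {l : σ // l ≠ a ∧ l ≠ b} ∧ F = ins hab B g}

/-- The span of the maps `v ↦ h(v) • w` with `h` in `D` and `w` in `W'`. -/
def mtens {σ : Type} (D : Submodule k (MultilinearMap k (fun _ : σ => T) k)) (W' : Submodule k W) :
    Submodule k (MultilinearMap k (fun _ : σ => T) W) :=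
  Submodule.span k {g | ∃ h ∈ D, ∃ w ∈ W', ∀ v, g v = h v • w}

variable {Γ : Type} [Group Γ]

/-- The map `f ↦ τ(g) ∘ f ∘ ρ(g)⁻¹`. -/
def mulMap (ρ : Representation k Γ T) (τ : Representation k Γ W) (σ : Type) (g : Γ) :
    Module.End k (MultilinearMap k (fun _ : σ => T) W) where
  toFun f := (τ g).compMultilinearMap (f.compLinearMap fun _ => ρ g⁻¹)
  map_add' _ _ := MultilinearMap.ext fun _ => map_add (τ g) _ _
  map_smul' c _ := MultilinearMap.ext fun _ => map_smul (τ g) c _

theorem mulMap_apply (ρ : Representation k Γ T) (τ : Representation k Γ W) (σ : Type) (g : Γ)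
    (f : MultilinearMap k (fun _ : σ => T) W) (v : σ → T) :
    mulMap ρ τ σ g f v = τ g (f fun l => ρ g⁻¹ (v l)) := rfl

theorem mulMap_one (ρ : Representation k Γ T) (τ : Representation k Γ W) (σ : Type) :
    mulMap ρ τ σ 1 = 1 := by
  refine LinearMap.ext fun f => MultilinearMap.ext fun v => ?_
  rw [mulMap_apply, inv_one, map_one, map_one]
  rfl

theorem mulMap_mul (ρ : Representation k Γ T) (τ : Representation k Γ W) (σ : Type) (g h : Γ) :
    mulMap ρ τ σ (g * h) = mulMap ρ τ σ g * mulMap ρ τ σ h := by
  refine LinearMap.ext fun f => MultilinearMap.ext fun v => ?_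
  change τ (g * h) (f fun l => ρ (g * h)⁻¹ (v l)) =
    τ g (τ h (f fun l => ρ h⁻¹ (ρ g⁻¹ (v l))))
  rw [mul_inv_rev, map_mul, map_mul]
  rfl

/-- The action of the group on the multilinear maps `T ^ σ → W`, `f ↦ τ(g) ∘ f ∘ ρ(g)⁻¹`. If `T` is
the dual of a summand `M` of the cohomology of `Y` and `W` is the cohomology of `Z` then this is the
action of the Galois group on `M ^ {⊗ σ} ⊗ W`, a summand of the cohomology of `Y ^ σ × Z`. -/
def mulRep (ρ : Representation k Γ T) (τ : Representation k Γ W) (σ : Type) :
    Representation k Γ (MultilinearMap k (fun _ : σ => T) W) where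
  toFun := mulMap ρ τ σ
  map_one' := mulMap_one ρ τ σ
  map_mul' := mulMap_mul ρ τ σ

end

end Pool.Agent.V5helper93.SMP
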