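import Pool.Agent.V5helper93.SMP.Slots
import Pool.Agent.V5helper93.GTC.WF

/-!
# Large images: stable spaces are stable under the orthogonal Lie algebra
-/

set_option autoImplicit false
set_option linter.unusedSectionVars false

namespace Pool.Agent.V5helper93.SMP

open Module Polynomial Pool.Agent.V5helper93.GTC

noncomputable section

/-! ### curves -/

section curve

variable {k E : Type} [Field k] [CharZero k] [AddCommGroup E] [Module k E] {σ : Type} [Fintype σ]
  [DecidableEq σ]

theorem curve_coeff (φ : MultilinearMap k (fun _ : σ => E) k) (e : Fin 3 → E) :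
    (∑ r : σ → Fin 3, C (φ fun i => e (r i)) * X ^ (∑ i, (r i : ℕ)) : k[X]).coeff 1 =
      ∑ j, φ (Function.update (fun _ => e 0) j (e 1)) := by
  rw [finsetSum_coeff]
  simp only [coeff_C_mul, coeff_X_pow, mul_ite, mul_one, mul_zero]
  rw [← Finset.sum_filter]
  symm
  refine Finset.sum_bij (fun j _ => Function.update (fun _ => (0 : Fin 3)) j 1) (fun j _ => ?_)
    (fun j _ j' _ h => ?_) (fun r hr => ?_) (fun j _ => ?_)
  · rw [Finset.mem_filter]
    refine ⟨Finset.mem_univ _, ?_⟩
    rw [Finset.sum_eq_single j]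
    · rw [Function.update_self]
      rfl
    · intro i _ hi
      rw [Function.update_of_ne hi]
      rfl
    · intro h
      exact absurd (Finset.mem_univ _) h
  · by_contra hne
    have h1 := congrFun h j
    simp only [Function.update_self, Function.update_of_ne hne] at h1
    exact absurd h1 (by decide)
  · have h1 := (Finset.mem_filter.1 hr).2
    obtain ⟨j, -, hj⟩ := Finset.exists_ne_zero_of_sum_ne_zero (f := fun i => ((r i : Fin 3) : ℕ))
      (s := Finset.univ) (by rw [← h1]; exact one_ne_zero)
    rw [← Finset.add_sum_erase _ _ (Finset.mem_univ j)] at h1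
    have h2 : ((r j : Fin 3) : ℕ) = 1 := by omega
    have h3 : ∑ x ∈ Finset.univ.erase j, ((r x : Fin 3) : ℕ) = 0 := by omega
    refine ⟨j, Finset.mem_univ _, ?_⟩
    funext i
    by_cases hi : i = j
    · subst hi
      rw [Function.update_self]
      exact Fin.ext h2.symm
    · rw [Function.update_of_ne hi]
      have h4 := (Finset.sum_eq_zero_iff.1 h3) i (Finset.mem_erase.2 ⟨hi, Finset.mem_univ _⟩)
      exact Fin.ext h4.symm
  · congr 1
    funext i
    by_cases hi : i = j
    · subst hi
      rw [Function.update_self, Function.update_self]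
    · rw [Function.update_of_ne hi, Function.update_of_ne hi]

theorem curve_eval (φ : MultilinearMap k (fun _ : σ => E) k) (e : Fin 3 → E) (t : k) :
    (∑ r : σ → Fin 3, C (φ fun i => e (r i)) * X ^ (∑ i, (r i : ℕ)) : k[X]).eval t =
      φ fun _ => e 0 + t • e 1 + t ^ 2 • e 2 := by
  have h1 : (fun _ : σ => e 0 + t • e 1 + t ^ 2 • e 2) =
      fun _ => ∑ s : Fin 3, t ^ (s : ℕ) • e s := by
    funext _
    rw [Fin.sum_univ_three]
    simp
  rw [h1, MultilinearMap.map_sum, eval_finsetSum]
  refine Finset.sum_congr rfl fun r _ => ?_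
  rw [MultilinearMap.map_smul_univ, eval_mul, eval_C, eval_pow, eval_X, smul_eq_mul,
    Finset.prod_pow_eq_pow_sum, mul_comm]

/-- The derivative of a curve. -/
theorem curve (φ : MultilinearMap k (fun _ : σ => E) k) (e : Fin 3 → E) (q : k[X]) (hq : q ≠ 0)
    (h : ∀ t : k, q.eval t ≠ 0 → φ (fun _ => e 0 + t • e 1 + t ^ 2 • e 2) = 0) :
    ∑ j, φ (Function.update (fun _ => e 0) j (e 1)) = 0 := by
  rw [← curve_coeff]
  set P : k[X] := ∑ r : σ → Fin 3, C (φ fun i => e (r i)) * X ^ (∑ i, (r i : ℕ)) with hP
  have h1 : P * q = 0 := by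
    refine Polynomial.funext fun t => ?_
    rw [eval_mul, eval_zero]
    by_cases hqt : q.eval t = 0
    · rw [hqt, mul_zero]
    · rw [hP, curve_eval, h t hqt, zero_mul]
  rw [(mul_eq_zero.1 h1).resolve_right hq, coeff_zero]

end curve

variable {k T W : Type} [Field k] [CharZero k] [AddCommGroup T] [Module k T]
  [AddCommGroup W] [Module k W]

/-- multiples of reflections -/
def SR (B : T →ₗ[k] T →ₗ[k] k) (a : T) : Module.End k T :=
  B a a • LinearMap.id - (2 : k) • (B a).smulRight a

theorem SR_apply (B : T →ₗ[k] T →ₗ[k] k) (a v : T) :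
    SR B a v = B a a • v - (2 : k) • B a v • a := rfl

/-- the elements of the Lie algebra -/
def XX (B : T →ₗ[k] T →ₗ[k] k) (a c : T) : Module.End k T :=
  (B a).smulRight c - (B c).smulRight a

theorem XX_apply (B : T →ₗ[k] T →ₗ[k] k) (a c v : T) : XX B a c v = B a v • c - B c v • a := rfl

theorem SR_norm {B : T →ₗ[k] T →ₗ[k] k} (a u v : T) :
    B (SR B a u) (SR B a v) = B a a ^ 2 * B u v + (2 * B a a) * (B a v) * (B a u - B u a) := by
  simp only [SR_apply, map_sub, map_smul, LinearMap.sub_apply, LinearMap.smul_apply, smul_eq_mul]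
  ring

variable [FiniteDimensional k T]

theorem SR_det {B : T →ₗ[k] T →ₗ[k] k} {a : T} (ha : B a a ≠ 0) :
    LinearMap.det ((B a a)⁻¹ • SR B a) = -1 := by
  have h1 : (B a a)⁻¹ • SR B a = LinearMap.transvection ((-(2 * (B a a)⁻¹)) • B a) a := by
    ext v
    rw [LinearMap.smul_apply, SR_apply, LinearMap.transvection.apply, LinearMap.smul_apply,
      smul_sub, smul_smul, inv_mul_cancel₀ ha, one_smul, smul_smul, smul_smul, smul_eq_mul,
      sub_eq_add_neg, ← neg_smul]
    congr 2
    ring
  rw [h1, LinearMap.transvection.det, LinearMap.smul_apply, smul_eq_mul]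
  field_simp
  norm_num

variable {Γ : Type} [Group Γ] {B : T →ₗ[k] T →ₗ[k] k} {ρ : Representation k Γ T}
  {τ : Representation k Γ W}

/-- Every homogeneous polynomial function on `End T` which vanishes on the elements of the group acting
trivially on `W` vanishes on the special orthogonal group of `B`. -/
def BigImage (B : T →ₗ[k] T →ₗ[k] k) (ρ : Representation k Γ T) (τ : Representation k Γ W) : Prop :=
  ∀ (n : ℕ) (φ : MultilinearMap k (fun _ : Fin n => Module.End k T) k),
    (∀ s : Γ, τ s = 1 → φ (fun _ => ρ s) = 0) →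
    ∀ g : Module.End k T, (∀ u v, B (g u) (g v) = B u v) → LinearMap.det g = 1 →
      φ (fun _ => g) = 0

section stable

variable {σ : Type} [Fintype σ] [DecidableEq σ]
  {U : Submodule k (MultilinearMap k (fun _ : σ => T) W)}

/-- the multilinear function `X ↦ l (f ∘ X)` -/
def lf (l : Dual k (MultilinearMap k (fun _ : σ => T) W)) (f : MultilinearMap k (fun _ : σ => T) W) :
    MultilinearMap k (fun _ : σ => Module.End k T) k :=
  (l.comp (LinearMap.applyₗ f)).compMultilinearMap
    (MultilinearMap.compLinearMapMultilinear (R := k) (ι := σ) (M₁ := fun _ => T)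
      (M₁' := fun _ => T) (M₂ := W))

theorem lf_apply (l : Dual k (MultilinearMap k (fun _ : σ => T) W))
    (f : MultilinearMap k (fun _ : σ => T) W) (X : σ → Module.End k T) :
    lf l f X = l (f.compLinearMap X) := rfl

theorem so_stable (big : BigImage B ρ τ) (hU : ∀ s, ∀ f ∈ U, mulMap ρ τ σ s f ∈ U)
    {f : MultilinearMap k (fun _ : σ => T) W} (hf : f ∈ U) {g : Module.End k T}
    (hg : ∀ u v, B (g u) (g v) = B u v) (hdet : LinearMap.det g = 1) :
    f.compLinearMap (fun _ => g) ∈ U := by
  by_contra hcon
  obtain ⟨l, hl, hlU⟩ := Submodule.exists_le_ker_of_notMem hcon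
  apply hl
  have h1 := big (Fintype.card σ) ((lf l f).domDomCongr (Fintype.equivFin σ)) (fun s hs => ?_) g
    hg hdet
  · exact h1
  · have h2 : f.compLinearMap (fun _ => ρ s) = mulMap ρ τ σ s⁻¹ f := by
      ext v
      rw [mulMap_apply, inv_inv]
      have h3 : τ s⁻¹ = 1 := by
        have h4 : τ s⁻¹ * τ s = 1 := by rw [← map_mul, inv_mul_cancel, map_one]
        rwa [hs, mul_one] at h4
      rw [h3]
      rfl
    change l (f.compLinearMap fun _ => ρ s) = 0
    rw [h2]
    exact hlU (hU _ f hf)

theorem compLinearMap_smul (f : MultilinearMap k (fun _ : σ => T) W) (c : k)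
    (g : Module.End k T) :
    f.compLinearMap (fun _ => c • g) = c ^ Fintype.card σ • f.compLinearMap (fun _ => g) := by
  ext v
  rw [MultilinearMap.compLinearMap_apply, smul_apply, MultilinearMap.compLinearMap_apply]
  simp only [LinearMap.smul_apply]
  rw [MultilinearMap.map_smul_univ, Finset.prod_const, Finset.card_univ]

theorem SR_stable (big : BigImage B ρ τ) (hs : ∀ u v, B u v = B v u)
    (hU : ∀ s, ∀ f ∈ U, mulMap ρ τ σ s f ∈ U)
    {f : MultilinearMap k (fun _ : σ => T) W} (hf : f ∈ U) {a b : T} (ha : B a a ≠ 0)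
    (hb : B b b ≠ 0) (c : k) : f.compLinearMap (fun _ => c • (SR B a * SR B b)) ∈ U := by
  have h1 : c • (SR B a * SR B b) = (c * (B a a * B b b)) •
      (((B a a)⁻¹ • SR B a) * ((B b b)⁻¹ • SR B b)) := by
    rw [smul_mul_smul_comm, smul_smul]
    congr 1
    field_simp
  have hi : ∀ {a : T}, B a a ≠ 0 → ∀ u v,
      B (((B a a)⁻¹ • SR B a) u) (((B a a)⁻¹ • SR B a) v) = B u v := by
    intro a ha u v
    simp only [LinearMap.smul_apply, map_smul, smul_eq_mul]
    rw [SR_norm, hs u a]
    field_simp
    ring
  rw [h1, compLinearMap_smul]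
  refine U.smul_mem _ (so_stable big hU hf (fun u v => ?_) ?_)
  · rw [Module.End.mul_apply, Module.End.mul_apply, hi ha, hi hb]
  · rw [map_mul, SR_det ha, SR_det hb]
    norm_num

/-- the curve -/
theorem SR_curve (hs : ∀ u v, B u v = B v u) {a : T} (ha : B a a ≠ 0) (c : T) (t : k) :
    ((B a a) ^ 2)⁻¹ • (SR B a * SR B (a + t • c)) =
      (LinearMap.id : Module.End k T) +
        t • ((2 * (B a a)⁻¹) • (B a c • (LinearMap.id : Module.End k T) - XX B a c)) +
        t ^ 2 • (((B a a) ^ 2)⁻¹ • (SR B a * SR B c)) := by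
  ext v
  simp only [LinearMap.smul_apply, LinearMap.add_apply, LinearMap.sub_apply, LinearMap.id_apply,
    Module.End.mul_apply, SR_apply, XX_apply, map_add, map_sub, map_smul, smul_eq_mul]
  rw [hs c a, ← sub_eq_zero]
  simp only [smul_add, smul_sub, smul_smul, add_smul, mul_add, mul_sub, sub_smul]
  match_scalars
  all_goals
    field_simp
    ring

theorem der_stable_aniso (big : BigImage B ρ τ) (hs : ∀ u v, B u v = B v u)
    (hU : ∀ s, ∀ f ∈ U, mulMap ρ τ σ s f ∈ U)
    {f : MultilinearMap k (fun _ : σ => T) W} (hf : f ∈ U) {a : T} (ha : B a a ≠ 0) (c : T) :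
    dW (XX B a c) f ∈ U := by
  have h1 : dW (B a c • (LinearMap.id : Module.End k T) - XX B a c) f ∈ U := by
    by_contra hcon
    obtain ⟨l, hl, hlU⟩ := Submodule.exists_le_ker_of_notMem hcon
    apply hl
    let e : Fin 3 → Module.End k T := ![LinearMap.id,
      (2 * (B a a)⁻¹) • (B a c • (LinearMap.id : Module.End k T) - XX B a c),
      ((B a a) ^ 2)⁻¹ • (SR B a * SR B c)]
    have h2 := curve (lf l f) e (C (B a a) + C (2 * B a c) * X + C (B c c) * X ^ 2) (by
      intro h0
      apply ha
      have h3 := congrArg (fun P : k[X] => P.coeff 0) h0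
      simpa using h3) (fun t ht => by
      have h3 : B (a + t • c) (a + t • c) ≠ 0 := by
        intro h0
        apply ht
        rw [← h0]
        simp only [map_add, map_smul, LinearMap.add_apply, LinearMap.smul_apply, smul_eq_mul,
          eval_add, eval_mul, eval_C, eval_X, eval_pow]
        rw [hs c a]
        ring
      have h4 : e 0 + t • e 1 + t ^ 2 • e 2 = ((B a a) ^ 2)⁻¹ • (SR B a * SR B (a + t • c)) :=
        (SR_curve hs ha c t).symm
      rw [h4, lf_apply]
      exact hlU (SR_stable big hs hU hf ha h3 _))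
    have h3 : ∑ j, lf l f (Function.update (fun _ => e 0) j (e 1)) =
        l (dW ((2 * (B a a)⁻¹) • (B a c • (LinearMap.id : Module.End k T) - XX B a c)) f) := by
      have h4 : dW ((2 * (B a a)⁻¹) • (B a c • (LinearMap.id : Module.End k T) - XX B a c)) f =
          ∑ j, f.compLinearMap (Function.update (fun _ => e 0) j (e 1)) := by
        ext v
        rw [dW_apply, sum_apply]
        refine Finset.sum_congr rfl fun j _ => ?_
        rw [MultilinearMap.compLinearMap_apply]
        congr 1
        funext i
        by_cases hi : i = j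
        · subst hi
          rw [Function.update_self, Function.update_self]
          rfl
        · rw [Function.update_of_ne hi, Function.update_of_ne hi]
          rfl
      rw [h4, map_sum]
      rfl
    rw [h3, dW_smul, map_smul, smul_eq_mul] at h2
    refine (mul_eq_zero.1 h2).resolve_left ?_
    exact mul_ne_zero two_ne_zero (inv_ne_zero ha)
  have h2 : dW (LinearMap.id : Module.End k T) f = (Fintype.card σ : k) • f := by
    ext v
    rw [dW_apply, smul_apply]
    simp only [LinearMap.id_apply, Function.update_eq_self, Finset.sum_const, Finset.card_univ]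
    rw [Nat.cast_smul_eq_nsmul]
  rw [dW_sub, dW_smul, h2] at h1
  have h3 := U.sub_mem (U.smul_mem (B a c) (U.smul_mem (Fintype.card σ : k) hf)) h1
  rwa [sub_sub_cancel] at h3

/-- **Stable spaces are stable under the orthogonal Lie algebra.** -/
theorem der_stable (big : BigImage B ρ τ) (hs : ∀ u v, B u v = B v u)
    (hnd : ∀ u, (∀ w, B u w = 0) → u = 0)
    (hU : ∀ s, ∀ f ∈ U, mulMap ρ τ σ s f ∈ U)
    {f : MultilinearMap k (fun _ : σ => T) W} (hf : f ∈ U) (a c : T) :
    dW (XX B a c) f ∈ U := by
  by_cases ha : B a a ≠ 0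
  · exact der_stable_aniso big hs hU hf ha c
  push Not at ha
  by_cases ha0 : a = 0
  · have h1 : XX B a c = (0 : k) • (0 : Module.End k T) := by
      ext v
      rw [XX_apply, ha0]
      simp
    rw [h1, dW_smul, zero_smul]
    exact U.zero_mem
  obtain ⟨w, hw⟩ : ∃ w, B a w ≠ 0 := by
    by_contra hcon
    push Not at hcon
    exact ha0 (hnd a hcon)
  -- two anisotropic vectors
  obtain ⟨t, ht, ht1, ht2⟩ : ∃ t : k, t ≠ 0 ∧ B (a + t • w) (a + t • w) ≠ 0 ∧
      B (a - t • w) (a - t • w) ≠ 0 := by
    have hq : ∀ t : k, B (a + t • w) (a + t • w) = t * (2 * B a w + t * B w w) := by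
      intro t
      simp only [map_add, map_smul, LinearMap.add_apply, LinearMap.smul_apply, smul_eq_mul]
      rw [hs w a, ha]
      ring
    have hq' : ∀ t : k, B (a - t • w) (a - t • w) = - t * (2 * B a w - t * B w w) := by
      intro t
      simp only [map_sub, map_smul, LinearMap.sub_apply, LinearMap.smul_apply, smul_eq_mul]
      rw [hs w a, ha]
      ring
    by_cases hww : B w w = 0
    · refine ⟨1, one_ne_zero, ?_, ?_⟩
      · rw [hq, hww]
        simpa using hw
      · rw [hq', hww]
        simpa using hw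
    · refine ⟨B a w / B w w, div_ne_zero hw hww, ?_, ?_⟩
      · rw [hq]
        have h1 : B a w / B w w * (2 * B a w + B a w / B w w * B w w) =
            3 * (B a w ^ 2 / B w w) := by
          field_simp
          ring
        rw [h1]
        exact mul_ne_zero three_ne_zero (div_ne_zero (pow_ne_zero 2 hw) hww)
      · rw [hq']
        have h1 : -(B a w / B w w) * (2 * B a w - B a w / B w w * B w w) =
            -(B a w ^ 2 / B w w) := by
          field_simp
          ring
        rw [h1]
        exact neg_ne_zero.2 (div_ne_zero (pow_ne_zero 2 hw) hww)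
  have h1 := der_stable_aniso big hs hU hf ht1 c
  have h2 := der_stable_aniso big hs hU hf ht2 c
  have h3 : XX B a c = (2 : k)⁻¹ • (XX B (a + t • w) c + XX B (a - t • w) c) := by
    ext v
    simp only [XX_apply, LinearMap.smul_apply, LinearMap.add_apply, map_add, map_sub, map_smul,
      LinearMap.sub_apply]
    match_scalars
    all_goals
      field_simp
      try ring
  rw [h3, dW_smul, dW_add]
  exact U.smul_mem _ (U.add_mem h1 h2)

end stable

end

end Pool.Agent.V5helper93.SMP
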