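import Pool.Agent.V5helper93.SMP.Vals
import Pool.Agent.V5helper93.GTC.Main5

/-!
# The Künneth formula for small powers
-/

set_option autoImplicit false
set_option linter.unusedSectionVars false

namespace Pool.Agent.V5helper93.SMP

open Module Polynomial Pool.Agent.V5helper93.GTC Pool.Agent.Y128.GT

noncomputable section

/-! ### linear algebra -/

theorem fitting {k V : Type} [Field k] [AddCommGroup V] [Module k V] [FiniteDimensional k V]
    (T : Module.End k V) (h : ∀ v, T (T v) = 0 → T v = 0) (v : V) :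
    ∃ v₀ v₁, v = v₀ + T v₁ ∧ T v₀ = 0 := by
  let R := LinearMap.range T
  let T' : Module.End k R := T.restrict (p := R) (q := R) fun x _ => ⟨x, rfl⟩
  have hinj : Function.Injective T' := by
    rw [← LinearMap.ker_eq_bot, eq_bot_iff]
    rintro ⟨x, y, rfl⟩ hx
    have h1 : T (T y) = 0 := congrArg Subtype.val hx
    exact (Submodule.mem_bot k).2 (Subtype.ext (h y h1))
  obtain ⟨⟨x, y, rfl⟩, hx⟩ := (LinearMap.injective_iff_surjective.1 hinj) ⟨T v, v, rfl⟩
  have h1 : T (T y) = T v := congrArg Subtype.val hx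
  refine ⟨v - T y, y, by rw [sub_add_cancel], ?_⟩
  rw [map_sub, h1, sub_self]

variable {k T W Γ : Type} [Field k] [CharZero k] [AddCommGroup T] [Module k T]
  [FiniteDimensional k T] [AddCommGroup W] [Module k W] [FiniteDimensional k W] [Group Γ]

/-- A map with values in `Y`. -/
theorem mem_mtens {σ : Type} [Fintype σ] [DecidableEq σ] (Y : Submodule k W)
    (f : MultilinearMap k (fun _ : σ => T) W) (hf : ∀ v, f v ∈ Y) : f ∈ mtens ⊤ Y := by
  classical
  obtain ⟨q, hq⟩ := Y.subtype.exists_leftInverse_of_injective (by rw [Submodule.ker_subtype])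
  have hq1 : ∀ y : Y, q (y : W) = y := fun y => LinearMap.congr_fun hq y
  let b := Module.finBasis k Y
  let g : Fin (finrank k Y) → MultilinearMap k (fun _ : σ => T) W := fun a =>
    (LinearMap.toSpanSingleton k W (b a : W)).compMultilinearMap
      (((b.coord a).comp q).compMultilinearMap f)
  have h1 : f = ∑ a, g a := by
    ext v
    rw [sum_apply]
    have h2 := congrArg (Y.subtype) (b.sum_repr (q (f v)))
    rw [map_sum] at h2
    have h3 : Y.subtype (q (f v)) = f v := congrArg Subtype.val (hq1 ⟨f v, hf v⟩)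
    rw [h3] at h2
    conv_lhs => rw [← h2]
    refine Finset.sum_congr rfl fun a _ => ?_
    rw [map_smul]
    rfl
  rw [h1]
  exact Submodule.sum_mem _ fun a _ => Submodule.subset_span
    ⟨((b.coord a).comp q).compMultilinearMap f, Submodule.mem_top, _, (b a).2, fun v => rfl⟩

theorem mtens_mono {σ : Type} (D : Submodule k (MultilinearMap k (fun _ : σ => T) k))
    {Y Y' : Submodule k W} (h : Y ≤ Y') : mtens D Y ≤ mtens D Y' :=
  Submodule.span_mono fun _ ⟨h1, h2, w, hw, h3⟩ => ⟨h1, h2, w, h hw, h3⟩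

/-- insertion -/
theorem ins_mtens {B : T →ₗ[k] T →ₗ[k] k} {σ : Type} [DecidableEq σ] {a b : σ} (hab : a ≠ b)
    {c : ℕ} {Y : Submodule k W}
    {g : MultilinearMap k (fun _ : {l : σ // l ≠ a ∧ l ≠ b} => T) W}
    (hg : g ∈ mtens (prods B c {l : σ // l ≠ a ∧ l ≠ b}) Y) :
    ins hab B g ∈ mtens (prods B (c + 1) σ) Y := by
  induction hg using Submodule.span_induction with
  | zero => rw [map_zero]; exact Submodule.zero_mem _
  | add x y _ _ hx hy => rw [map_add]; exact Submodule.add_mem _ hx hy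
  | smul r x _ hx => rw [map_smul]; exact Submodule.smul_mem _ _ hx
  | mem g hg =>
    obtain ⟨h, hh, w, hw, hv⟩ := hg
    refine Submodule.subset_span ⟨ins hab B h, Submodule.subset_span ⟨a, b, hab, h, hh, rfl⟩, w,
      hw, fun v => ?_⟩
    rw [ins_apply, ins_apply, hv, smul_smul, smul_eq_mul]

variable {B : T →ₗ[k] T →ₗ[k] k} {ρ : Representation k Γ T} {χ : Γ →* k} {w : ℕ}
  {τ : Representation k Γ W}

/-- the target -/
def Tgt (B : T →ₗ[k] T →ₗ[k] k) (τ : Representation k Γ W) (P : Set (Γ × ℕ × ℕ)) (w : ℕ)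
    (σ : Type) [DecidableEq σ] (ν : ℕ) : Submodule k (MultilinearMap k (fun _ : σ => T) W) :=
  ⨆ c : ℕ, mtens (prods B c σ) (coniv τ P (ν - w * c))

theorem ins_Tgt {P : Set (Γ × ℕ × ℕ)} {σ : Type} [DecidableEq σ] {a b : σ} (hab : a ≠ b) {ν : ℕ}
    {g : MultilinearMap k (fun _ : {l : σ // l ≠ a ∧ l ≠ b} => T) W}
    (hg : g ∈ Tgt B τ P w {l : σ // l ≠ a ∧ l ≠ b} (ν - w)) : ins hab B g ∈ Tgt B τ P w σ ν := by
  have h1 : Tgt B τ P w {l : σ // l ≠ a ∧ l ≠ b} (ν - w) ≤ (Tgt B τ P w σ ν).comap (ins hab B) := by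
    refine iSup_le fun c g hg => ?_
    refine Submodule.mem_iSup_of_mem (c + 1) ?_
    have h2 : ν - w * (c + 1) = ν - w - w * c := by
      rw [Nat.sub_sub, mul_add, mul_one, add_comm w]
    rw [h2]
    exact ins_mtens hab hg
  exact h1 hg

/-- everything is in the step zero -/
theorem mem_Tgt_zero {P : Set (Γ × ℕ × ℕ)} (hW : ∀ x ∈ P, EntireOn x.2.1 x.2.2 0 (τ x.1⁻¹) ⊤)
    {σ : Type} [Fintype σ] [DecidableEq σ] {ν : ℕ} (hν : ν = 0)
    (g : MultilinearMap k (fun _ : σ => T) W) : g ∈ Tgt B τ P w σ ν := by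
  refine Submodule.mem_iSup_of_mem 0 ?_
  have htop : coniv τ P (ν - w * 0) = ⊤ := by
    rw [mul_zero, Nat.sub_zero, hν]
    exact top_le_iff.1 (le_sSup ⟨fun g u _ => Submodule.mem_top, hW⟩)
  rw [htop]
  exact mem_mtens ⊤ g fun v => Submodule.mem_top

/-- the shift of the polynomial -/
theorem shift {p a ν w : ℕ} (hp : p ≠ 0) (hν : w ≤ ν) {V V' : Type} [AddCommGroup V] [Module k V]
    [AddCommGroup V'] [Module k V'] {R : Module.End k V} {R' : Module.End k V'} {L : V →ₗ[k] V'}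
    (hL : ∀ v, L (R v) = ((p : k) ^ a) ^ w • R' (L v)) {U : Submodule k V}
    (hU : EntireOn p a ν R U) : EntireOn p a (ν - w) R' (U.map L) := by
  obtain ⟨Q, hQm, hQU, hQβ⟩ := hU
  set c : k := ((p : k) ^ a) ^ w with hc
  have hc0 : c ≠ 0 := pow_ne_zero _ (pow_ne_zero _ (Nat.cast_ne_zero.2 hp))
  have hdeg : (C c * X : k[X]).natDegree = 1 := by
    rw [natDegree_C_mul hc0, natDegree_X]
  refine ⟨C ((c ^ Q.natDegree)⁻¹) * Q.comp (C c * X), ?_, ?_, ?_⟩
  · rw [Monic.def, leadingCoeff_mul, leadingCoeff_C, leadingCoeff_comp (by rw [hdeg]; exact one_ne_zero),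
      hQm.leadingCoeff, one_mul, leadingCoeff_mul, leadingCoeff_C, leadingCoeff_X, mul_one,
      inv_mul_cancel₀ (pow_ne_zero _ hc0)]
  · rintro _ ⟨u, hu, rfl⟩
    have h1 : aeval R' (Q.comp (C c * X)) = aeval (c • R') Q := by
      rw [aeval_comp]
      congr 1
      rw [map_mul, aeval_C, aeval_X, Algebra.smul_def]
    have h2 := aeval_inter R (c • R') L (fun v => by rw [hL]; rfl) Q u
    rw [hQU u hu, map_zero] at h2
    rw [map_mul, Module.End.mul_apply, h1, ← h2, map_zero]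
  · intro β hβ
    have h1 : aeval (algebraMap k (AlgebraicClosure k) c * β) Q = 0 := by
      rw [map_mul, aeval_C, aeval_comp, map_mul, aeval_C, aeval_X] at hβ
      refine (mul_eq_zero.1 hβ).resolve_left ?_
      intro h0
      rw [map_eq_zero] at h0
      exact inv_ne_zero (pow_ne_zero _ hc0) h0
    have h2 := hQβ _ h1
    have hp0 : (p : AlgebraicClosure k) ^ a ≠ 0 := pow_ne_zero _ (Nat.cast_ne_zero.2 hp)
    have h3 : algebraMap k (AlgebraicClosure k) c * β / ((p : AlgebraicClosure k) ^ a) ^ ν =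
        β / ((p : AlgebraicClosure k) ^ a) ^ (ν - w) := by
      rw [hc, map_pow, map_pow, map_natCast]
      conv_lhs => rw [← Nat.sub_add_cancel hν, pow_add]
      field_simp
    rwa [h3] at h2

/-! ### the space of the maps killed by the polynomials -/

section NN

variable (ρ τ) (P : Set (Γ × ℕ × ℕ)) (Q : P → k[X]) (σ : Type)

/-- the maps all translates of which are killed by the polynomials -/
def NN : Submodule k (MultilinearMap k (fun _ : σ => T) W) :=
  ⨅ (x : P) (s : Γ), LinearMap.ker (aeval (mulMap ρ τ σ x.1.1⁻¹) (Q x) * mulMap ρ τ σ s)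

theorem mem_NN (f : MultilinearMap k (fun _ : σ => T) W) : f ∈ NN ρ τ P Q σ ↔
    ∀ (x : P) (s : Γ), aeval (mulMap ρ τ σ x.1.1⁻¹) (Q x) (mulMap ρ τ σ s f) = 0 := by
  unfold NN
  simp only [Submodule.mem_iInf, LinearMap.mem_ker, Module.End.mul_apply]

theorem NN_stable (s : Γ) (f : MultilinearMap k (fun _ : σ => T) W) (hf : f ∈ NN ρ τ P Q σ) :
    mulMap ρ τ σ s f ∈ NN ρ τ P Q σ := by
  rw [mem_NN] at hf ⊢
  intro x t
  have h1 := hf x (t * s)
  rw [mulMap_mul, Module.End.mul_apply] at h1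
  exact h1

theorem NN_kill (x : P) (f : MultilinearMap k (fun _ : σ => T) W) (hf : f ∈ NN ρ τ P Q σ) :
    aeval (mulMap ρ τ σ x.1.1⁻¹) (Q x) f = 0 := by
  have h1 := (mem_NN ρ τ P Q σ f).1 hf x 1
  rwa [mulMap_one, Module.End.one_apply] at h1

theorem le_NN {U : Submodule k (MultilinearMap k (fun _ : σ => T) W)}
    (hU : ∀ s, ∀ f ∈ U, mulMap ρ τ σ s f ∈ U)
    (hQ : ∀ x : P, ∀ f ∈ U, aeval (mulMap ρ τ σ x.1.1⁻¹) (Q x) f = 0) : U ≤ NN ρ τ P Q σ := by
  intro f hf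
  rw [mem_NN]
  exact fun x s => hQ x _ (hU s f hf)

theorem NN_comm {L : Module.End k (MultilinearMap k (fun _ : σ => T) W)}
    (hL : ∀ s f, L (mulMap ρ τ σ s f) = mulMap ρ τ σ s (L f))
    (f : MultilinearMap k (fun _ : σ => T) W) (hf : f ∈ NN ρ τ P Q σ) :
    L f ∈ NN ρ τ P Q σ := by
  rw [mem_NN] at hf ⊢
  intro x s
  rw [← hL, ← aeval_inter (mulMap ρ τ σ x.1.1⁻¹) (mulMap ρ τ σ x.1.1⁻¹) L (hL _), hf x s, map_zero]

end NN

/-- the factor of similitude is not zero -/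
theorem chi_ne (χ : Γ →* k) (s : Γ) (w : ℕ) : χ s ^ w ≠ 0 := by
  refine pow_ne_zero w ?_
  intro h0
  have h1 : χ s * χ s⁻¹ = 1 := by rw [← map_mul, mul_inv_cancel, map_one]
  rw [h0, zero_mul] at h1
  exact zero_ne_one h1

/-- **The Künneth formula for small powers.** -/
theorem kunneth (h : Orthogonal B ρ χ w) (hw : 0 < w) (big : BigImage B ρ τ) {m : ℕ}
    (hm : 2 * m < finrank k T) {P : Set (Γ × ℕ × ℕ)}
    (hP : ∀ x ∈ P, x.2.1.Prime ∧ 0 < x.2.2 ∧ UnitFrobenius ρ χ m x.2.1 x.2.2 x.1)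
    (hW : ∀ x ∈ P, EntireOn x.2.1 x.2.2 0 (τ x.1⁻¹) ⊤) :
    ∀ (n : ℕ) (σ : Type) [Fintype σ] [DecidableEq σ], Fintype.card σ = n → n ≤ m → ∀ ν : ℕ,
      coniv (mulRep ρ τ σ) P ν ≤ Tgt B τ P w σ ν := by
  obtain ⟨ι₀, _, _, d, d', hd⟩ := exists_DP h.symm h.nondeg
  intro n
  induction n using Nat.strong_induction_on with
  | _ n ih =>
    intro σ _ _ hσ hn ν
    refine sSup_le fun U hU f hf => ?_
    obtain ⟨hU1, hU2⟩ := hU
    -- the polynomials
    choose! Q hQ using hU2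
    let Q' : P → k[X] := fun x => Q x.1
    have hUN : U ≤ NN ρ τ P Q' σ := le_NN ρ τ P Q' σ hU1 fun x f hf => (hQ x.1 x.2).2.1 f hf
    have hKS : ∀ (s : Γ) (f : MultilinearMap k (fun _ : σ => T) W),
        KS B d d' (mulMap ρ τ σ s f) = mulMap ρ τ σ s (KS B d d' f) := fun s f =>
      KS_act ρ τ hd (chi_ne χ s⁻¹ w) (h.sim s⁻¹) f
    have hNKS : ∀ f ∈ NN ρ τ P Q' σ, KS B d d' f ∈ NN ρ τ P Q' σ :=
      NN_comm ρ τ P Q' σ hKS
    -- the decomposition
    obtain ⟨⟨f₀, hf₀⟩, ⟨f₁, hf₁⟩, hdec, hf₀'⟩ := fitting ((KS B d d').restrict hNKS) (fun v hv => by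
      have h1 : KS B d d' (KS B d d' v.1) = 0 := congrArg Subtype.val hv
      exact Subtype.ext (harm h.symm hd v.1 h1).1) ⟨f, hUN hf⟩
    have hdec' : f = f₀ + KS B d d' f₁ := congrArg Subtype.val hdec
    have hf₀K : KS B d d' f₀ = 0 := congrArg Subtype.val hf₀'
    rw [hdec']
    refine Submodule.add_mem _ ?_ ?_
    · -- the traceless part
      let U₀ : Submodule k (MultilinearMap k (fun _ : σ => T) W) :=
        NN ρ τ P Q' σ ⊓ LinearMap.ker (KS B d d')
      have hU₀ : ∀ s, ∀ f ∈ U₀, mulMap ρ τ σ s f ∈ U₀ := by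
        rintro s f ⟨hf1, hf2⟩
        refine ⟨NN_stable ρ τ P Q' σ s f hf1, ?_⟩
        rw [SetLike.mem_coe, LinearMap.mem_ker] at hf2 ⊢
        rw [hKS, hf2, map_zero]
      have hctr : ∀ f ∈ U₀, ∀ (x y : σ) (hxy : x ≠ y), ctr hxy d d' f = 0 := by
        rintro f ⟨-, hf2⟩
        rw [SetLike.mem_coe, LinearMap.mem_ker] at hf2
        exact (harm h.symm hd f (by rw [hf2, map_zero])).2
      have h1 : vals U₀ ≤ coniv τ P ν := le_sSup ⟨vals_stable hU₀, fun x hx =>
        vals_entire h hw big (hP x hx).1 (hP x hx).2.1 (hP x hx).2.2 (by rw [hσ]; exact hn)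
          (by rw [hσ]; omega) hU₀ ⟨Q x, (hQ x hx).1, fun f hf =>
            NN_kill ρ τ P Q' σ ⟨x, hx⟩ f hf.1, (hQ x hx).2.2⟩ hd hctr⟩
      refine Submodule.mem_iSup_of_mem 0 ?_
      rw [mul_zero, Nat.sub_zero]
      exact mem_mtens _ _ fun v => h1 (Submodule.subset_span ⟨f₀, ⟨hf₀, hf₀K⟩, v, rfl⟩)
    · -- the other part
      rw [KS_apply]
      refine Submodule.sum_mem _ fun p _ => ins_Tgt p.2 ?_
      obtain ⟨⟨a, b⟩, hab⟩ := p
      simp only at hab ⊢
      by_cases hν : w ≤ ν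
      · have hcard : Fintype.card {l : σ // l ≠ a ∧ l ≠ b} < n := by
          rw [← hσ]
          exact Fintype.card_subtype_lt (x := a) fun h0 => h0.1 rfl
        refine ih _ hcard {l : σ // l ≠ a ∧ l ≠ b} rfl (hcard.le.trans hn) (ν - w) ?_
        have h1 : (NN ρ τ P Q' σ).map (ctr hab d d') ≤
            coniv (mulRep ρ τ {l : σ // l ≠ a ∧ l ≠ b}) P (ν - w) := by
          refine le_sSup ⟨?_, fun x hx => ?_⟩
          · rintro s _ ⟨g, hg, rfl⟩
            have h2 := ctr_act ρ τ hd (chi_ne χ s⁻¹ w) (h.sim s⁻¹) hab g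
            change mulMap ρ τ {l : σ // l ≠ a ∧ l ≠ b} s (ctr hab d d' g) ∈ _
            have h3 : mulMap ρ τ {l : σ // l ≠ a ∧ l ≠ b} s (ctr hab d d' g) =
                (χ s⁻¹ ^ w)⁻¹ • ctr hab d d' (mulMap ρ τ σ s g) := by
              rw [h2, smul_smul, inv_mul_cancel₀ (chi_ne χ s⁻¹ w), one_smul]
            rw [h3]
            exact Submodule.smul_mem _ _ ⟨_, NN_stable ρ τ P Q' σ s g hg, rfl⟩
          · refine shift (hP x hx).1.ne_zero hν (R := mulMap ρ τ σ x.1⁻¹)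
              (R' := mulMap ρ τ {l : σ // l ≠ a ∧ l ≠ b} x.1⁻¹) (L := ctr hab d d')
              (fun g => ?_) ⟨Q x, (hQ x hx).1, fun f hf =>
                NN_kill ρ τ P Q' σ ⟨x, hx⟩ f hf, (hQ x hx).2.2⟩
            refine ctr_act ρ τ hd (c := ((x.2.1 : k) ^ x.2.2) ^ w) ?_ (fun u v => ?_) hab g
            · exact pow_ne_zero _ (pow_ne_zero _ (Nat.cast_ne_zero.2 (hP x hx).1.ne_zero))
            · rw [inv_inv, h.sim, (hP x hx).2.2.cyc]
        exact h1 ⟨f₁, hf₁, rfl⟩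
      · exact mem_Tgt_zero hW (by omega) _

end

end Pool.Agent.V5helper93.SMP
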