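import Mathlib

/-!
# Operators on polynomials in several vector variables

The polynomial ring in the variables `X (x, b)`, `x` in `κ` and `b` in `Fin m` (the coordinate `x` of the
vector number `b`). The operators `Dd` act on the coordinates (the Lie algebra `gl(κ)`) and the operators
`Ee` on the vectors (the Lie algebra `gl(m)`).
-/

set_option autoImplicit false
set_option linter.unusedSectionVars false

namespace Pool.Agent.V5helper93.SMP.PT

open MvPolynomial Module

noncomputable section

variable {K : Type} [Field K] [CharZero K] {κ : Type} [Fintype κ] [DecidableEq κ] {m : ℕ}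

/-- polynomials -/
abbrev Pol (K κ : Type) [Field K] (m : ℕ) : Type := MvPolynomial (κ × Fin m) K

theorem der_eq_sum {I : Type} [Fintype I] [DecidableEq I]
    (d : Derivation K (MvPolynomial I K) (MvPolynomial I K)) (F : MvPolynomial I K) :
    d F = ∑ i, d (X i) * pderiv i F := by
  induction F using MvPolynomial.induction_on with
  | C a =>
    have h1 : (C a : MvPolynomial I K) = algebraMap K _ a := rfl
    simp only [h1, Derivation.map_algebraMap, mul_zero, Finset.sum_const_zero]
  | add p q hp hq =>
    rw [map_add, hp, hq, ← Finset.sum_add_distrib]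
    refine Finset.sum_congr rfl fun i _ => ?_
    rw [map_add, mul_add]
  | mul_X p j hp =>
    rw [Derivation.leibniz, hp, smul_eq_mul, smul_eq_mul]
    have h1 : ∀ i, d (X i) * pderiv i (p * X j) =
        X j * (d (X i) * pderiv i p) + (if i = j then p * d (X i) else 0) := by
      intro i
      rw [Derivation.leibniz, pderiv_X, smul_eq_mul, smul_eq_mul]
      by_cases h : i = j
      · subst h
        rw [Pi.single_eq_same, if_pos rfl]
        ring
      · rw [Pi.single_eq_of_ne (Ne.symm h), if_neg h]
        ring
    rw [Finset.sum_congr rfl fun i _ => h1 i, Finset.sum_add_distrib, Finset.sum_ite_eq',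
      if_pos (Finset.mem_univ _), Finset.mul_sum, add_comm]

theorem der_comm {I : Type} {d₁ d₂ d₃ : Derivation K (MvPolynomial I K) (MvPolynomial I K)}
    (h : ∀ i, d₁ (d₂ (X i)) - d₂ (d₁ (X i)) = d₃ (X i)) (F : MvPolynomial I K) :
    d₁ (d₂ F) = d₂ (d₁ F) + d₃ F := by
  have h1 : ⁅d₁, d₂⁆ = d₃ := MvPolynomial.derivation_ext fun i => by
    rw [Derivation.commutator_apply]
    exact h i
  have h2 := congrArg (fun d : Derivation K (MvPolynomial I K) (MvPolynomial I K) => d F) h1
  simp only [Derivation.commutator_apply] at h2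
  rw [← h2]
  ring

/-- partial derivatives commute -/
theorem pd_comm {I : Type} (i j : I) (F : MvPolynomial I K) :
    pderiv i (pderiv j F) = pderiv j (pderiv i F) := by
  classical
  have h := der_comm (K := K) (d₁ := pderiv i) (d₂ := pderiv j) (d₃ := 0) (fun l => by
    have hz : ∀ (a b c : I), pderiv a ((Pi.single b (1 : MvPolynomial I K) :
        I → MvPolynomial I K) c) = 0 := by
      intro a b c
      rw [Pi.single_apply]
      split_ifs
      · exact Derivation.map_one_eq_zero _
      · exact map_zero _
    rw [pderiv_X, pderiv_X, hz, hz, sub_zero]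
    rfl) F
  rw [h, Derivation.zero_apply, add_zero]

/-- the operators on the coordinates -/
def Dd (a b : κ) : Derivation K (Pol K κ m) (Pol K κ m) :=
  MvPolynomial.mkDerivation K fun i => if i.1 = b then X (a, i.2) else 0

/-- the operators on the vectors -/
def Ee (b c : Fin m) : Derivation K (Pol K κ m) (Pol K κ m) :=
  MvPolynomial.mkDerivation K fun i => if i.2 = c then X (i.1, b) else 0

theorem Dd_X (a b : κ) (i : κ × Fin m) :
    Dd (K := K) a b (X i) = if i.1 = b then X (a, i.2) else 0 := mkDerivation_X _ _ _

theorem Ee_X (b c : Fin m) (i : κ × Fin m) :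
    Ee (K := K) b c (X i) = if i.2 = c then X (i.1, b) else 0 := mkDerivation_X _ _ _

theorem Dd_eq (a b : κ) (F : Pol K κ m) :
    Dd a b F = ∑ c, X (a, c) * pderiv (b, c) F := by
  rw [der_eq_sum, Fintype.sum_prod_type, Finset.sum_eq_single b]
  · refine Finset.sum_congr rfl fun c _ => ?_
    rw [Dd_X, if_pos rfl]
  · intro x _ hx
    refine Finset.sum_eq_zero fun c _ => ?_
    rw [Dd_X, if_neg hx, zero_mul]
  · intro h
    exact absurd (Finset.mem_univ _) h

theorem Ee_eq (b c : Fin m) (F : Pol K κ m) :
    Ee b c F = ∑ x, X (x, b) * pderiv (x, c) F := by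
  rw [der_eq_sum, Fintype.sum_prod_type_right, Finset.sum_eq_single c]
  · refine Finset.sum_congr rfl fun x _ => ?_
    rw [Ee_X, if_pos rfl]
  · intro x _ hx
    refine Finset.sum_eq_zero fun y _ => ?_
    rw [Ee_X, if_neg hx, zero_mul]
  · intro h
    exact absurd (Finset.mem_univ _) h

theorem pd_X (i j : κ × Fin m) : pderiv i (X j : Pol K κ m) = if j = i then 1 else 0 := by
  rw [pderiv_X, Pi.single_apply]

theorem pd_Dd (i : κ × Fin m) (a b : κ) (F : Pol K κ m) :
    pderiv i (Dd a b F) = Dd a b (pderiv i F) + (if i.1 = a then pderiv (b, i.2) F else 0) := by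
  by_cases hia : i.1 = a
  · rw [if_pos hia]
    refine der_comm (fun j => ?_) F
    rw [Dd_X, pd_X, pd_X]
    have h1 : Dd a b (if j = i then (1 : Pol K κ m) else 0) = 0 := by
      split_ifs
      · exact Derivation.map_one_eq_zero _
      · exact map_zero _
    rw [h1, sub_zero]
    by_cases hj : j.1 = b
    · rw [if_pos hj, pd_X]
      congr 1
      rw [eq_iff_iff]
      constructor
      · intro h
        refine Prod.ext hj ?_
        rw [← h]
      · intro h
        rw [h]
        exact Prod.ext hia.symm rfl
    · rw [if_neg hj, map_zero, if_neg]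
      intro h
      exact hj (by rw [h])
  · rw [if_neg hia]
    have h := der_comm (K := K) (d₁ := pderiv i) (d₂ := Dd a b) (d₃ := 0) (fun j => ?_) F
    · rw [h, Derivation.zero_apply]
    rw [Dd_X, pd_X]
    have h1 : Dd a b (if j = i then (1 : Pol K κ m) else 0) = 0 := by
      split_ifs
      · exact Derivation.map_one_eq_zero _
      · exact map_zero _
    rw [h1, sub_zero]
    by_cases hj : j.1 = b
    · rw [if_pos hj, pd_X, if_neg]
      · rfl
      · intro h
        exact hia (by rw [← h])
    · rw [if_neg hj, map_zero]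
      rfl

theorem pd_Ee (i : κ × Fin m) (b c : Fin m) (F : Pol K κ m) :
    pderiv i (Ee b c F) = Ee b c (pderiv i F) + (if i.2 = b then pderiv (i.1, c) F else 0) := by
  by_cases hia : i.2 = b
  · rw [if_pos hia]
    refine der_comm (fun j => ?_) F
    rw [Ee_X, pd_X, pd_X]
    have h1 : Ee b c (if j = i then (1 : Pol K κ m) else 0) = 0 := by
      split_ifs
      · exact Derivation.map_one_eq_zero _
      · exact map_zero _
    rw [h1, sub_zero]
    by_cases hj : j.2 = c
    · rw [if_pos hj, pd_X]
      congr 1
      rw [eq_iff_iff]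
      constructor
      · intro h
        refine Prod.ext ?_ hj
        rw [← h]
      · intro h
        rw [h]
        exact Prod.ext rfl hia.symm
    · rw [if_neg hj, map_zero, if_neg]
      intro h
      exact hj (by rw [h])
  · rw [if_neg hia]
    have h := der_comm (K := K) (d₁ := pderiv i) (d₂ := Ee b c) (d₃ := 0) (fun j => ?_) F
    · rw [h, Derivation.zero_apply]
    rw [Ee_X, pd_X]
    have h1 : Ee b c (if j = i then (1 : Pol K κ m) else 0) = 0 := by
      split_ifs
      · exact Derivation.map_one_eq_zero _
      · exact map_zero _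
    rw [h1, sub_zero]
    by_cases hj : j.2 = c
    · rw [if_pos hj, pd_X, if_neg]
      · rfl
      · intro h
        exact hia (by rw [← h])
    · rw [if_neg hj, map_zero]
      rfl

theorem Dd_Ee (a b : κ) (c d : Fin m) (F : Pol K κ m) : Dd a b (Ee c d F) = Ee c d (Dd a b F) := by
  have h := der_comm (K := K) (d₁ := Dd a b) (d₂ := Ee c d) (d₃ := 0) (fun j => ?_) F
  · rw [h, Derivation.zero_apply, add_zero]
  rw [Dd_X, Ee_X]
  by_cases h1 : j.1 = b <;> by_cases h2 : j.2 = d <;> simp [h1, h2, Dd_X, Ee_X]

theorem Dd_Dd (a b c d : κ) (F : Pol K κ m) : Dd a b (Dd c d F) = Dd c d (Dd a b F) +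
    ((if b = c then Dd a d F else 0) - (if d = a then Dd c b F else 0)) := by
  let d₃ : Derivation K (Pol K κ m) (Pol K κ m) := (if b = c then Dd a d else 0) -
    (if d = a then Dd c b else 0)
  have h := der_comm (K := K) (d₁ := Dd a b) (d₂ := Dd c d) (d₃ := d₃) (fun j => ?_) F
  · rw [h]
    congr 1
    simp only [d₃, Derivation.sub_apply]
    congr 1
    · split_ifs <;> rfl
    · split_ifs <;> rfl
  have e1 : ∀ (P : Prop) [Decidable P], ((if P then Dd a d else 0 :
      Derivation K (Pol K κ m) (Pol K κ m)) (X j)) = if P then Dd a d (X j) else 0 := by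
    intro P _
    split_ifs <;> rfl
  have e2 : ∀ (P : Prop) [Decidable P], ((if P then Dd c b else 0 :
      Derivation K (Pol K κ m) (Pol K κ m)) (X j)) = if P then Dd c b (X j) else 0 := by
    intro P _
    split_ifs <;> rfl
  simp only [d₃, Derivation.sub_apply, e1, e2, Dd_X, apply_ite (Dd (K := K) (m := m) a b),
    apply_ite (Dd (K := K) (m := m) c d), map_zero]
  split_ifs <;> grind

theorem Ee_Ee (a b c d : Fin m) (F : Pol K κ m) : Ee a b (Ee c d F) = Ee c d (Ee a b F) +
    ((if b = c then Ee a d F else 0) - (if d = a then Ee c b F else 0)) := by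
  let d₃ : Derivation K (Pol K κ m) (Pol K κ m) := (if b = c then Ee a d else 0) -
    (if d = a then Ee c b else 0)
  have h := der_comm (K := K) (d₁ := Ee a b) (d₂ := Ee c d) (d₃ := d₃) (fun j => ?_) F
  · rw [h]
    congr 1
    simp only [d₃, Derivation.sub_apply]
    congr 1
    · split_ifs <;> rfl
    · split_ifs <;> rfl
  have e1 : ∀ (P : Prop) [Decidable P], ((if P then Ee a d else 0 :
      Derivation K (Pol K κ m) (Pol K κ m)) (X j)) = if P then Ee a d (X j) else 0 := by
    intro P _
    split_ifs <;> rfl
  have e2 : ∀ (P : Prop) [Decidable P], ((if P then Ee c b else 0 :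
      Derivation K (Pol K κ m) (Pol K κ m)) (X j)) = if P then Ee c b (X j) else 0 := by
    intro P _
    split_ifs <;> rfl
  simp only [d₃, Derivation.sub_apply, e1, e2, Ee_X, apply_ite (Ee (K := K) (κ := κ) a b),
    apply_ite (Ee (K := K) (κ := κ) c d), map_zero]
  split_ifs <;> grind

end

end Pool.Agent.V5helper93.SMP.PT
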