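import Pool.Agent.V5helper93.SMP.Poly

/-!
# Eigenvalues: general lemmas
-/

set_option autoImplicit false
set_option linter.unusedSectionVars false

namespace Pool.Agent.V5helper93.SMP.PT

open MvPolynomial Module

noncomputable section

/-! ### operators with integral eigenvalues -/

section gen

variable {K V : Type} [Field K] [CharZero K] [IsAlgClosed K] [AddCommGroup V] [Module K V]

/-- A largest eigenvalue. -/
theorem exists_top (M : Submodule K V) [FiniteDimensional K M] (hM : M ≠ ⊥) (T : Module.End K V)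
    (hT : ∀ F ∈ M, T F ∈ M) (hint : ∀ F ∈ M, F ≠ 0 → ∀ r : K, T F = r • F → ∃ z : ℤ, r = z) :
    ∃ μ : ℤ, (∃ F ∈ M, F ≠ 0 ∧ T F = (μ : K) • F) ∧
      ∀ ν : ℤ, ∀ F ∈ M, F ≠ 0 → T F = (ν : K) • F → ν ≤ μ := by
  let T' : Module.End K M := T.restrict hT
  have hnt : Nontrivial M := Submodule.nontrivial_iff_ne_bot.2 hM
  have hev : ∀ r : K, T'.HasEigenvalue r ↔ ∃ F ∈ M, F ≠ 0 ∧ T F = r • F := by
    intro r
    constructor
    · intro h
      obtain ⟨⟨F, hF⟩, hv⟩ := h.exists_hasEigenvector
      refine ⟨F, hF, fun h0 => hv.2 (Subtype.ext h0), ?_⟩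
      exact congrArg Subtype.val hv.apply_eq_smul
    · rintro ⟨F, hF, h0, hr⟩
      refine Module.End.hasEigenvalue_of_hasEigenvector (x := ⟨F, hF⟩) ?_
      rw [Module.End.hasEigenvector_iff, Module.End.mem_eigenspace_iff]
      exact ⟨Subtype.ext hr, fun h => h0 (congrArg Subtype.val h)⟩
  let Z : Set ℤ := {z | T'.HasEigenvalue (z : K)}
  have hZfin : Z.Finite := by
    refine Set.Finite.preimage (f := fun z : ℤ => (z : K)) ?_ T'.finite_hasEigenvalue
    exact fun a _ b _ h => Int.cast_injective h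
  have hZne : Z.Nonempty := by
    obtain ⟨r, hr⟩ := Module.End.exists_eigenvalue T'
    obtain ⟨F, hF, h0, hrF⟩ := (hev r).1 hr
    obtain ⟨z, rfl⟩ := hint F hF h0 r hrF
    exact ⟨z, hr⟩
  obtain ⟨μ, hμ, hmax⟩ := Set.exists_max_image Z id hZfin hZne
  refine ⟨μ, (hev _).1 hμ, fun ν F hF h0 hν => hmax ν ((hev _).2 ⟨F, hF, h0, hν⟩)⟩

/-- If the trace is zero then the largest eigenvalue is not negative. -/
theorem top_nonneg (M : Submodule K V) [FiniteDimensional K M] (hM : M ≠ ⊥) (T : Module.End K V)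
    (hT : ∀ F ∈ M, T F ∈ M) (htr : LinearMap.trace K M (T.restrict hT) = 0)
    (hint : ∀ F ∈ M, F ≠ 0 → ∀ r : K, T F = r • F → ∃ z : ℤ, r = z) (μ : ℤ)
    (hμ : ∀ ν : ℤ, ∀ F ∈ M, F ≠ 0 → T F = (ν : K) • F → ν ≤ μ) : 0 ≤ μ := by
  by_contra hcon
  push Not at hcon
  set T' : Module.End K M := T.restrict hT with hT'
  have hnt : Nontrivial M := Submodule.nontrivial_iff_ne_bot.2 hM
  have hspl : T'.charpoly.Splits := IsAlgClosed.splits _
  rw [Module.End.trace_eq_sum_roots_charpoly_of_splits hspl] at htr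
  have h1 : ∀ r ∈ T'.charpoly.roots, ∃ z : ℤ, r = z ∧ z ≤ -1 := by
    intro r hr
    have h2 : T'.HasEigenvalue r := by
      rw [Module.End.hasEigenvalue_iff_isRoot_charpoly]
      exact (Polynomial.mem_roots (LinearMap.charpoly_monic T').ne_zero).1 hr
    obtain ⟨⟨F, hF⟩, hv⟩ := h2.exists_hasEigenvector
    have h0 : F ≠ 0 := fun h0 => hv.2 (Subtype.ext h0)
    have h3 : T F = r • F := congrArg Subtype.val hv.apply_eq_smul
    obtain ⟨z, rfl⟩ := hint F hF h0 r h3
    exact ⟨z, rfl, by have := hμ z F hF h0 h3; omega⟩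
  have h2 : ∀ S : Multiset K, (∀ r ∈ S, ∃ z : ℤ, r = z ∧ z ≤ -1) →
      ∃ z : ℤ, S.sum = z ∧ z ≤ -(S.card : ℤ) := by
    intro S
    induction S using Multiset.induction_on with
    | empty => intro _; exact ⟨0, by simp, by simp⟩
    | cons a S ih =>
      intro h
      obtain ⟨z, hz, hz1⟩ := ih fun r hr => h r (Multiset.mem_cons_of_mem hr)
      obtain ⟨y, hy, hy1⟩ := h a (Multiset.mem_cons_self _ _)
      refine ⟨y + z, ?_, ?_⟩
      · rw [Multiset.sum_cons, hz, hy]
        push_cast
        rfl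
      · rw [Multiset.card_cons]
        push_cast
        omega
  obtain ⟨z, hz, hz1⟩ := h2 _ h1
  have h3 : T'.charpoly.roots.card = finrank K M := by
    rw [← LinearMap.charpoly_natDegree T']
    exact (hspl.natDegree_eq_card_roots).symm
  have h4 : 0 < finrank K M := finrank_pos
  rw [hz] at htr
  have h5 : z = 0 := by exact_mod_cast htr
  omega

/-- the restriction of an operator -/
theorem restrict_val (M : Submodule K V) (T : Module.End K V) (hT : ∀ F ∈ M, T F ∈ M) (v : M) :
    ((T.restrict hT v : M) : V) = T v := rfl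

end gen

/-! ### weights of monomials -/

section wts

variable {K : Type} [Field K] [CharZero K]

theorem coeff_X_pd {I : Type} [DecidableEq I] (i : I) (ν : I →₀ ℕ) (F : MvPolynomial I K) :
    coeff ν (X i * pderiv i F) = (ν i : K) * coeff ν F := by
  induction F using MvPolynomial.monomial_add_induction_on with
  | C a =>
    have h1 : pderiv i (C a : MvPolynomial I K) = 0 := pderiv_C
    rw [h1, mul_zero, coeff_zero, coeff_C]
    split_ifs with h
    · subst h
      rw [Finsupp.zero_apply, Nat.cast_zero, zero_mul]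
    · rw [mul_zero]
  | monomial_add s a F _ _ ih =>
    rw [map_add, mul_add, coeff_add, coeff_add, ih, mul_add]
    congr 1
    rw [pderiv_monomial, coeff_monomial]
    by_cases hs : s i = 0
    · rw [hs, Nat.cast_zero, mul_zero, map_zero, mul_zero, coeff_zero]
      split_ifs with h
      · rw [← h, hs, Nat.cast_zero, zero_mul]
      · rw [mul_zero]
    · have h1 : (X i : MvPolynomial I K) * monomial (s - Finsupp.single i 1) (a * (s i : K)) =
          monomial s (a * (s i : K)) := by
        rw [X, monomial_mul, one_mul, add_tsub_cancel_of_le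
          (Finsupp.single_le_iff.2 (Nat.one_le_iff_ne_zero.2 hs))]
      rw [h1, coeff_monomial]
      split_ifs with h
      · rw [← h]
        ring
      · rw [mul_zero]

variable {κ : Type} [Fintype κ] [DecidableEq κ] {m : ℕ}

theorem coeff_Dd (a : κ) (ν : κ × Fin m →₀ ℕ) (F : Pol K κ m) :
    coeff ν (Dd a a F) = ((∑ c, ν (a, c) : ℕ) : K) * coeff ν F := by
  rw [Dd_eq, coeff_sum]
  simp only [coeff_X_pd]
  rw [← Finset.sum_mul]
  push_cast
  rfl

theorem coeff_Ee (b : Fin m) (ν : κ × Fin m →₀ ℕ) (F : Pol K κ m) :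
    coeff ν (Ee b b F) = ((∑ x, ν (x, b) : ℕ) : K) * coeff ν F := by
  rw [Ee_eq, coeff_sum]
  simp only [coeff_X_pd]
  rw [← Finset.sum_mul]
  push_cast
  rfl

/-- An operator which multiplies the monomials by integers has integral eigenvalues. -/
theorem int_of_diag {I : Type} (T : MvPolynomial I K → MvPolynomial I K) (wt : (I →₀ ℕ) → ℤ)
    (hT : ∀ F ν, coeff ν (T F) = (wt ν : K) * coeff ν F) (F : MvPolynomial I K) (hF : F ≠ 0)
    (r : K) (hr : T F = r • F) : ∃ ν, coeff ν F ≠ 0 ∧ r = (wt ν : K) := by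
  obtain ⟨ν, hν⟩ : ∃ ν, coeff ν F ≠ 0 := by
    by_contra hcon
    push Not at hcon
    exact hF (MvPolynomial.ext _ _ fun ν => by rw [hcon, coeff_zero])
  refine ⟨ν, hν, ?_⟩
  have h1 := hT F ν
  rw [hr, coeff_smul, smul_eq_mul] at h1
  exact mul_right_cancel₀ hν h1

/-- A polynomial all derivatives of which are zero is constant. -/
theorem const_of_pd {I : Type} [DecidableEq I] (F : MvPolynomial I K)
    (h : ∀ i, pderiv i F = 0) : F = C (coeff 0 F) := by
  ext ν
  rw [coeff_C]
  split_ifs with h0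
  · rw [h0]
  · obtain ⟨i, hi⟩ : ∃ i, ν i ≠ 0 := by
      by_contra hcon
      push Not at hcon
      exact h0 (Finsupp.ext fun i => (hcon i).symm)
    have h1 := coeff_X_pd i ν F
    rw [h i, mul_zero, coeff_zero] at h1
    exact (mul_eq_zero.1 h1.symm).resolve_left (Nat.cast_ne_zero.2 hi)

end wts

end

end Pool.Agent.V5helper93.SMP.PT
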