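import Pool.Agent.V5helper93.SMP.PolyA

/-!
# Harmonic polynomials in several vector variables
-/

set_option autoImplicit false
set_option linter.unusedSectionVars false
set_option linter.unusedSimpArgs false

namespace Pool.Agent.V5helper93.SMP.PT

open MvPolynomial Module

noncomputable section

variable {K : Type} [Field K] [CharZero K] {κ : Type} [Fintype κ] [DecidableEq κ] {m : ℕ}

/-- an involution with signs -/
structure Inv (ε : ℤ) (bar : κ → κ) (s : κ → ℤ) : Prop where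
  eps : ε = 1 ∨ ε = -1
  inv : ∀ x, bar (bar x) = x
  sgn : ∀ x, s x = 1 ∨ s x = -1
  sbar : ∀ x, s (bar x) = ε * s x

section inv

variable {ε : ℤ} {bar : κ → κ} {s : κ → ℤ}

theorem Inv.ee (h : Inv ε bar s) : (ε : K) * (ε : K) = 1 := by
  rcases h.eps with h | h <;> rw [h] <;> norm_num

theorem Inv.ss (h : Inv ε bar s) (x : κ) : (s x : K) * (s x : K) = 1 := by
  rcases h.sgn x with h | h <;> rw [h] <;> norm_num

theorem Inv.sb (h : Inv ε bar s) (x : κ) : (s (bar x) : K) = (ε : K) * (s x : K) := by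
  rw [h.sbar]
  push_cast
  rfl

end inv

/-- the operators given by the Lie algebra of the form -/
def Aa (ε : ℤ) (bar : κ → κ) (s : κ → ℤ) (x y : κ) : Module.End K (Pol K κ m) :=
  ((ε : K) * (s x : K)) • (Dd x (bar y)).toLinearMap - (s y : K) • (Dd y (bar x)).toLinearMap

theorem Aa_apply (ε : ℤ) (bar : κ → κ) (s : κ → ℤ) (x y : κ) (F : Pol K κ m) :
    Aa ε bar s x y F = ((ε : K) * (s x : K)) • Dd x (bar y) F - (s y : K) • Dd y (bar x) F := rfl

/-- the Laplace operators -/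
def Dl (bar : κ → κ) (s : κ → ℤ) (b c : Fin m) (F : Pol K κ m) : Pol K κ m :=
  ∑ x, (s x : K) • pderiv (x, b) (pderiv (bar x, c) F)

/-- setting the other variables to zero -/
def rs (P : κ → Prop) [DecidablePred P] : Pol K κ m →ₐ[K] Pol K κ m :=
  aeval fun i => if P i.1 then X i else 0

/-- The properties of the spaces of polynomials. -/
structure Good (ε : ℤ) (bar : κ → κ) (s : κ → ℤ) (P : κ → Prop) [DecidablePred P] (H : Finset κ)
    (B : Finset (Fin m)) (M : Submodule K (Pol K κ m)) : Prop where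
  barH : ∀ x ∈ H, bar x ∈ H
  supp : ∀ F ∈ M, ∀ i : κ × Fin m, ¬ (i.1 ∈ H ∧ i.2 ∈ B) → pderiv i F = 0
  lie : ∀ F ∈ M, ∀ x ∈ H, ∀ y ∈ H, Aa ε bar s x y F ∈ M
  gl : ∀ F ∈ M, ∀ b ∈ B, ∀ c ∈ B, Ee b c F ∈ M
  harm : ∀ F ∈ M, ∀ b c, Dl bar s b c F = 0
  van : ∀ F ∈ M, rs P F = 0

/-- the weight operator -/
def Hh (φ φ' : κ) : Module.End K (Pol K κ m) :=
  (Dd φ φ).toLinearMap - (Dd φ' φ').toLinearMap

theorem Hh_apply (φ φ' : κ) (F : Pol K κ m) : Hh φ φ' F = Dd φ φ F - Dd φ' φ' F := rfl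

section step

variable {ε : ℤ} {bar : κ → κ} {s : κ → ℤ} {P : κ → Prop} [DecidablePred P] {H : Finset κ}
  {B : Finset (Fin m)} {M : Submodule K (Pol K κ m)} {φ φ' : κ}

/-- The weight operator is in the Lie algebra. -/
theorem Aa_H (hI : Inv ε bar s) (h1 : bar φ = φ') (h2 : bar φ' = φ) (F : Pol K κ m) :
    Aa ε bar s φ φ' F = ((ε : K) * (s φ : K)) • Hh φ φ' F := by
  rw [Aa_apply, Hh_apply, h1, h2, ← h1, hI.sb, smul_sub]

theorem Hh_mem (hI : Inv ε bar s) (hM : Good ε bar s P H B M) (h1 : bar φ = φ') (h2 : bar φ' = φ)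
    (hφ : φ ∈ H) (hφ' : φ' ∈ H) (F : Pol K κ m) (hF : F ∈ M) : Hh φ φ' F ∈ M := by
  have h3 := hM.lie F hF φ hφ φ' hφ'
  rw [Aa_H hI h1 h2] at h3
  have h4 : ((ε : K) * (s φ : K)) ≠ 0 := by
    refine mul_ne_zero ?_ ?_
    · intro h0
      have := hI.ee (K := K)
      rw [h0, mul_zero] at this
      exact zero_ne_one this
    · intro h0
      have := hI.ss (K := K) φ
      rw [h0, mul_zero] at this
      exact zero_ne_one this
  exact (Submodule.smul_mem_iff _ h4).1 h3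

theorem Hh_Ee (b c : Fin m) (F : Pol K κ m) : Hh φ φ' (Ee b c F) = Ee b c (Hh φ φ' F) := by
  rw [Hh_apply, Hh_apply, Dd_Ee, Dd_Ee, map_sub]

/-- raising operators -/
theorem Hh_raise (h1 : bar φ = φ') (hne : φ ≠ φ') {w : κ}
    (hw1 : w ≠ φ) (hw2 : w ≠ φ') (hw3 : bar w ≠ φ) (hw4 : bar w ≠ φ') (F : Pol K κ m) :
    Hh φ φ' (Aa ε bar s φ w F) = Aa ε bar s φ w (Hh φ φ' F) + Aa ε bar s φ w F := by
  simp only [Hh_apply, Aa_apply, map_sub, map_smul, Derivation.map_smul, h1,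
    Dd_Dd φ φ, Dd_Dd φ' φ', if_true, if_neg hne, if_neg (Ne.symm hne), if_neg hw1, if_neg hw2,
    if_neg hw3, if_neg hw4, if_neg (Ne.symm hw1), if_neg (Ne.symm hw2)]
  module

theorem Hh_raise2 (h1 : bar φ = φ') (hne : φ ≠ φ') (F : Pol K κ m) :
    Hh φ φ' (Aa ε bar s φ φ F) = Aa ε bar s φ φ (Hh φ φ' F) + (2 : K) • Aa ε bar s φ φ F := by
  simp only [Hh_apply, Aa_apply, map_sub, Derivation.map_smul, h1,
    Dd_Dd φ φ, Dd_Dd φ' φ', if_true, if_neg hne, if_neg (Ne.symm hne)]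
  module

/-- **The main identity.** -/
theorem main_id (hI : Inv ε bar s) (hM : Good ε bar s P H B M) (h1 : bar φ = φ') (h2 : bar φ' = φ)
    (hne : φ ≠ φ') (hφ : φ ∈ H) (hφ' : φ' ∈ H) {F : Pol K κ m} (hF : F ∈ M)
    (hA : ∀ w ∈ H, w ≠ φ → w ≠ φ' → Aa ε bar s φ w F = 0) (hA' : Aa ε bar s φ φ F = 0)
    (b : Fin m) :
    ∑ c, Ee c b (pderiv (φ', c) F) + Hh φ φ' (pderiv (φ', b) F) +
      ((((H.erase φ).erase φ').card : K) + (1 - (ε : K))) • pderiv (φ', b) F = 0 := by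
  set H' := (H.erase φ).erase φ' with hH'
  have hmem : ∀ w, w ∈ H' ↔ w ∈ H ∧ w ≠ φ ∧ w ≠ φ' := by
    intro w
    rw [hH', Finset.mem_erase, Finset.mem_erase]
    tauto
  have hsplit : ∀ f : κ → Pol K κ m, (∀ x, x ∉ H → f x = 0) →
      ∑ x, f x = f φ + (f φ' + ∑ w ∈ H', f w) := by
    intro f hf
    rw [← Finset.sum_subset (Finset.subset_univ H) fun x _ hx => hf x hx,
      ← Finset.add_sum_erase H _ hφ, ← Finset.add_sum_erase (H.erase φ) _
        (Finset.mem_erase.2 ⟨Ne.symm hne, hφ'⟩)]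
  have hz : ∀ x, x ∉ H → ∀ c, pderiv (x, c) F = 0 := fun x hx c =>
    hM.supp F hF (x, c) fun h => hx h.1
  -- the Laplace operators
  have hlap : ∀ c, ∑ w ∈ H', (s w : K) • pderiv (w, b) (pderiv (bar w, c) F) =
      -((s φ : K) • pderiv (φ, b) (pderiv (φ', c) F)) -
        ((ε : K) * (s φ : K)) • pderiv (φ, c) (pderiv (φ', b) F) := by
    intro c
    have h3 := hM.harm F hF b c
    unfold Dl at h3
    rw [hsplit _ fun x hx => by
      rw [hz (bar x) (fun h => hx (by rw [← hI.inv x]; exact hM.barH _ h)) c, map_zero, smul_zero],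
      h1, h2, pd_comm (φ', b) (φ, c), ← h1, hI.sb, h1] at h3
    rw [← sub_eq_zero, ← h3]
    abel
  -- the operators of the Lie algebra
  have hkey : ∀ w ∈ H', ((ε : K) * (s φ : K)) • ((s w : K) • Dd φ (bar w) (pderiv (w, b) F)) -
      Dd w φ' (pderiv (w, b) F) - pderiv (φ', b) F = 0 := by
    intro w hw
    obtain ⟨w1, w2, w3⟩ := (hmem w).1 hw
    have h3 := congrArg (fun G => (s w : K) • pderiv (w, b) G) (hA w w1 w2 w3)
    simp only [Aa_apply, h1, map_sub, Derivation.map_smul, pd_Dd, if_neg w2, if_true, add_zero,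
      map_zero, smul_zero] at h3
    rw [← h3, smul_sub, smul_smul (s w : K) (s w : K), hI.ss, one_smul]
    module
  have hsum := Finset.sum_eq_zero hkey
  rw [Finset.sum_sub_distrib, Finset.sum_sub_distrib, Finset.sum_const, ← Finset.smul_sum] at hsum
  -- the first sum
  have e1 : ∑ w ∈ H', (s w : K) • Dd φ (bar w) (pderiv (w, b) F) =
      -((s φ : K) • ∑ c, X (φ, c) * pderiv (φ, b) (pderiv (φ', c) F)) -
        ((ε : K) * (s φ : K)) • Dd φ φ (pderiv (φ', b) F) := by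
    have h3 : ∀ w ∈ H', (s w : K) • Dd φ (bar w) (pderiv (w, b) F) =
        ∑ c, X (φ, c) * ((s w : K) • pderiv (w, b) (pderiv (bar w, c) F)) := by
      intro w _
      rw [Dd_eq, Finset.smul_sum]
      refine Finset.sum_congr rfl fun c _ => ?_
      rw [pd_comm (bar w, c) (w, b), mul_smul_comm]
    rw [Finset.sum_congr rfl h3, Finset.sum_comm]
    have h4 : ∀ c : Fin m, ∑ w ∈ H', X (φ, c) * ((s w : K) • pderiv (w, b) (pderiv (bar w, c) F)) =
        -((s φ : K) • (X (φ, c) * pderiv (φ, b) (pderiv (φ', c) F))) -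
          ((ε : K) * (s φ : K)) • (X (φ, c) * pderiv (φ, c) (pderiv (φ', b) F)) := by
      intro c
      rw [← Finset.mul_sum, hlap, mul_sub, mul_neg, mul_smul_comm, mul_smul_comm]
    rw [Finset.sum_congr rfl fun c _ => h4 c, Finset.sum_sub_distrib, Finset.sum_neg_distrib,
      ← Finset.smul_sum, ← Finset.smul_sum, Dd_eq]
  -- the second sum
  have e2 : ∑ w ∈ H', Dd w φ' (pderiv (w, b) F) = ∑ c, Ee c b (pderiv (φ', c) F) -
      ∑ c, X (φ, c) * pderiv (φ, b) (pderiv (φ', c) F) - Dd φ' φ' (pderiv (φ', b) F) := by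
    have h3 : ∀ w ∈ H', Dd w φ' (pderiv (w, b) F) =
        ∑ c, X (w, c) * pderiv (w, b) (pderiv (φ', c) F) := by
      intro w _
      rw [Dd_eq]
      refine Finset.sum_congr rfl fun c _ => ?_
      rw [pd_comm (φ', c) (w, b)]
    have h4 : ∀ c : Fin m, Ee c b (pderiv (φ', c) F) = X (φ, c) * pderiv (φ, b) (pderiv (φ', c) F) +
        (X (φ', c) * pderiv (φ', c) (pderiv (φ', b) F) +
          ∑ w ∈ H', X (w, c) * pderiv (w, b) (pderiv (φ', c) F)) := by
      intro c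
      rw [Ee_eq, hsplit _ fun x hx => by
        rw [pd_comm (x, b) (φ', c), hz x hx b, map_zero, mul_zero], pd_comm (φ', b) (φ', c)]
    rw [Finset.sum_congr rfl h3, Finset.sum_comm, Finset.sum_congr rfl fun c _ => h4 c,
      Finset.sum_add_distrib, Finset.sum_add_distrib, Dd_eq φ' φ']
    abel
  -- the operator of weight two
  have e3 : (1 - (ε : K)) • (∑ c, X (φ, c) * pderiv (φ, b) (pderiv (φ', c) F) +
      pderiv (φ', b) F) = 0 := by
    have h3 := congrArg (fun G => (-(s φ : K)) • pderiv (φ, b) G) hA'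
    simp only [Aa_apply, h1, map_sub, Derivation.map_smul, pd_Dd, if_true, map_zero,
      smul_zero] at h3
    simp only [Dd_eq] at h3
    have h4 : ∀ c : Fin m, pderiv (φ', c) (pderiv (φ, b) F) = pderiv (φ, b) (pderiv (φ', c) F) :=
      fun c => pd_comm _ _ F
    simp only [h4] at h3
    rw [← h3, ← sub_smul, smul_smul]
    congr 1
    have h5 := hI.ss (K := K) φ
    linear_combination (-(1 - (ε : K))) * h5
  rw [e1, e2, smul_sub, smul_neg, smul_smul, smul_smul] at hsum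
  have h5 : (ε : K) * (s φ : K) * (s φ : K) = (ε : K) := by
    rw [mul_assoc, hI.ss, mul_one]
  have h6 : (ε : K) * (s φ : K) * ((ε : K) * (s φ : K)) = 1 := by
    have := hI.ss (K := K) φ
    have h7 := hI.ee (K := K)
    linear_combination (ε : K) * (ε : K) * this + h7
  rw [h5, h6, one_smul] at hsum
  rw [Hh_apply, ← neg_eq_zero]
  rw [smul_add] at e3
  have h7 : (H'.card : K) • pderiv (φ', b) F = H'.card • pderiv (φ', b) F :=
    Nat.cast_smul_eq_nsmul K _ _
  rw [add_smul, h7]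
  have h8 : -(∑ c, Ee c b (pderiv (φ', c) F) + (Dd φ φ (pderiv (φ', b) F) -
      Dd φ' φ' (pderiv (φ', b) F)) + (H'.card • pderiv (φ', b) F +
      (1 - (ε : K)) • pderiv (φ', b) F)) =
      (-((ε : K) • ∑ c, X (φ, c) * pderiv (φ, b) (pderiv (φ', c) F)) -
        Dd φ φ (pderiv (φ', b) F) - (∑ c, Ee c b (pderiv (φ', c) F) -
        ∑ c, X (φ, c) * pderiv (φ, b) (pderiv (φ', c) F) - Dd φ' φ' (pderiv (φ', b) F)) -
        H'.card • pderiv (φ', b) F) -
      ((1 - (ε : K)) • ∑ c, X (φ, c) * pderiv (φ, b) (pderiv (φ', c) F) +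
        (1 - (ε : K)) • pderiv (φ', b) F) := by
    module
  rw [h8, hsum, e3, sub_zero]

end step

end

end Pool.Agent.V5helper93.SMP.PT
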