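import Pool.Agent.V5helper93.SMP.PolyB

/-!
# Harmonic polynomials in several vector variables: highest weight vectors
-/

set_option autoImplicit false
set_option linter.unusedSectionVars false
set_option linter.unusedSimpArgs false
set_option linter.unusedVariables false

namespace Pool.Agent.V5helper93.SMP.PT

open MvPolynomial Module

noncomputable section

/-! ### powers of operators -/

section pows

variable {K V : Type} [Field K] [CharZero K] [AddCommGroup V] [Module K V]

theorem pow_left (p : Module.End K V) (n : ℕ) (v : V) : (p ^ (n + 1)) v = p ((p ^ n) v) := by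
  rw [pow_succ']
  rfl

theorem pow_right (p : Module.End K V) (n : ℕ) (v : V) : (p ^ (n + 1)) v = (p ^ n) (p v) := by
  rw [pow_succ]
  rfl

theorem pow_comm' {p T q : Module.End K V} (h : ∀ v, p (T v) = T (p v) + q v)
    (hq : ∀ v, p (q v) = q (p v)) (n : ℕ) (v : V) :
    (p ^ (n + 1)) (T v) = T ((p ^ (n + 1)) v) + ((n : K) + 1) • q ((p ^ n) v) := by
  have hqn : ∀ (n : ℕ) (v : V), (p ^ n) (q v) = q ((p ^ n) v) := by
    intro n
    induction n with
    | zero => intro v; rfl
    | succ n ih => intro v; rw [pow_left, ih, hq, ← pow_left]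
  induction n generalizing v with
  | zero =>
    rw [zero_add, pow_one, pow_zero, h, Nat.cast_zero, zero_add, one_smul]
    rfl
  | succ n ih =>
    rw [pow_right, h, map_add, ih, hqn, ← pow_right, ← pow_right, add_assoc]
    congr 1
    push_cast
    module

theorem pow_comm0 {p T : Module.End K V} (h : ∀ v, p (T v) = T (p v)) (n : ℕ) (v : V) :
    (p ^ n) (T v) = T ((p ^ n) v) := by
  induction n with
  | zero => rfl
  | succ n ih => rw [pow_left, ih, h, ← pow_left]

end pows

section nilp

variable {K : Type} [Field K] [CharZero K] {I : Type} [DecidableEq I]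

/-- the derivative as an operator -/
def pdl (i : I) : Module.End K (MvPolynomial I K) := (pderiv i).toLinearMap

theorem pdl_apply (i : I) (F : MvPolynomial I K) : pdl i F = pderiv i F := rfl

theorem pd_nilp (i : I) (F : MvPolynomial I K) : ∃ n : ℕ, (pdl (K := K) i ^ n) F = 0 := by
  induction F using MvPolynomial.induction_on with
  | C a =>
    refine ⟨1, ?_⟩
    rw [pow_one, pdl_apply]
    exact pderiv_C
  | add p q hp hq =>
    obtain ⟨n, hn⟩ := hp
    obtain ⟨n', hn'⟩ := hq
    refine ⟨n + n', ?_⟩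
    rw [map_add, pow_add]
    rw [Module.End.mul_apply, Module.End.mul_apply, hn', map_zero, add_zero]
    rw [← Module.End.mul_apply, ← pow_add, add_comm, pow_add, Module.End.mul_apply, hn, map_zero]
  | mul_X p j hp =>
    obtain ⟨n, hn⟩ := hp
    refine ⟨n + 1, ?_⟩
    have h1 := pow_comm' (p := pdl (K := K) i) (T := LinearMap.mulLeft K (X j))
      (q := if j = i then 1 else 0) (fun v => by
        rw [LinearMap.mulLeft_apply, LinearMap.mulLeft_apply, pdl_apply, pdl_apply,
          Derivation.leibniz, pderiv_X, Pi.single_apply, smul_eq_mul, smul_eq_mul]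
        congr 1
        by_cases h : j = i
        · rw [if_pos h, if_pos h, mul_one]
          rfl
        · rw [if_neg h, if_neg h, mul_zero]
          rfl) (fun v => by
        split_ifs
        · rfl
        · rw [LinearMap.zero_apply, LinearMap.zero_apply, map_zero]) n p
    rw [LinearMap.mulLeft_apply, mul_comm] at h1
    rw [h1, hn, pow_succ', Module.End.mul_apply, hn, map_zero, map_zero, map_zero, smul_zero,
      add_zero]

/-- the last nonzero derivative -/
theorem exists_last (i : I) (F : MvPolynomial I K) (hF : F ≠ 0) :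
    ∃ D : ℕ, (pdl (K := K) i ^ D) F ≠ 0 ∧ (pdl (K := K) i ^ (D + 1)) F = 0 := by
  classical
  have h := pd_nilp i F
  have h1 := Nat.find_spec h
  have h2 : Nat.find h ≠ 0 := by
    intro h0
    rw [h0, pow_zero] at h1
    exact hF h1
  refine ⟨Nat.find h - 1, Nat.find_min h (by omega), ?_⟩
  rwa [Nat.sub_add_cancel (Nat.one_le_iff_ne_zero.2 h2)]

end nilp

variable {K : Type} [Field K] [CharZero K] {κ : Type} [Fintype κ] [DecidableEq κ] {m : ℕ}

section step

variable {ε : ℤ} {bar : κ → κ} {s : κ → ℤ} {P : κ → Prop} [DecidablePred P] {H : Finset κ}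
  {B : Finset (Fin m)} {M : Submodule K (Pol K κ m)} {φ φ' : κ}

/-! ### weights -/

theorem Hh_int (φ φ' : κ) (F : Pol K κ m) (hF : F ≠ 0) (r : K) (hr : Hh φ φ' F = r • F) :
    ∃ z : ℤ, r = z := by
  obtain ⟨ν, -, h⟩ := int_of_diag (fun F => Hh φ φ' F)
    (fun ν : κ × Fin m →₀ ℕ => ((∑ c, ν (φ, c) : ℕ) : ℤ) - ((∑ c, ν (φ', c) : ℕ) : ℤ))
    (fun F ν => by
      rw [Hh_apply, coeff_sub, coeff_Dd, coeff_Dd]
      push_cast
      ring) F hF r hr
  exact ⟨_, h⟩

/-! ### the trace -/

theorem comm_one (hI : Inv ε bar s) (h1 : bar φ = φ') (h2 : bar φ' = φ) (hne : φ ≠ φ') {w : κ}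
    (hw1 : w ≠ φ) (hw2 : w ≠ φ') (hw3 : bar w ≠ φ) (hw4 : bar w ≠ φ') (F : Pol K κ m) :
    Aa ε bar s φ w (Aa ε bar s φ' (bar w) F) - Aa ε bar s φ' (bar w) (Aa ε bar s φ w F) =
      (-(((ε : K) * (s φ : K)) * ((ε : K) * (s w : K)))) •
        (Hh φ φ' F + Dd w w F - Dd (bar w) (bar w) F) := by
  have h3 : (s φ' : K) = (ε : K) * (s φ : K) := by rw [← h1, hI.sb]
  simp only [Hh_apply, Aa_apply, map_sub, Derivation.map_smul, h1, h2, hI.inv,
    Dd_Dd φ (bar w), Dd_Dd w φ', if_true, if_neg hne, if_neg (Ne.symm hne), if_neg hw1, if_neg hw2,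
    if_neg hw3, if_neg hw4, if_neg (Ne.symm hw1), if_neg (Ne.symm hw2), if_neg (Ne.symm hw3),
    if_neg (Ne.symm hw4), hI.sb w, h3]
  module

theorem comm_two (hI : Inv ε bar s) (h1 : bar φ = φ') (h2 : bar φ' = φ)
    (F : Pol K κ m) :
    Aa ε bar s φ φ (Aa ε bar s φ' φ' F) - Aa ε bar s φ' φ' (Aa ε bar s φ φ F) =
      ((ε : K) * (s φ : K) - (s φ : K)) • ((ε : K) * ((ε : K) * (s φ : K)) -
        (ε : K) * (s φ : K)) • Hh φ φ' F := by
  simp only [Hh_apply, Aa_apply, map_sub, Derivation.map_smul, h1, h2, hI.inv,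
    Dd_Dd φ φ', if_true]
  have h3 : (s φ' : K) = (ε : K) * (s φ : K) := by rw [← h1, hI.sb]
  rw [h3]
  module

end step

end

end Pool.Agent.V5helper93.SMP.PT
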