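import Pool.Agent.V5helper93.SMP.PolyC

/-!
# Harmonic polynomials in several vector variables: the induction
-/

set_option autoImplicit false
set_option linter.unusedSectionVars false
set_option linter.unusedSimpArgs false
set_option linter.unusedVariables false

namespace Pool.Agent.V5helper93.SMP.PT

open MvPolynomial Module

noncomputable section

variable {K : Type} [Field K] [CharZero K] [IsAlgClosed K] {κ : Type} [Fintype κ]
  [DecidableEq κ] {m : ℕ}
  {ε : ℤ} {bar : κ → κ} {s : κ → ℤ} {P : κ → Prop} [DecidablePred P] {H : Finset κ}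
  {B : Finset (Fin m)} {M : Submodule K (Pol K κ m)} {φ φ' : κ}

theorem eps_ne (hI : Inv ε bar s) : (ε : K) ≠ 0 := by
  intro h0
  have := hI.ee (K := K)
  rw [h0, mul_zero] at this
  exact zero_ne_one this

theorem s_ne (hI : Inv ε bar s) (x : κ) : (s x : K) ≠ 0 := by
  intro h0
  have := hI.ss (K := K) x
  rw [h0, mul_zero] at this
  exact zero_ne_one this

theorem trace_comm {V : Type} [AddCommGroup V] [Module K V] (S T : Module.End K V) :
    LinearMap.trace K V (S * T - T * S) = 0 := by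
  rw [map_sub, LinearMap.trace_mul_comm K S T, sub_self]

/-- The trace of the weight operator is zero. -/
theorem trace_zero (hI : Inv ε bar s) (hM : Good ε bar s P H B M) [FiniteDimensional K M]
    (h1 : bar φ = φ') (h2 : bar φ' = φ) (hne : φ ≠ φ') (hφ : φ ∈ H) (hφ' : φ' ∈ H)
    (hcard : ε = 1 → 2 < H.card) :
    LinearMap.trace K M ((Hh φ φ').restrict (Hh_mem hI hM h1 h2 hφ hφ')) = 0 := by
  set T := (Hh φ φ').restrict (Hh_mem hI hM h1 h2 hφ hφ') with hT
  rcases hI.eps with he | he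
  · -- a third vector
    obtain ⟨w, hwH, hw⟩ : ∃ w ∈ H, w ∉ ({φ, φ'} : Finset κ) := by
      refine Finset.exists_mem_notMem_of_card_lt_card ?_
      rw [Finset.card_pair hne]
      exact hcard he
    have hw1 : w ≠ φ := fun h => hw (by simp [h])
    have hw2 : w ≠ φ' := fun h => hw (by simp [h])
    have hw3 : bar w ≠ φ := fun h => hw2 (by rw [← hI.inv w, h, h1])
    have hw4 : bar w ≠ φ' := fun h => hw1 (by rw [← hI.inv w, h, h2])
    have hbw := hM.barH w hwH
    let T1 : Module.End K M := (Aa ε bar s φ w).restrict fun F hF => hM.lie F hF φ hφ w hwH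
    let T2 : Module.End K M := (Aa ε bar s φ' (bar w)).restrict
      fun F hF => hM.lie F hF φ' hφ' _ hbw
    let T3 : Module.End K M := (Aa ε bar s φ (bar w)).restrict fun F hF => hM.lie F hF φ hφ _ hbw
    let T4 : Module.End K M := (Aa ε bar s φ' w).restrict fun F hF => hM.lie F hF φ' hφ' _ hwH
    have hrel : T1 * T2 - T2 * T1 + (T3 * T4 - T4 * T3) = (-(2 * (s φ : K) * (s w : K))) • T := by
      refine LinearMap.ext fun F => Subtype.ext ?_
      change Aa ε bar s φ w (Aa ε bar s φ' (bar w) F.1) -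
        Aa ε bar s φ' (bar w) (Aa ε bar s φ w F.1) +
        (Aa ε bar s φ (bar w) (Aa ε bar s φ' w F.1) -
        Aa ε bar s φ' w (Aa ε bar s φ (bar w) F.1)) = (-(2 * (s φ : K) * (s w : K))) • Hh φ φ' F.1
      have e1 := comm_one (K := K) (m := m) hI h1 h2 hne hw1 hw2 hw3 hw4 F.1
      have e2 := comm_one (K := K) (m := m) hI h1 h2 hne (w := bar w) hw3 hw4 (by rwa [hI.inv])
        (by rwa [hI.inv]) F.1
      rw [hI.inv] at e2
      rw [e1, e2, hI.sb, he]
      push_cast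
      module
    have htr := congrArg (LinearMap.trace K M) hrel
    rw [map_add, trace_comm, trace_comm, add_zero, map_smul, smul_eq_mul] at htr
    refine (mul_eq_zero.1 htr.symm).resolve_left ?_
    exact neg_ne_zero.2 (mul_ne_zero (mul_ne_zero two_ne_zero (s_ne hI φ)) (s_ne hI w))
  · let T1 : Module.End K M := (Aa ε bar s φ φ).restrict fun F hF => hM.lie F hF φ hφ φ hφ
    let T2 : Module.End K M := (Aa ε bar s φ' φ').restrict
      fun F hF => hM.lie F hF φ' hφ' φ' hφ'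
    have hrel : T1 * T2 - T2 * T1 = (-(4 : K)) • T := by
      refine LinearMap.ext fun F => Subtype.ext ?_
      change Aa ε bar s φ φ (Aa ε bar s φ' φ' F.1) -
        Aa ε bar s φ' φ' (Aa ε bar s φ φ F.1) = (-(4 : K)) • Hh φ φ' F.1
      rw [comm_two hI h1 h2, smul_smul, he]
      congr 1
      push_cast
      linear_combination (-4 : K) * hI.ss (K := K) φ
    have htr := congrArg (LinearMap.trace K M) hrel
    rw [trace_comm, map_smul, smul_eq_mul] at htr
    refine (mul_eq_zero.1 htr.symm).resolve_left ?_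
    exact neg_ne_zero.2 (by norm_num)

/-- the highest weights -/
theorem exists_weight (hI : Inv ε bar s) (hM : Good ε bar s P H B M) [FiniteDimensional K M]
    (hne0 : M ≠ ⊥) (h1 : bar φ = φ') (h2 : bar φ' = φ) (hne : φ ≠ φ') (hφ : φ ∈ H)
    (hφ' : φ' ∈ H) (hcard : ε = 1 → 2 < H.card) :
    ∃ μ : ℕ, (∃ F ∈ M, F ≠ 0 ∧ Hh φ φ' F = (μ : K) • F) ∧
      ∀ ν : ℤ, ∀ F ∈ M, F ≠ 0 → Hh φ φ' F = (ν : K) • F → ν ≤ μ := by
  obtain ⟨μ, hμ, hmax⟩ := exists_top M hne0 (Hh φ φ') (Hh_mem hI hM h1 h2 hφ hφ')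
    fun F _ h0 r hr => Hh_int φ φ' F h0 r hr
  have h3 := top_nonneg M hne0 (Hh φ φ') (Hh_mem hI hM h1 h2 hφ hφ')
    (trace_zero hI hM h1 h2 hne hφ hφ' hcard) (fun F _ h0 r hr => Hh_int φ φ' F h0 r hr) μ hmax
  obtain ⟨n, rfl⟩ := Int.eq_ofNat_of_zero_le h3
  refine ⟨n, ?_, fun ν F hF h0 hν => hmax ν F hF h0 hν⟩
  obtain ⟨F, hF, h0, hr⟩ := hμ
  exact ⟨F, hF, h0, by rw [hr]; push_cast; rfl⟩

/-- the operator which orders the vectors -/
def Tb : Module.End K (Pol K κ m) := -∑ b : Fin m, ((b : ℕ) : K) • (Ee b b).toLinearMap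

theorem Tb_apply (F : Pol K κ m) : Tb F = -∑ b : Fin m, ((b : ℕ) : K) • Ee b b F := by
  unfold Tb
  rw [LinearMap.neg_apply, LinearMap.sum_apply]
  rfl

theorem Tb_int (F : Pol K κ m) (hF : F ≠ 0) (r : K) (hr : Tb F = r • F) :
    ∃ z : ℤ, r = z := by
  obtain ⟨ν, -, h⟩ := int_of_diag (fun F => Tb F)
    (fun ν : κ × Fin m →₀ ℕ => -∑ b : Fin m, ((b : ℕ) : ℤ) * ((∑ x, ν (x, b) : ℕ) : ℤ))
    (fun F ν => by
      rw [Tb_apply, coeff_neg, coeff_sum]
      simp only [coeff_smul, coeff_Ee, smul_eq_mul]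
      push_cast
      rw [neg_mul, Finset.sum_mul]
      congr 1
      refine Finset.sum_congr rfl fun b _ => ?_
      ring) F hF r hr
  exact ⟨_, h⟩

theorem Tb_Ee (c b : Fin m) (F : Pol K κ m) :
    Tb (Ee c b F) = Ee c b (Tb F) + (((b : ℕ) : K) - ((c : ℕ) : K)) • Ee c b F := by
  rw [Tb_apply, Tb_apply, map_neg, map_sum]
  have h1 : ∀ a : Fin m, ((a : ℕ) : K) • Ee a a (Ee c b F) =
      Ee c b (((a : ℕ) : K) • Ee a a F) + ((if a = c then ((c : ℕ) : K) • Ee c b F else 0) -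
        (if a = b then ((b : ℕ) : K) • Ee c b F else 0)) := by
    intro a
    rw [Ee_Ee, Derivation.map_smul, smul_add]
    congr 1
    by_cases hac : a = c
    · subst hac
      by_cases hab : a = b
      · subst hab
        simp
      · rw [if_pos rfl, if_pos rfl, if_neg hab, if_neg (Ne.symm hab), sub_zero, sub_zero]
    · rw [if_neg hac, if_neg hac]
      by_cases hab : a = b
      · subst hab
        simp
      · rw [if_neg hab, if_neg (Ne.symm hab), sub_zero, smul_zero]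
  rw [Finset.sum_congr rfl fun a _ => h1 a, Finset.sum_add_distrib, Finset.sum_sub_distrib,
    Finset.sum_ite_eq', Finset.sum_ite_eq', if_pos (Finset.mem_univ _),
    if_pos (Finset.mem_univ _)]
  module

theorem Ee_out (hM : Good ε bar s P H B M) {b c : Fin m} (hc : c ∉ B) (F : Pol K κ m)
    (hF : F ∈ M) : Ee b c F = 0 := by
  rw [Ee_eq]
  refine Finset.sum_eq_zero fun x _ => ?_
  rw [hM.supp F hF (x, c) fun h => hc h.2, mul_zero]

/-- the space of the vectors of highest weight -/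
def HW (φ φ' : κ) (μ : ℕ) (B : Finset (Fin m)) (M : Submodule K (Pol K κ m)) :
    Submodule K (Pol K κ m) where
  carrier := {F | F ∈ M ∧ Hh φ φ' F = (μ : K) • F ∧ ∀ b ∈ B, ∀ c ∈ B, c < b → Ee c b F = 0}
  zero_mem' := ⟨M.zero_mem, by rw [map_zero, smul_zero], fun b _ c _ _ => map_zero _⟩
  add_mem' := fun {F G} hF hG => ⟨M.add_mem hF.1 hG.1, by rw [map_add, hF.2.1, hG.2.1, smul_add],
    fun b hb c hc h => by rw [map_add, hF.2.2 b hb c hc h, hG.2.2 b hb c hc h, add_zero]⟩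
  smul_mem' := fun r F hF => ⟨M.smul_mem r hF.1, by rw [map_smul, hF.2.1, smul_comm],
    fun b hb c hc h => by rw [Derivation.map_smul, hF.2.2 b hb c hc h, smul_zero]⟩

theorem mem_HW {φ φ' : κ} {μ : ℕ} {F : Pol K κ m} : F ∈ HW φ φ' μ B M ↔
    F ∈ M ∧ Hh φ φ' F = (μ : K) • F ∧ ∀ b ∈ B, ∀ c ∈ B, c < b → Ee c b F = 0 := Iff.rfl

theorem exists_HW (hI : Inv ε bar s) (hM : Good ε bar s P H B M) [FiniteDimensional K M] {μ : ℕ}
    (hμ : ∃ F ∈ M, F ≠ 0 ∧ Hh φ φ' F = (μ : K) • F) : HW φ φ' μ B M ≠ ⊥ := by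
  let Mμ : Submodule K (Pol K κ m) := M ⊓ LinearMap.ker (Hh φ φ' - (μ : K) • LinearMap.id)
  have hmem : ∀ F, F ∈ Mμ ↔ F ∈ M ∧ Hh φ φ' F = (μ : K) • F := by
    intro F
    change F ∈ M ∧ F ∈ LinearMap.ker (Hh φ φ' - (μ : K) • LinearMap.id) ↔ _
    rw [LinearMap.mem_ker, LinearMap.sub_apply, sub_eq_zero]
    rfl
  have hfd : FiniteDimensional K Mμ := Submodule.finiteDimensional_inf_left _ _
  have hEe : ∀ F ∈ Mμ, ∀ b ∈ B, ∀ c ∈ B, Ee b c F ∈ Mμ := by
    intro F hF b hb c hc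
    obtain ⟨h3, h4⟩ := (hmem F).1 hF
    exact (hmem _).2 ⟨hM.gl F h3 b hb c hc, by rw [Hh_Ee, h4, Derivation.map_smul]⟩
  obtain ⟨F₁, hF₁, h01, hr1⟩ := hμ
  have hne : Mμ ≠ ⊥ := by
    intro h0
    have h3 : F₁ ∈ Mμ := (hmem _).2 ⟨hF₁, hr1⟩
    rw [h0] at h3
    exact h01 ((Submodule.mem_bot K).1 h3)
  obtain ⟨l, ⟨F, hF, h0, hl⟩, hmax⟩ := exists_top Mμ hne Tb (fun F hF => by
    rw [Tb_apply]
    refine Mμ.neg_mem (Mμ.sum_mem fun b _ => Mμ.smul_mem _ ?_)
    by_cases hb : b ∈ B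
    · exact hEe F hF b hb b hb
    · rw [Ee_out hM hb F ((hmem F).1 hF).1]
      exact Mμ.zero_mem) (fun F _ h0 r hr => Tb_int F h0 r hr)
  intro hbot
  apply h0
  have h3 : F ∈ HW φ φ' μ B M := by
    refine ⟨((hmem F).1 hF).1, ((hmem F).1 hF).2, fun b hb c hc hcb => ?_⟩
    by_contra hcon
    have h4 : Tb (Ee c b F) = ((l + ((b : ℕ) - (c : ℕ) : ℤ) : ℤ) : K) • Ee c b F := by
      rw [Tb_Ee, hl, Derivation.map_smul]
      push_cast
      module
    have h5 := hmax _ _ (hEe F hF c hc b hb) hcon h4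
    have h6 : (c : ℕ) < (b : ℕ) := hcb
    omega
  rw [hbot] at h3
  exact (Submodule.mem_bot K).1 h3

end

end Pool.Agent.V5helper93.SMP.PT
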