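import Pool.Agent.V5helper93.SMP.PolyD

/-!
# Harmonic polynomials in several vector variables: the main theorem
-/

set_option autoImplicit false
set_option linter.unusedSectionVars false
set_option linter.unusedSimpArgs false
set_option linter.unusedVariables false

namespace Pool.Agent.V5helper93.SMP.PT

open MvPolynomial Module

noncomputable section

variable {K : Type} [Field K] [CharZero K] [IsAlgClosed K] {κ : Type} [Fintype κ]
  [DecidableEq κ] {m : ℕ}
  {ε : ℤ} {bar : κ → κ} {s : κ → ℤ} {P : κ → Prop} [DecidablePred P] {H : Finset κ}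
  {B : Finset (Fin m)} {M : Submodule K (Pol K κ m)} {φ φ' : κ}

theorem pd_Hh (hne : φ ≠ φ') (b : Fin m) (F : Pol K κ m) :
    pderiv (φ', b) (Hh φ φ' F) = Hh φ φ' (pderiv (φ', b) F) - pderiv (φ', b) F := by
  rw [Hh_apply, Hh_apply, map_sub, pd_Dd, pd_Dd, if_neg (Ne.symm hne), if_pos rfl]
  ring

/-- The vectors of highest weight do not contain `φ'`. -/
theorem claimA (hI : Inv ε bar s) (hM : Good ε bar s P H B M) [FiniteDimensional K M]
    (h1 : bar φ = φ') (h2 : bar φ' = φ) (hne : φ ≠ φ') (hφ : φ ∈ H) (hφ' : φ' ∈ H)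
    {μ : ℕ} (hmax : ∀ ν : ℤ, ∀ F ∈ M, F ≠ 0 → Hh φ φ' F = (ν : K) • F → ν ≤ μ)
    (hcard : (B.card : ℤ) < H.card - ε) (b : Fin m) :
    b ∈ B → ∀ F ∈ HW φ φ' μ B M, pderiv (φ', b) F = 0 := by
  have hfd : FiniteDimensional K (HW φ φ' μ B M) :=
    Submodule.finiteDimensional_of_le (S₂ := M) fun F hF => hF.1
  have hbar : ∀ w, w ≠ φ → w ≠ φ' → bar w ≠ φ ∧ bar w ≠ φ' := by
    intro w hw1 hw2
    exact ⟨fun h => hw2 (by rw [← hI.inv w, h, h1]), fun h => hw1 (by rw [← hI.inv w, h, h2])⟩
  -- raising operators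
  have hA : ∀ F ∈ HW φ φ' μ B M, ∀ w ∈ H, w ≠ φ → w ≠ φ' → Aa ε bar s φ w F = 0 := by
    intro F hF w hw hw1 hw2
    by_contra hcon
    have h3 := hmax (μ + 1) _ (hM.lie F hF.1 φ hφ w hw) hcon (by
      rw [Hh_raise h1 hne hw1 hw2 (hbar w hw1 hw2).1 (hbar w hw1 hw2).2, hF.2.1, map_smul]
      push_cast
      module)
    omega
  have hA' : ∀ F ∈ HW φ φ' μ B M, Aa ε bar s φ φ F = 0 := by
    intro F hF
    by_contra hcon
    have h3 := hmax (μ + 2) _ (hM.lie F hF.1 φ hφ φ hφ) hcon (by
      rw [Hh_raise2 h1 hne, hF.2.1, map_smul]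
      push_cast
      module)
    omega
  -- stability under the diagonal operators
  have hst : ∀ b ∈ B, ∀ F ∈ HW φ φ' μ B M, Ee b b F ∈ HW φ φ' μ B M := by
    intro b hb F hF
    refine ⟨hM.gl F hF.1 b hb b hb, by rw [Hh_Ee, hF.2.1, Derivation.map_smul],
      fun d hd c hc hcd => ?_⟩
    rw [Ee_Ee, hF.2.2 d hd c hc hcd, map_zero, zero_add]
    by_cases hdb : d = b
    · subst hdb
      rw [if_pos rfl, hF.2.2 d hd c hc hcd, if_neg (ne_of_gt hcd), sub_zero]
    · rw [if_neg hdb, zero_sub, neg_eq_zero]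
      by_cases hbc : b = c
      · rw [if_pos hbc]
        subst hbc
        exact hF.2.2 d hd b hb hcd
      · rw [if_neg hbc]
  induction b using WellFoundedGT.induction with
  | _ b ih =>
    intro hb
    obtain ⟨lo, hlo⟩ : ∃ lo : Finset (Fin m), lo = B.filter fun c => c < b := ⟨_, rfl⟩
    -- the constant
    obtain ⟨a, ha, ha'⟩ : ∃ a : ℕ, 0 < a ∧ (a : ℤ) =
        ((H.erase φ).erase φ').card + (1 - ε) + μ - lo.card := by
      have h3 : ((H.erase φ).erase φ').card + 2 = H.card := by
        rw [Finset.card_erase_of_mem (Finset.mem_erase.2 ⟨Ne.symm hne, hφ'⟩),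
          Finset.card_erase_of_mem hφ]
        have h4 : 1 < H.card := Finset.one_lt_card.2 ⟨φ, hφ, φ', hφ', hne⟩
        omega
      have h4 : lo.card + 1 ≤ B.card := by
        rw [Nat.succ_le_iff]
        apply Finset.card_lt_card
        rw [hlo, Finset.ssubset_iff_of_subset (Finset.filter_subset _ _)]
        exact ⟨b, hb, fun h => lt_irrefl _ (Finset.mem_filter.1 h).2⟩
      have h5 : 0 < (((H.erase φ).erase φ').card : ℤ) + (1 - ε) + μ - lo.card := by omega
      obtain ⟨a, ha⟩ := Int.eq_ofNat_of_zero_le h5.le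
      exact ⟨a, by omega, ha.symm⟩
    -- the identity
    have hid : ∀ F ∈ HW φ φ' μ B M, pderiv (φ', b) (Ee b b F + (a : K) • F) = 0 := by
      intro F hF
      have h3 := main_id hI hM h1 h2 hne hφ hφ' hF.1 (hA F hF) (hA' F hF) b
      have h4 : ∀ c : Fin m, Ee c b (pderiv (φ', c) F) =
          (if c = b then pderiv (φ', b) (Ee b b F) - pderiv (φ', b) F else 0) -
            (if c ∈ lo then pderiv (φ', b) F else 0) := by
        intro c
        have hmlo : c ∈ lo ↔ c ∈ B ∧ c < b := by rw [hlo, Finset.mem_filter]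
        rcases lt_trichotomy c b with hcb | hcb | hcb
        · by_cases hc : c ∈ B
          · have h5 := pd_Ee (φ', c) c b F
            rw [hF.2.2 b hb c hc hcb, map_zero, if_pos rfl] at h5
            rw [if_neg (ne_of_lt hcb), if_pos (hmlo.2 ⟨hc, hcb⟩), zero_sub]
            exact eq_neg_of_add_eq_zero_left h5.symm
          · rw [hM.supp F hF.1 (φ', c) fun h => hc h.2, map_zero, if_neg (ne_of_lt hcb),
              if_neg fun h => hc (hmlo.1 h).1, sub_zero]
        · subst hcb
          rw [if_pos rfl, if_neg fun h => lt_irrefl _ (hmlo.1 h).2, sub_zero, pd_Ee, if_pos rfl]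
          ring
        · rw [if_neg (ne_of_gt hcb), if_neg fun h => lt_asymm hcb (hmlo.1 h).2, sub_zero]
          by_cases hc : c ∈ B
          · rw [ih c hcb hc F hF, map_zero]
          · rw [hM.supp F hF.1 (φ', c) fun h => hc h.2, map_zero]
      rw [Finset.sum_congr rfl fun c _ => h4 c, Finset.sum_sub_distrib, Finset.sum_ite_eq',
        if_pos (Finset.mem_univ _), Finset.sum_ite_mem, Finset.univ_inter, Finset.sum_const] at h3
      have h5 := pd_Hh hne b F
      rw [hF.2.1, Derivation.map_smul] at h5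
      have h6 : Hh φ φ' (pderiv (φ', b) F) = (μ : K) • pderiv (φ', b) F + pderiv (φ', b) F := by
        rw [h5]
        ring
      rw [h6] at h3
      have h7 : (a : K) = (((H.erase φ).erase φ').card : K) + (1 - (ε : K)) + μ - lo.card := by
        have h8 := congrArg (fun z : ℤ => (z : K)) ha'
        push_cast at h8
        exact h8
      rw [map_add, Derivation.map_smul, h7, ← h3, ← Nat.cast_smul_eq_nsmul K]
      module
    -- the operator is surjective
    let T : Module.End K (Pol K κ m) := (Ee b b).toLinearMap + (a : K) • LinearMap.id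
    have hT : ∀ F ∈ HW φ φ' μ B M, T F ∈ HW φ φ' μ B M := fun F hF =>
      Submodule.add_mem _ (hst b hb F hF) (Submodule.smul_mem _ _ hF)
    have hinj : Function.Injective (T.restrict hT) := by
      rw [← LinearMap.ker_eq_bot, eq_bot_iff]
      rintro ⟨F, hF⟩ h0
      have h3 : Ee b b F + (a : K) • F = 0 := congrArg Subtype.val h0
      by_contra hcon
      have hF0 : F ≠ 0 := fun h => hcon ((Submodule.mem_bot K).2 (Subtype.ext h))
      obtain ⟨ν, -, h4⟩ := int_of_diag (fun F => Ee b b F)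
        (fun ν : κ × Fin m →₀ ℕ => ((∑ x, ν (x, b) : ℕ) : ℤ)) (fun F ν => by
          rw [coeff_Ee]
          push_cast
          rfl) F hF0 (-(a : K)) (by
          rw [neg_smul]
          exact eq_neg_of_add_eq_zero_left h3)
      have h5 : -(a : ℤ) = ((∑ x, ν (x, b) : ℕ) : ℤ) := by
        have h6 : ((-(a : ℤ) : ℤ) : K) = (((∑ x, ν (x, b) : ℕ) : ℤ) : K) := by
          rw [← h4]
          push_cast
          rfl
        exact_mod_cast h6
      have h6 : (0 : ℤ) ≤ ((∑ x, ν (x, b) : ℕ) : ℤ) := Int.natCast_nonneg _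
      omega
    intro F hF
    obtain ⟨⟨G, hG⟩, hGF⟩ := (LinearMap.injective_iff_surjective.1 hinj) ⟨F, hF⟩
    have h3 : Ee b b G + (a : K) • G = F := congrArg Subtype.val hGF
    rw [← h3]
    exact hid G hG

end

end Pool.Agent.V5helper93.SMP.PT
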