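import Pool.Agent.V5helper93.SMP.PolyE

/-!
# Harmonic polynomials in several vector variables: the induction
-/

set_option autoImplicit false
set_option linter.unusedSectionVars false
set_option linter.unusedSimpArgs false
set_option linter.unusedVariables false

namespace Pool.Agent.V5helper93.SMP.PT

open MvPolynomial Module

noncomputable section

variable {K : Type} [Field K] [CharZero K] [IsAlgClosed K] {κ : Type} [Fintype κ]
  [DecidableEq κ] {m : ℕ}
  {ε : ℤ} {bar : κ → κ} {s : κ → ℤ} {P : κ → Prop} [DecidablePred P] {H : Finset κ}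
  {B : Finset (Fin m)} {M : Submodule K (Pol K κ m)} {φ φ' : κ}

/-- the space of the polynomials which are used in the induction -/
def MA (φ φ' : κ) (μ : ℕ) (b₁ : Fin m) (B : Finset (Fin m)) (M : Submodule K (Pol K κ m)) :
    Submodule K (Pol K κ m) where
  carrier := {F | F ∈ M ∧ Hh φ φ' F = (μ : K) • F ∧ (∀ c ∈ B, pderiv (φ', c) F = 0) ∧
    ∀ c ∈ B, c ≠ b₁ → Ee b₁ c F = 0}
  zero_mem' := ⟨M.zero_mem, by rw [map_zero, smul_zero], fun b _ => map_zero _,
    fun b _ _ => map_zero _⟩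
  add_mem' := fun {F G} hF hG => ⟨M.add_mem hF.1 hG.1, by rw [map_add, hF.2.1, hG.2.1, smul_add],
    fun b hb => by rw [map_add, hF.2.2.1 b hb, hG.2.2.1 b hb, add_zero],
    fun b hb h => by rw [map_add, hF.2.2.2 b hb h, hG.2.2.2 b hb h, add_zero]⟩
  smul_mem' := fun r F hF => ⟨M.smul_mem r hF.1, by rw [map_smul, hF.2.1, smul_comm],
    fun b hb => by rw [Derivation.map_smul, hF.2.2.1 b hb, smul_zero],
    fun b hb h => by rw [Derivation.map_smul, hF.2.2.2 b hb h, smul_zero]⟩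

theorem mem_MA {φ φ' : κ} {μ : ℕ} {b₁ : Fin m} {F : Pol K κ m} : F ∈ MA φ φ' μ b₁ B M ↔
    F ∈ M ∧ Hh φ φ' F = (μ : K) • F ∧ (∀ c ∈ B, pderiv (φ', c) F = 0) ∧
    ∀ c ∈ B, c ≠ b₁ → Ee b₁ c F = 0 := Iff.rfl

theorem rs_X (i : κ × Fin m) : rs (K := K) P (X i) = if P i.1 then X i else 0 := aeval_X _ _

theorem rs_pd {φ : κ} (hφ : P φ) (b : Fin m) (F : Pol K κ m) :
    rs P (pderiv (φ, b) F) = pderiv (φ, b) (rs P F) := by
  induction F using MvPolynomial.induction_on with
  | C a =>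
    have h1 : rs P (C a : Pol K κ m) = C a := (rs P : Pol K κ m →ₐ[K] Pol K κ m).commutes a
    rw [h1, pderiv_C, map_zero]
  | add p q hp hq => rw [map_add, map_add, hp, hq, map_add, map_add]
  | mul_X p j hp =>
    rw [Derivation.leibniz, map_mul, Derivation.leibniz, smul_eq_mul, smul_eq_mul, map_add,
      map_mul, map_mul, hp, smul_eq_mul, smul_eq_mul, rs_X, pd_X]
    congr 2
    by_cases hj : j = (φ, b)
    · subst hj
      rw [if_pos rfl, if_pos hφ, map_one, pd_X, if_pos rfl]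
    · rw [if_neg hj, map_zero]
      split_ifs with h
      · rw [pd_X, if_neg hj]
      · rw [map_zero]

theorem Dl_pd (b c : Fin m) (i : κ × Fin m) (F : Pol K κ m) :
    Dl bar s b c (pderiv i F) = pderiv i (Dl bar s b c F) := by
  unfold Dl
  rw [map_sum]
  refine Finset.sum_congr rfl fun x _ => ?_
  rw [Derivation.map_smul, pd_comm i (x, b), pd_comm i (bar x, c)]

theorem Dl_pow (b c : Fin m) (i : κ × Fin m) (n : ℕ) (F : Pol K κ m) :
    Dl bar s b c ((pdl (K := K) i ^ n) F) = (pdl (K := K) i ^ n) (Dl bar s b c F) := by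
  induction n with
  | zero => rfl
  | succ n ih => rw [pow_left, pdl_apply, Dl_pd, ih, pow_left, pdl_apply]

theorem rs_pow {φ : κ} (hφ : P φ) (b : Fin m) (n : ℕ) (F : Pol K κ m) :
    rs P ((pdl (K := K) (φ, b) ^ n) F) = (pdl (K := K) (φ, b) ^ n) (rs P F) := by
  induction n with
  | zero => rfl
  | succ n ih => rw [pow_left, pdl_apply, rs_pd hφ, ih, pow_left, pdl_apply]

theorem pd_pow (i j : κ × Fin m) (n : ℕ) (F : Pol K κ m) :
    pderiv j ((pdl (K := K) i ^ n) F) = (pdl (K := K) i ^ n) (pderiv j F) := by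
  have h := pow_comm0 (p := pdl (K := K) i) (T := pdl (K := K) j) (fun v => pd_comm i j v) n F
  exact h.symm

/-- The last derivative. -/
theorem last_deriv (hI : Inv ε bar s) (hM : Good ε bar s P H B M)
    (h1 : bar φ = φ') (h2 : bar φ' = φ) (hne : φ ≠ φ') (hφ : φ ∈ H) (hφ' : φ' ∈ H)
    {μ : ℕ} (hmax : ∀ ν : ℤ, ∀ F ∈ M, F ≠ 0 → Hh φ φ' F = (ν : K) • F → ν ≤ μ)
    {b₁ : Fin m} (hb₁ : b₁ ∈ B) {F : Pol K κ m} (hF : F ∈ MA φ φ' μ b₁ B M) (hF0 : F ≠ 0) :
    (pdl (K := K) (φ, b₁) ^ μ) F ≠ 0 ∧ ∀ i : κ × Fin m,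
      ¬ (i.1 ∈ (H.erase φ).erase φ' ∧ i.2 ∈ B.erase b₁) →
        pderiv i ((pdl (K := K) (φ, b₁) ^ μ) F) = 0 := by
  obtain ⟨D, hD, hD'⟩ := exists_last (K := K) (φ, b₁) F hF0
  set p := pdl (K := K) (φ, b₁) with hp
  set G := (p ^ D) F with hG
  have hbar : ∀ w, w ≠ φ → w ≠ φ' → bar w ≠ φ ∧ bar w ≠ φ' := by
    intro w hw1 hw2
    exact ⟨fun h => hw2 (by rw [← hI.inv w, h, h1]), fun h => hw1 (by rw [← hI.inv w, h, h2])⟩
  -- no `φ'`
  have hφ'c : ∀ c, pderiv (φ', c) F = 0 := by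
    intro c
    by_cases hc : c ∈ B
    · exact hF.2.2.1 c hc
    · exact hM.supp F hF.1 (φ', c) fun h => hc h.2
  have hout : ∀ i : κ × Fin m, ¬ (i.1 ∈ H ∧ i.2 ∈ B) → pderiv i G = 0 := by
    intro i hi
    rw [hG, hp, pd_pow, hM.supp F hF.1 i hi, map_zero]
  have hφ'G : ∀ c, pderiv (φ', c) G = 0 := by
    intro c
    rw [hG, hp, pd_pow, hφ'c, map_zero]
  -- no `φ`
  have hφG : ∀ c, pderiv (φ, c) G = 0 := by
    intro c
    by_cases hc : c ∈ B
    · by_cases hcb : c = b₁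
      · subst hcb
        rw [hG, ← pdl_apply, ← hp, ← pow_left]
        exact hD'
      · have h3 := pow_comm' (p := p) (T := (Ee b₁ c).toLinearMap) (q := pdl (K := K) (φ, c))
          (fun v => by
            change pderiv (φ, b₁) (Ee b₁ c v) = Ee b₁ c (pderiv (φ, b₁) v) + pderiv (φ, c) v
            rw [pd_Ee, if_pos rfl]) (fun v => pd_comm _ _ v) D F
        have h4 : (Ee b₁ c).toLinearMap F = 0 := hF.2.2.2 c hc hcb
        rw [h4, map_zero, hD', map_zero, zero_add] at h3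
        refine (smul_eq_zero.1 h3.symm).resolve_left ?_
        exact_mod_cast Nat.succ_ne_zero D
    · exact hout (φ, c) fun h => hc h.2
  -- no vectors number `b₁`
  have hb₁G : ∀ y ∈ H, y ≠ φ → y ≠ φ' → pderiv (y, b₁) G = 0 := by
    intro y hy hy1 hy2
    obtain ⟨hy3, hy4⟩ := hbar y hy1 hy2
    have h5 : Aa ε bar s φ (bar y) F = 0 := by
      by_contra hcon
      have h3 := hmax (μ + 1) _ (hM.lie F hF.1 φ hφ _ (hM.barH y hy)) hcon (by
        rw [Hh_raise h1 hne hy3 hy4 (by rwa [hI.inv]) (by rwa [hI.inv]), hF.2.1, map_smul]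
        push_cast
        module)
      omega
    have h6 : Dd φ y F = 0 := by
      rw [Aa_apply, hI.inv, h1] at h5
      have h7 : Dd (bar y) φ' F = 0 := by
        rw [Dd_eq]
        exact Finset.sum_eq_zero fun c _ => by rw [hφ'c, mul_zero]
      rw [h7, smul_zero, sub_zero] at h5
      exact (smul_eq_zero.1 h5).resolve_left (mul_ne_zero (eps_ne hI) (s_ne hI φ))
    have h3 := pow_comm' (p := p) (T := (Dd φ y).toLinearMap) (q := pdl (K := K) (y, b₁))
      (fun v => by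
        change pderiv (φ, b₁) (Dd φ y v) = Dd φ y (pderiv (φ, b₁) v) + pderiv (y, b₁) v
        rw [pd_Dd, if_pos rfl]) (fun v => pd_comm _ _ v) D F
    have h4 : (Dd φ y).toLinearMap F = 0 := h6
    rw [h4, map_zero, hD', map_zero, zero_add] at h3
    refine (smul_eq_zero.1 h3.symm).resolve_left ?_
    exact_mod_cast Nat.succ_ne_zero D
  -- the number of derivatives
  have hDμ : D = μ := by
    have h3 : Dd φ φ F = (μ : K) • F := by
      have h4 := hF.2.1
      rw [Hh_apply] at h4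
      have h5 : Dd φ' φ' F = 0 := by
        rw [Dd_eq]
        exact Finset.sum_eq_zero fun c _ => by rw [hφ'c, mul_zero]
      rwa [h5, sub_zero] at h4
    have h4 : Dd φ φ G = 0 := by
      rw [Dd_eq]
      exact Finset.sum_eq_zero fun c _ => by rw [hφG, mul_zero]
    have h5 : (p ^ D) (Dd φ φ F) = Dd φ φ G + (D : K) • G := by
      rcases Nat.eq_zero_or_pos D with h0 | h0
      · rw [hG, h0, Nat.cast_zero, zero_smul, add_zero]
        rfl
      · obtain ⟨n, hn⟩ := Nat.exists_eq_succ_of_ne_zero h0.ne'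
        have h6 := pow_comm' (p := p) (T := (Dd φ φ).toLinearMap) (q := p)
          (fun v => by
            change pderiv (φ, b₁) (Dd φ φ v) = Dd φ φ (pderiv (φ, b₁) v) + pderiv (φ, b₁) v
            rw [pd_Dd, if_pos rfl]) (fun v => rfl) n F
        rw [hG, hn, Nat.succ_eq_add_one]
        rw [← pow_left] at h6
        rw [show Dd φ φ F = (Dd φ φ).toLinearMap F from rfl, h6]
        push_cast
        rfl
    rw [h3, map_smul, h4, zero_add, ← hG, ← sub_eq_zero, ← sub_smul] at h5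
    have h6 := (smul_eq_zero.1 h5).resolve_right hD
    rw [sub_eq_zero] at h6
    exact_mod_cast h6.symm
  rw [← hDμ]
  refine ⟨hD, fun i hi => ?_⟩
  obtain ⟨x, c⟩ := i
  by_cases hxφ : x = φ
  · rw [hxφ]
    exact hφG c
  by_cases hxφ' : x = φ'
  · rw [hxφ']
    exact hφ'G c
  by_cases hx : x ∈ H
  · by_cases hc : c ∈ B
    · by_cases hcb : c = b₁
      · rw [hcb]
        exact hb₁G x hx hxφ hxφ'
      · exact absurd ⟨Finset.mem_erase.2 ⟨hxφ', Finset.mem_erase.2 ⟨hxφ, hx⟩⟩,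
          Finset.mem_erase.2 ⟨hcb, hc⟩⟩ hi
    · exact hout (x, c) fun h => hc h.2
  · exact hout (x, c) fun h => hx h.1

end

end Pool.Agent.V5helper93.SMP.PT
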