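import Pool.Agent.V5helper93.SMP.PolyF

/-!
# Harmonic polynomials in several vector variables: conclusion
-/

set_option autoImplicit false
set_option linter.unusedSectionVars false
set_option linter.unusedSimpArgs false
set_option linter.unusedVariables false

namespace Pool.Agent.V5helper93.SMP.PT

open MvPolynomial Module

noncomputable section

variable {K : Type} [Field K] [CharZero K] [IsAlgClosed K] {κ : Type} [Fintype κ]
  [DecidableEq κ] {m : ℕ}
  {ε : ℤ} {bar : κ → κ} {s : κ → ℤ} {P : κ → Prop} [DecidablePred P] {H : Finset κ}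
  {B : Finset (Fin m)} {M : Submodule K (Pol K κ m)} {φ φ' : κ}

theorem Hh_Aa {x y : κ} (hx1 : x ≠ φ) (hx2 : x ≠ φ') (hx3 : bar x ≠ φ) (hx4 : bar x ≠ φ')
    (hy1 : y ≠ φ) (hy2 : y ≠ φ') (hy3 : bar y ≠ φ) (hy4 : bar y ≠ φ') (F : Pol K κ m) :
    Hh φ φ' (Aa ε bar s x y F) = Aa ε bar s x y (Hh φ φ' F) := by
  simp only [Hh_apply, Aa_apply, map_sub, Derivation.map_smul,
    Dd_Dd φ φ, Dd_Dd φ' φ', if_neg hx1, if_neg hx2, if_neg hx3, if_neg hx4, if_neg hy1, if_neg hy2,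
    if_neg hy3, if_neg hy4, if_neg (Ne.symm hx1), if_neg (Ne.symm hx2), if_neg (Ne.symm hx3),
    if_neg (Ne.symm hx4), if_neg (Ne.symm hy1), if_neg (Ne.symm hy2), if_neg (Ne.symm hy3),
    if_neg (Ne.symm hy4)]
  module

theorem pd_Aa {x y : κ} (i : κ × Fin m) (hx : i.1 ≠ x) (hy : i.1 ≠ y) (F : Pol K κ m) :
    pderiv i (Aa ε bar s x y F) = Aa ε bar s x y (pderiv i F) := by
  rw [Aa_apply, Aa_apply, map_sub, Derivation.map_smul, Derivation.map_smul, pd_Dd, pd_Dd,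
    if_neg hx, if_neg hy, add_zero, add_zero]

theorem Ee_Aa (x y : κ) (b c : Fin m) (F : Pol K κ m) :
    Ee b c (Aa ε bar s x y F) = Aa ε bar s x y (Ee b c F) := by
  rw [Aa_apply, Aa_apply, map_sub, Derivation.map_smul, Derivation.map_smul, Dd_Ee, Dd_Ee]

/-- The next space. -/
theorem next_good (hI : Inv ε bar s) (hM : Good ε bar s P H B M)
    (h1 : bar φ = φ') (h2 : bar φ' = φ) (hne : φ ≠ φ') (hφ : φ ∈ H) (hφ' : φ' ∈ H) (hφP : P φ)
    {μ : ℕ} (hmax : ∀ ν : ℤ, ∀ F ∈ M, F ≠ 0 → Hh φ φ' F = (ν : K) • F → ν ≤ μ)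
    {b₁ : Fin m} (hb₁ : b₁ ∈ B) :
    Good ε bar s P ((H.erase φ).erase φ') (B.erase b₁)
      ((MA φ φ' μ b₁ B M).map (pdl (K := K) (φ, b₁) ^ μ)) := by
  have hmem : ∀ w, w ∈ (H.erase φ).erase φ' ↔ w ∈ H ∧ w ≠ φ ∧ w ≠ φ' := by
    intro w
    rw [Finset.mem_erase, Finset.mem_erase]
    tauto
  have hbar : ∀ w, w ≠ φ → w ≠ φ' → bar w ≠ φ ∧ bar w ≠ φ' := by
    intro w hw1 hw2
    exact ⟨fun h => hw2 (by rw [← hI.inv w, h, h1]), fun h => hw1 (by rw [← hI.inv w, h, h2])⟩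
  refine ⟨fun x hx => ?_, ?_, ?_, ?_, ?_, ?_⟩
  · obtain ⟨x1, x2, x3⟩ := (hmem x).1 hx
    exact (hmem _).2 ⟨hM.barH x x1, hbar x x2 x3⟩
  · rintro _ ⟨F, hF, rfl⟩ i hi
    by_cases hF0 : F = 0
    · rw [hF0, map_zero, map_zero]
    · exact (last_deriv hI hM h1 h2 hne hφ hφ' hmax hb₁ hF hF0).2 i hi
  · rintro _ ⟨F, hF, rfl⟩ x hx y hy
    obtain ⟨x1, x2, x3⟩ := (hmem x).1 hx
    obtain ⟨y1, y2, y3⟩ := (hmem y).1 hy
    refine ⟨Aa ε bar s x y F, ⟨hM.lie F hF.1 x x1 y y1, ?_, fun c hc => ?_, fun c hc hcb => ?_⟩,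
      ?_⟩
    · rw [Hh_Aa x2 x3 (hbar x x2 x3).1 (hbar x x2 x3).2 y2 y3 (hbar y y2 y3).1 (hbar y y2 y3).2,
        hF.2.1, map_smul]
    · rw [pd_Aa (φ', c) (Ne.symm x3) (Ne.symm y3), hF.2.2.1 c hc, map_zero]
    · rw [Ee_Aa, hF.2.2.2 c hc hcb, map_zero]
    · exact pow_comm0 (p := pdl (K := K) (φ, b₁)) (T := Aa ε bar s x y)
        (fun v => pd_Aa (φ, b₁) (Ne.symm x2) (Ne.symm y2) v) μ F
  · rintro _ ⟨F, hF, rfl⟩ b hb c hc
    obtain ⟨hb1, hb2⟩ := Finset.mem_erase.1 hb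
    obtain ⟨hc1, hc2⟩ := Finset.mem_erase.1 hc
    refine ⟨Ee b c F, ⟨hM.gl F hF.1 b hb2 c hc2, ?_, fun d hd => ?_, fun d hd hdb => ?_⟩, ?_⟩
    · rw [Hh_Ee, hF.2.1, Derivation.map_smul]
    · rw [pd_Ee, hF.2.2.1 d hd, map_zero, zero_add]
      split_ifs with h
      · exact hF.2.2.1 c hc2
      · rfl
    · rw [Ee_Ee, hF.2.2.2 d hd hdb, map_zero, zero_add, if_neg hc1, sub_zero]
      split_ifs with h
      · exact hF.2.2.2 c hc2 hc1
      · rfl
    · exact pow_comm0 (p := pdl (K := K) (φ, b₁)) (T := (Ee b c).toLinearMap)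
        (fun v => by
          change pderiv (φ, b₁) (Ee b c v) = Ee b c (pderiv (φ, b₁) v)
          rw [pd_Ee, if_neg (Ne.symm hb1), add_zero]) μ F
  · rintro _ ⟨F, hF, rfl⟩ b c
    rw [Dl_pow, hM.harm F hF.1, map_zero]
  · rintro _ ⟨F, hF, rfl⟩
    rw [rs_pow hφP, hM.van F hF.1, map_zero]

/-- **The main theorem on harmonic polynomials.** -/
theorem polyTop (hI : Inv ε bar s) (hP : ∀ x, P x → ¬ P (bar x)) :
    ∀ (N : ℕ) (B : Finset (Fin m)), B.card = N → ∀ (H : Finset κ) (M : Submodule K (Pol K κ m)),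
      FiniteDimensional K M → Good ε bar s P H B M → B.card ≤ (H.filter P).card →
      (ε = 1 → 2 * B.card < H.card) → M = ⊥ := by
  intro N
  induction N with
  | zero =>
    intro B hB H M _ hM _ _
    rw [eq_bot_iff]
    intro F hF
    have hB0 : B = ∅ := Finset.card_eq_zero.1 hB
    have h3 := const_of_pd F fun i => hM.supp F hF i fun h => by
      rw [hB0] at h
      exact Finset.notMem_empty _ h.2
    have h4 := hM.van F hF
    rw [h3] at h4
    have h5 : rs P (C (coeff 0 F) : Pol K κ m) = C (coeff 0 F) :=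
      (rs P : Pol K κ m →ₐ[K] Pol K κ m).commutes _
    rw [h5] at h4
    rw [h3, h4]
    exact Submodule.zero_mem _
  | succ N ih =>
    intro B hB H M hfd hM hcard hcard'
    by_contra hne0
    have hpos : 0 < (H.filter P).card := by omega
    obtain ⟨φ, hφ0⟩ := Finset.card_pos.1 hpos
    obtain ⟨hφ, hφP⟩ := Finset.mem_filter.1 hφ0
    obtain ⟨φ', h1⟩ : ∃ φ', bar φ = φ' := ⟨_, rfl⟩
    have h2 : bar φ' = φ := by rw [← h1, hI.inv]
    have hφ' : φ' ∈ H := by rw [← h1]; exact hM.barH φ hφ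
    have hφ'P : ¬ P φ' := by rw [← h1]; exact hP φ hφP
    have hne : φ ≠ φ' := fun h => hφ'P (by rw [← h]; exact hφP)
    obtain ⟨μ, hμ, hmax⟩ := exists_weight hI hM hne0 h1 h2 hne hφ hφ' (fun he => by
      have := hcard' he
      omega)
    have hHW := exists_HW hI hM hμ
    obtain ⟨F, hF, hF0⟩ := Submodule.exists_mem_ne_zero_of_ne_bot hHW
    have hBne : B.Nonempty := Finset.card_pos.1 (by omega)
    obtain ⟨b₁, hb₁⟩ : ∃ b₁, b₁ = B.min' hBne := ⟨_, rfl⟩
    have hb₁B : b₁ ∈ B := by rw [hb₁]; exact Finset.min'_mem B hBne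
    have hfil : (H.filter P).card ≤ H.card := Finset.card_filter_le _ _
    have hclaim := claimA hI hM h1 h2 hne hφ hφ' hmax (by
      rcases hI.eps with he | he
      · have := hcard' he
        rw [he]
        omega
      · rw [he]
        omega)
    have hFA : F ∈ MA φ φ' μ b₁ B M := by
      refine ⟨hF.1, hF.2.1, fun c hc => hclaim c hc F hF, fun c hc hcb => hF.2.2 c hc b₁ hb₁B ?_⟩
      refine lt_of_le_of_ne ?_ (Ne.symm hcb)
      rw [hb₁]
      exact Finset.min'_le B c hc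
    have hgood := next_good hI hM h1 h2 hne hφ hφ' hφP hmax hb₁B
    have hfd1 : FiniteDimensional K (MA φ φ' μ b₁ B M) :=
      Submodule.finiteDimensional_of_le (S₂ := M) fun F hF => hF.1
    have hfd2 : FiniteDimensional K ((MA φ φ' μ b₁ B M).map (pdl (K := K) (φ, b₁) ^ μ)) :=
      inferInstance
    have hcB : (B.erase b₁).card = N := by
      rw [Finset.card_erase_of_mem hb₁B, hB]
      rfl
    have hcH : ((H.erase φ).erase φ').card + 2 = H.card := by
      rw [Finset.card_erase_of_mem (Finset.mem_erase.2 ⟨Ne.symm hne, hφ'⟩),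
        Finset.card_erase_of_mem hφ]
      have h4 : 1 < H.card := Finset.one_lt_card.2 ⟨φ, hφ, φ', hφ', hne⟩
      omega
    have hcP : (((H.erase φ).erase φ').filter P).card + 1 = (H.filter P).card := by
      have h5 : ((H.erase φ).erase φ').filter P = (H.filter P).erase φ := by
        ext x
        simp only [Finset.mem_filter, Finset.mem_erase]
        constructor
        · rintro ⟨⟨x1, x2, x3⟩, x4⟩
          exact ⟨x2, x3, x4⟩
        · rintro ⟨x2, x3, x4⟩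
          exact ⟨⟨fun h => hφ'P (by rw [← h]; exact x4), x2, x3⟩, x4⟩
      rw [h5]
      exact Finset.card_erase_add_one hφ0
    have hbot := ih (B.erase b₁) hcB ((H.erase φ).erase φ') _ hfd2 hgood (by omega) (fun he => by
      have := hcard' he
      omega)
    have h6 := (last_deriv hI hM h1 h2 hne hφ hφ' hmax hb₁B hFA hF0).1
    apply h6
    have h7 : (pdl (K := K) (φ, b₁) ^ μ) F ∈
        (MA φ φ' μ b₁ B M).map (pdl (K := K) (φ, b₁) ^ μ) := ⟨F, hFA, rfl⟩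
    rw [hbot] at h7
    exact (Submodule.mem_bot K).1 h7

end

end Pool.Agent.V5helper93.SMP.PT
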