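import Pool.Agent.V5helper93.SMP.PolyG

/-!
# Functions of several indices as polynomials
-/

set_option autoImplicit false
set_option linter.unusedSectionVars false
set_option linter.unusedSimpArgs false

namespace Pool.Agent.V5helper93.SMP.PT

open MvPolynomial Module

noncomputable section

/-! ### equal fibres -/

theorem exists_perm {σ A : Type} [Fintype σ] [DecidableEq A] (f g : σ → A)
    (h : ∀ a, (Finset.univ.filter fun j => f j = a).card =
      (Finset.univ.filter fun j => g j = a).card) :
    ∃ π : Equiv.Perm σ, ∀ j, g (π j) = f j := by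
  have h1 : ∀ a, Nonempty ({j // f j = a} ≃ {j // g j = a}) := fun a => by
    refine ⟨Fintype.equivOfCardEq ?_⟩
    rw [Fintype.card_subtype, Fintype.card_subtype]
    exact h a
  exact ⟨Equiv.ofFiberEquiv fun a => (h1 a).some, fun j => Equiv.ofFiberEquiv_map _ j⟩

/-! ### derivations of products -/

theorem der_prod {R A : Type} [CommRing R] [CommRing A] [Algebra R A] {I : Type}
    [DecidableEq I] (d : Derivation R A A) (S : Finset I) (f : I → A) :
    d (∏ j ∈ S, f j) = ∑ j ∈ S, (∏ i ∈ S.erase j, f i) * d (f j) := by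
  induction S using Finset.induction_on with
  | empty => simp
  | insert a S ha ih =>
    rw [Finset.prod_insert ha, Derivation.leibniz, ih, Finset.sum_insert ha,
      Finset.erase_insert ha, smul_eq_mul, smul_eq_mul, Finset.mul_sum, add_comm]
    congr 1
    refine Finset.sum_congr rfl fun j hj => ?_
    have hja : a ≠ j := fun h => ha (by rw [h]; exact hj)
    rw [Finset.erase_insert_of_ne hja, Finset.prod_insert (fun h =>
      ha (Finset.mem_of_mem_erase h)), mul_assoc]

variable {K : Type} [Field K] [CharZero K] [IsAlgClosed K] {κ : Type} [Fintype κ]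
  [DecidableEq κ] {m : ℕ} {σ : Type} [Fintype σ] [DecidableEq σ] (β : σ → Fin m)

/-- the monomial of a part of a word -/
def mon (S : Finset σ) (J : σ → κ) : Pol K κ m := ∏ j ∈ S, X (J j, β j)

/-- the polynomial of a function -/
def Phi : ((σ → κ) → K) →ₗ[K] Pol K κ m where
  toFun t := ∑ J, t J • mon β Finset.univ J
  map_add' t t' := by
    rw [← Finset.sum_add_distrib]
    exact Finset.sum_congr rfl fun J _ => add_smul _ _ _
  map_smul' r t := by
    rw [Finset.smul_sum]
    exact Finset.sum_congr rfl fun J _ => mul_smul _ _ _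

theorem Phi_apply (t : (σ → κ) → K) : Phi β t = ∑ J, t J • mon β Finset.univ J := rfl

/-- the operators on the functions -/
def Rr (a b : κ) (t : (σ → κ) → K) : (σ → κ) → K :=
  fun J => ∑ j, if J j = a then t (Function.update J j b) else 0

theorem mon_congr {S : Finset σ} {J J' : σ → κ} (h : ∀ j ∈ S, J j = J' j) :
    mon (K := K) β S J = mon β S J' := Finset.prod_congr rfl fun j hj => by rw [h j hj]

/-- exchange of words -/
theorem swap_upd {M : Type} [AddCommMonoid M] (j : σ) (a b : κ) (g : (σ → κ) → (σ → κ) → M) :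
    ∑ J, (if J j = b then g J (Function.update J j a) else 0) =
      ∑ J, (if J j = a then g (Function.update J j b) J else 0) := by
  rw [← Finset.sum_filter, ← Finset.sum_filter]
  refine Finset.sum_bij' (fun J _ => Function.update J j a) (fun J _ => Function.update J j b)
    (fun J _ => ?_) (fun J _ => ?_) (fun J hJ => ?_) (fun J hJ => ?_) (fun J hJ => ?_)
  · rw [Finset.mem_filter, Function.update_self]
    exact ⟨Finset.mem_univ _, rfl⟩
  · rw [Finset.mem_filter, Function.update_self]
    exact ⟨Finset.mem_univ _, rfl⟩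
  · rw [Function.update_idem, ← (Finset.mem_filter.1 hJ).2, Function.update_eq_self]
  · rw [Function.update_idem, ← (Finset.mem_filter.1 hJ).2, Function.update_eq_self]
  · rw [Function.update_idem, ← (Finset.mem_filter.1 hJ).2, Function.update_eq_self]

theorem Dd_mon (a b : κ) (J : σ → κ) : Dd a b (mon (K := K) β Finset.univ J) =
    ∑ j, if J j = b then mon β Finset.univ (Function.update J j a) else 0 := by
  rw [mon, der_prod]
  refine Finset.sum_congr rfl fun j _ => ?_
  rw [Dd_X]
  split_ifs with h
  · rw [mon, ← Finset.prod_erase_mul _ _ (Finset.mem_univ j), Function.update_self]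
    congr 1
    refine Finset.prod_congr rfl fun i hi => ?_
    rw [Function.update_of_ne (Finset.ne_of_mem_erase hi)]
  · rw [mul_zero]

theorem Dd_Phi (a b : κ) (t : (σ → κ) → K) : Dd a b (Phi β t) = Phi β (Rr a b t) := by
  rw [Phi_apply, Phi_apply, map_sum]
  simp only [Derivation.map_smul, Dd_mon, Rr, Finset.sum_smul, Finset.smul_sum]
  rw [Finset.sum_comm, Finset.sum_comm (s := Finset.univ (α := σ → κ))]
  refine Finset.sum_congr rfl fun j _ => ?_
  have h1 := swap_upd j a b (fun J J' => t J • mon (K := K) β Finset.univ J')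
  simp only [smul_ite, smul_zero, ite_smul, zero_smul]
  exact h1

/-- the operators of the Lie algebra -/
def Rf (ε : ℤ) (bar : κ → κ) (s : κ → ℤ) (x y : κ) (t : (σ → κ) → K) : (σ → κ) → K :=
  ((ε : K) * (s x : K)) • Rr x (bar y) t - (s y : K) • Rr y (bar x) t

theorem Aa_Phi (ε : ℤ) (bar : κ → κ) (s : κ → ℤ) (x y : κ) (t : (σ → κ) → K) :
    Aa ε bar s x y (Phi β t) = Phi β (Rf ε bar s x y t) := by
  rw [Aa_apply, Dd_Phi, Dd_Phi, Rf, map_sub, map_smul, map_smul]

/-! ### the Laplace operators -/

theorem sum_upd' {M : Type} [AddCommMonoid M] (j : σ) (g : (σ → κ) → M) :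
    ∑ J, ∑ x, g (Function.update J j x) = (Fintype.card κ) • ∑ J, g J := by
  rw [← Finset.sum_product', Finset.univ_product_univ]
  have h1 : ∑ p : (σ → κ) × κ, g (Function.update p.1 j p.2) =
      ∑ p : (σ → κ) × κ, g p.1 := by
    refine Fintype.sum_equiv (Function.Involutive.toPerm
      (fun p : (σ → κ) × κ => (Function.update p.1 j p.2, p.1 j)) ?_) _ _ fun p => rfl
    rintro ⟨J, x⟩
    simp only [Function.update_self, Function.update_idem, Function.update_eq_self]
  rw [h1, Fintype.sum_prod_type]
  simp only [Finset.sum_const, Finset.card_univ, Finset.smul_sum]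

theorem pd_mon (i : κ × Fin m) (S : Finset σ) (J : σ → κ) :
    pderiv i (mon (K := K) β S J) = ∑ j ∈ S, if (J j, β j) = i then mon β (S.erase j) J else 0 := by
  rw [mon, der_prod]
  refine Finset.sum_congr rfl fun j _ => ?_
  rw [pd_X]
  split_ifs
  · rw [mul_one]
    rfl
  · rw [mul_zero]

theorem Dl_mon (bar : κ → κ) (s : κ → ℤ) (b c : Fin m) (J : σ → κ) :
    Dl bar s b c (mon (K := K) β Finset.univ J) = ∑ j, ∑ i ∈ Finset.univ.erase j, ∑ x,
      if J j = bar x ∧ J i = x ∧ β j = c ∧ β i = b then
        (s x : K) • mon β ((Finset.univ.erase j).erase i) J else 0 := by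
  rw [Dl]
  simp only [pd_mon, map_sum, Finset.smul_sum]
  rw [Finset.sum_comm]
  refine Finset.sum_congr rfl fun j _ => ?_
  have h1 : ∀ x, (s x : K) • pderiv (x, b) (if (J j, β j) = (bar x, c) then
      mon (K := K) β (Finset.univ.erase j) J else 0) = ∑ i ∈ Finset.univ.erase j,
      if J j = bar x ∧ J i = x ∧ β j = c ∧ β i = b then
        (s x : K) • mon β ((Finset.univ.erase j).erase i) J else 0 := by
    intro x
    by_cases h : (J j, β j) = (bar x, c)
    · rw [if_pos h, pd_mon, Finset.smul_sum]
      rw [Prod.mk.injEq] at h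
      refine Finset.sum_congr rfl fun i _ => ?_
      by_cases h2 : (J i, β i) = (x, b)
      · rw [if_pos h2]
        rw [Prod.mk.injEq] at h2
        rw [if_pos ⟨h.1, h2.1, h.2, h2.2⟩]
      · rw [if_neg h2, if_neg, smul_zero]
        rw [Prod.mk.injEq] at h2
        tauto
    · rw [if_neg h, map_zero, smul_zero]
      rw [Prod.mk.injEq] at h
      symm
      refine Finset.sum_eq_zero fun i _ => if_neg ?_
      tauto
  rw [Finset.sum_congr rfl fun x _ => h1 x, Finset.sum_comm]

theorem Dl_Phi {bar : κ → κ} {s : κ → ℤ} {t : (σ → κ) → K}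
    (ht : ∀ i j : σ, i ≠ j → ∀ J : σ → κ,
      ∑ x, (s x : K) * t (Function.update (Function.update J i x) j (bar x)) = 0) (b c : Fin m) :
    Dl bar s b c (Phi β t) = 0 := by
  rcases isEmpty_or_nonempty κ with hκ | hκ
  · rw [Dl]
    exact Finset.sum_of_isEmpty _
  have h0 : Dl bar s b c (Phi β t) = ∑ J, t J • Dl bar s b c (mon (K := K) β Finset.univ J) := by
    rw [Phi_apply]
    simp only [Dl, map_sum, Derivation.map_smul, Finset.smul_sum]
    rw [Finset.sum_comm]
    refine Finset.sum_congr rfl fun J _ => Finset.sum_congr rfl fun x _ => ?_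
    rw [smul_comm]
  rw [h0]
  simp only [Dl_mon, Finset.smul_sum]
  rw [Finset.sum_comm]
  refine Finset.sum_eq_zero fun j _ => ?_
  rw [Finset.sum_comm]
  refine Finset.sum_eq_zero fun i hi => ?_
  have hij : i ≠ j := Finset.ne_of_mem_erase hi
  by_cases hβ : β j = c ∧ β i = b
  swap
  · refine Finset.sum_eq_zero fun J _ => Finset.sum_eq_zero fun x _ => ?_
    rw [if_neg, smul_zero]
    tauto
  set g : (σ → κ) → Pol K κ m := fun J => ∑ x, t J • if J j = bar x ∧ J i = x ∧ β j = c ∧ β i = b
    then (s x : K) • mon β ((Finset.univ.erase j).erase i) J else 0 with hg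
  have h1 : (Fintype.card κ) • (Fintype.card κ) • ∑ J, g J = 0 := by
    rw [← sum_upd' j g, ← sum_upd' i (fun J => ∑ x, g (Function.update J j x))]
    refine Finset.sum_eq_zero fun J _ => ?_
    have h2 : ∀ y z, g (Function.update (Function.update J i y) j z) =
        if z = bar y then ((s y : K) * t (Function.update (Function.update J i y) j (bar y))) •
          mon β ((Finset.univ.erase j).erase i) J else 0 := by
      intro y z
      rw [hg]
      simp only [Function.update_self, Function.update_of_ne hij]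
      rw [Finset.sum_eq_single y]
      · by_cases hz : z = bar y
        · rw [if_pos ⟨hz, rfl, hβ⟩, if_pos hz, smul_smul, mul_comm, hz]
          congr 1
          refine mon_congr β fun l hl => ?_
          have h3 := Finset.ne_of_mem_erase hl
          have h4 := Finset.ne_of_mem_erase (Finset.mem_of_mem_erase hl)
          rw [Function.update_of_ne h4, Function.update_of_ne h3]
        · rw [if_neg, if_neg hz, smul_zero]
          tauto
      · intro x _ hx
        rw [if_neg, smul_zero]
        intro h5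
        exact hx h5.2.1.symm
      · intro h
        exact absurd (Finset.mem_univ _) h
    simp only [h2, Finset.sum_ite_eq', Finset.mem_univ, if_true]
    rw [← Finset.sum_smul, ht i j hij J, zero_smul]
  have h2 : ((Fintype.card κ : K)) ≠ 0 := Nat.cast_ne_zero.2 Fintype.card_ne_zero
  rw [← Nat.cast_smul_eq_nsmul K, ← Nat.cast_smul_eq_nsmul K] at h1
  exact (smul_eq_zero.1 ((smul_eq_zero.1 h1).resolve_left h2)).resolve_left h2

/-! ### setting variables to zero -/

theorem rs_Phi {P : κ → Prop} [DecidablePred P] {t : (σ → κ) → K}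
    (ht : ∀ J : σ → κ, (∀ j, P (J j)) → t J = 0) : rs P (Phi β t) = 0 := by
  rw [Phi_apply, map_sum]
  refine Finset.sum_eq_zero fun J _ => ?_
  rw [map_smul]
  by_cases h : ∀ j, P (J j)
  · rw [ht J h, zero_smul]
  · push Not at h
    obtain ⟨j, hj⟩ := h
    rw [mon, map_prod, Finset.prod_eq_zero (Finset.mem_univ j), smul_zero]
    rw [rs_X, if_neg hj]

/-! ### injectivity -/

/-- the exponent of a word -/
def ex (J : σ → κ) : κ × Fin m →₀ ℕ := ∑ j, Finsupp.single (J j, β j) 1

theorem mon_eq (J : σ → κ) : mon (K := K) β Finset.univ J = monomial (ex β J) 1 := by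
  rw [ex, monomial_sum_one]
  rfl

theorem ex_apply (J : σ → κ) (a : κ × Fin m) :
    ex β J a = (Finset.univ.filter fun j => (J j, β j) = a).card := by
  rw [ex, Finsupp.finsetSum_apply, Finset.card_filter]
  exact Finset.sum_congr rfl fun j _ => Finsupp.single_apply

theorem coeff_Phi (t : (σ → κ) → K) (ν : κ × Fin m →₀ ℕ) :
    coeff ν (Phi β t) = ∑ J ∈ Finset.univ.filter (fun J => ex β J = ν), t J := by
  rw [Phi_apply, coeff_sum, Finset.sum_filter]
  refine Finset.sum_congr rfl fun J _ => ?_
  rw [coeff_smul, mon_eq, coeff_monomial, smul_eq_mul, mul_ite, mul_one, mul_zero]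

theorem Phi_inj {t : (σ → κ) → K}
    (hsym : ∀ π : Equiv.Perm σ, (∀ j, β (π j) = β j) → ∀ J : σ → κ, t (fun j => J (π j)) = t J)
    (h0 : Phi β t = 0) : t = 0 := by
  funext J₀
  have h1 := coeff_Phi β t (ex β J₀)
  rw [h0, coeff_zero, Finset.sum_congr rfl (g := fun _ => t J₀), Finset.sum_const] at h1
  · rw [← Nat.cast_smul_eq_nsmul K, smul_eq_mul] at h1
    refine (mul_eq_zero.1 h1.symm).resolve_left ?_
    intro h2
    rw [Nat.cast_eq_zero, Finset.card_eq_zero] at h2
    have h3 : J₀ ∈ Finset.univ.filter (fun J => ex β J = ex β J₀) :=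
      Finset.mem_filter.2 ⟨Finset.mem_univ _, rfl⟩
    rw [h2] at h3
    exact Finset.notMem_empty _ h3
  · intro J hJ
    have h2 := (Finset.mem_filter.1 hJ).2
    obtain ⟨π, hπ⟩ := exists_perm (fun j => (J j, β j)) (fun j => (J₀ j, β j)) fun a => by
      rw [← ex_apply, ← ex_apply, h2]
    have h3 : J = fun j => J₀ (π j) := funext fun j => (congrArg Prod.fst (hπ j)).symm
    rw [h3]
    exact hsym π (fun j => congrArg Prod.snd (hπ j)) J₀

/-! ### the space -/

/-- the Euler operator -/
def Eu : Module.End K (Pol K κ m) := ∑ b : Fin m, (Ee b b).toLinearMap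

theorem Eu_apply (F : Pol K κ m) : Eu F = ∑ b, Ee b b F := by
  rw [Eu, LinearMap.sum_apply]
  rfl

theorem coeff_Eu (ν : κ × Fin m →₀ ℕ) (F : Pol K κ m) :
    coeff ν (Eu F) = ((∑ i, ν i : ℕ) : K) * coeff ν F := by
  rw [Eu_apply, coeff_sum]
  simp only [coeff_Ee]
  rw [← Finset.sum_mul, Fintype.sum_prod_type_right]
  push_cast
  rfl

theorem ex_sum (J : σ → κ) : ∑ i, ex β J i = Fintype.card σ := by
  simp only [ex, Finsupp.finsetSum_apply]
  rw [Finset.sum_comm]
  simp only [Finsupp.single_apply, Finset.sum_ite_eq, Finset.mem_univ, if_true]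
  rw [Finset.sum_const, Finset.card_univ, smul_eq_mul, mul_one]

theorem Eu_Phi (t : (σ → κ) → K) : Eu (Phi β t) = (Fintype.card σ : K) • Phi β t := by
  ext ν
  rw [coeff_Eu, coeff_smul, smul_eq_mul, coeff_Phi]
  by_cases h : ∃ J, ex β J = ν
  · obtain ⟨J, rfl⟩ := h
    rw [ex_sum]
  · rw [Finset.filter_eq_empty_iff.2 (fun J _ hJ => h ⟨J, hJ⟩), Finset.sum_empty, mul_zero,
      mul_zero]

theorem Eu_fin (n : ℕ) : FiniteDimensional K (Module.End.eigenspace (Eu (K := K) (κ := κ) (m := m))
    (n : K)) := by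
  refine Submodule.finiteDimensional_of_le (S₂ := restrictTotalDegree (κ × Fin m) K n) ?_
  intro F hF
  rw [Module.End.mem_eigenspace_iff] at hF
  rw [mem_restrictTotalDegree]
  refine Finset.sup_le fun ν hν => ?_
  have h1 := coeff_Eu ν F
  rw [hF, coeff_smul, smul_eq_mul] at h1
  have h2 := mul_right_cancel₀ (mem_support_iff.1 hν) h1
  have h3 : n = ∑ i, ν i := by exact_mod_cast h2
  rw [h3, Finsupp.sum_fintype _ _ fun _ => rfl]

theorem Eu_Aa (ε : ℤ) (bar : κ → κ) (s : κ → ℤ) (x y : κ) (F : Pol K κ m) :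
    Eu (Aa ε bar s x y F) = Aa ε bar s x y (Eu F) := by
  rw [Eu_apply, Eu_apply, map_sum]
  exact Finset.sum_congr rfl fun b _ => Ee_Aa x y b b F

end

end Pool.Agent.V5helper93.SMP.PT
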