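import Pool.Agent.V5helper93.SMP.PolyH

/-!
# Spaces of block symmetric traceless functions
-/

set_option autoImplicit false
set_option linter.unusedSectionVars false
set_option linter.unusedSimpArgs false

namespace Pool.Agent.V5helper93.SMP.PT

open MvPolynomial Module

noncomputable section

variable {K : Type} [Field K] [CharZero K] [IsAlgClosed K] {κ : Type} [Fintype κ]
  [DecidableEq κ] {m : ℕ} {σ : Type} [Fintype σ] [DecidableEq σ]

section ops

variable {ε : ℤ} {bar : κ → κ} {s : κ → ℤ} {P : κ → Prop} [DecidablePred P]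

theorem rs_Ee (c d : Fin m) (F : Pol K κ m) : rs P (Ee c d F) = Ee c d (rs P F) := by
  induction F using MvPolynomial.induction_on with
  | C a =>
    have h1 : rs P (C a : Pol K κ m) = C a := (rs P : Pol K κ m →ₐ[K] Pol K κ m).commutes a
    have h2 : Ee c d (C a : Pol K κ m) = 0 := Derivation.map_algebraMap _ a
    rw [h1, h2, map_zero]
  | add p q hp hq => rw [map_add, map_add, hp, hq, map_add, map_add]
  | mul_X p j hp =>
    rw [Derivation.leibniz, map_mul, Derivation.leibniz, smul_eq_mul, smul_eq_mul, map_add,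
      map_mul, map_mul, hp, smul_eq_mul, smul_eq_mul, rs_X, Ee_X]
    congr 2
    by_cases h1 : j.2 = d <;> by_cases h2 : P j.1 <;> simp [h1, h2, rs_X, Ee_X]

theorem Dl_Ee (a b c d : Fin m) (F : Pol K κ m) : Dl bar s a b (Ee c d F) =
    Ee c d (Dl bar s a b F) + (if a = c then Dl bar s d b F else 0) +
      (if b = c then Dl bar s a d F else 0) := by
  have h1 : ∀ x, (s x : K) • pderiv (x, a) (pderiv (bar x, b) (Ee c d F)) =
      Ee c d ((s x : K) • pderiv (x, a) (pderiv (bar x, b) F)) +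
      (if a = c then (s x : K) • pderiv (x, d) (pderiv (bar x, b) F) else 0) +
      (if b = c then (s x : K) • pderiv (x, a) (pderiv (bar x, d) F) else 0) := by
    intro x
    rw [pd_Ee, map_add, pd_Ee, Derivation.map_smul]
    simp only
    split_ifs <;> simp only [smul_add, map_zero, smul_zero, add_zero, zero_add]
  rw [Dl, Finset.sum_congr rfl fun x _ => h1 x, Finset.sum_add_distrib, Finset.sum_add_distrib,
    ← map_sum]
  congr 1
  · congr 1
    split_ifs
    · rfl
    · exact Finset.sum_const_zero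
  · split_ifs
    · rfl
    · exact Finset.sum_const_zero

theorem Dl_add (a b : Fin m) (F G : Pol K κ m) :
    Dl bar s a b (F + G) = Dl bar s a b F + Dl bar s a b G := by
  rw [Dl, Dl, Dl, ← Finset.sum_add_distrib]
  refine Finset.sum_congr rfl fun x _ => ?_
  rw [map_add, map_add, smul_add]

theorem Dl_smul (a b : Fin m) (r : K) (F : Pol K κ m) :
    Dl bar s a b (r • F) = r • Dl bar s a b F := by
  rw [Dl, Dl, Finset.smul_sum]
  refine Finset.sum_congr rfl fun x _ => ?_
  rw [Derivation.map_smul, Derivation.map_smul, smul_comm]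

theorem Dl_zero (a b : Fin m) : Dl bar s a b (0 : Pol K κ m) = 0 := by
  rw [Dl]
  refine Finset.sum_eq_zero fun x _ => ?_
  rw [map_zero, map_zero, smul_zero]

theorem Eu_Ee (c d : Fin m) (F : Pol K κ m) : Eu (Ee c d F) = Ee c d (Eu F) := by
  rw [Eu_apply, Eu_apply, map_sum]
  simp only [Ee_Ee _ _ c d]
  rw [Finset.sum_add_distrib, Finset.sum_sub_distrib]
  simp only [Finset.sum_ite_eq', Finset.sum_ite_eq, Finset.mem_univ, if_true]
  rw [sub_self, add_zero]

end ops

variable (ε : ℤ) (bar : κ → κ) (s : κ → ℤ) (P : κ → Prop) [DecidablePred P]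

/-- compositions of the operators -/
def act : List (κ × κ) → Module.End K (Pol K κ m)
  | [] => 1
  | p :: l => act l * Aa ε bar s p.1 p.2

theorem act_nil (F : Pol K κ m) : act ε bar s [] F = F := rfl

theorem act_cons (p : κ × κ) (l : List (κ × κ)) (F : Pol K κ m) :
    act ε bar s (p :: l) F = act ε bar s l (Aa ε bar s p.1 p.2 F) := rfl

theorem act_Ee (l : List (κ × κ)) (c d : Fin m) (F : Pol K κ m) :
    act ε bar s l (Ee c d F) = Ee c d (act ε bar s l F) := by
  induction l generalizing F with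
  | nil => rfl
  | cons p l ih => rw [act_cons, act_cons, ← Ee_Aa, ih]

/-- the space -/
def Mh (n : ℕ) : Submodule K (Pol K κ m) where
  carrier := {F | Eu F = (n : K) • F ∧ ∀ l, (∀ b c, Dl bar s b c (act ε bar s l F) = 0) ∧
    rs P (act ε bar s l F) = 0}
  add_mem' := by
    rintro F G ⟨hF1, hF2⟩ ⟨hG1, hG2⟩
    refine ⟨by rw [map_add, hF1, hG1, smul_add], fun l => ⟨fun b c => ?_, ?_⟩⟩
    · rw [map_add, Dl_add, (hF2 l).1, (hG2 l).1, add_zero]
    · rw [map_add, map_add, (hF2 l).2, (hG2 l).2, add_zero]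
  zero_mem' := by
    refine ⟨by rw [map_zero, smul_zero], fun l => ⟨fun b c => ?_, ?_⟩⟩
    · rw [map_zero, Dl_zero]
    · rw [map_zero, map_zero]
  smul_mem' := by
    rintro r F ⟨hF1, hF2⟩
    refine ⟨by rw [map_smul, hF1, smul_comm], fun l => ⟨fun b c => ?_, ?_⟩⟩
    · rw [map_smul, Dl_smul, (hF2 l).1, smul_zero]
    · rw [map_smul, map_smul, (hF2 l).2, smul_zero]

theorem mem_Mh {n : ℕ} {F : Pol K κ m} : F ∈ Mh ε bar s P n ↔ Eu F = (n : K) • F ∧
    ∀ l, (∀ b c, Dl bar s b c (act ε bar s l F) = 0) ∧ rs P (act ε bar s l F) = 0 := Iff.rfl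

theorem Mh_good (n : ℕ) : Good ε bar s P Finset.univ Finset.univ (Mh (K := K) (m := m) ε bar s P n)
    where
  barH _ _ := Finset.mem_univ _
  supp F _ i hi := absurd ⟨Finset.mem_univ _, Finset.mem_univ _⟩ hi
  lie F hF x _ y _ := by
    rw [mem_Mh] at hF ⊢
    exact ⟨by rw [Eu_Aa, hF.1, map_smul], fun l => hF.2 ((x, y) :: l)⟩
  gl F hF b _ c _ := by
    rw [mem_Mh] at hF ⊢
    refine ⟨by rw [Eu_Ee, hF.1, Derivation.map_smul], fun l => ⟨fun b' c' => ?_, ?_⟩⟩
    · rw [act_Ee, Dl_Ee, (hF.2 l).1, (hF.2 l).1, (hF.2 l).1, map_zero]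
      simp
    · rw [act_Ee, rs_Ee, (hF.2 l).2, map_zero]
  harm F hF b c := (hF.2 []).1 b c
  van F hF := (hF.2 []).2

theorem Mh_fin (n : ℕ) : FiniteDimensional K (Mh (K := K) (m := m) ε bar s P n) := by
  have := Eu_fin (K := K) (κ := κ) (m := m) n
  exact Submodule.finiteDimensional_of_le (S₂ := Module.End.eigenspace (Eu (K := K)) (n : K))
    fun F hF => Module.End.mem_eigenspace_iff.2 hF.1

variable {ε bar s P}

/-- **Spaces of block symmetric traceless functions.** -/
theorem fun_top (hI : Inv ε bar s) (hP : ∀ x, P x → ¬ P (bar x)) (β : σ → Fin m)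
    (h1 : m ≤ (Finset.univ.filter P).card) (h2 : ε = 1 → 2 * m < Fintype.card κ)
    (S : Submodule K ((σ → κ) → K))
    (hsym : ∀ t ∈ S, ∀ π : Equiv.Perm σ, (∀ j, β (π j) = β j) → ∀ J : σ → κ,
      t (fun j => J (π j)) = t J)
    (hlie : ∀ t ∈ S, ∀ x y, Rf ε bar s x y t ∈ S)
    (htr : ∀ t ∈ S, ∀ i j : σ, i ≠ j → ∀ J : σ → κ,
      ∑ x, (s x : K) * t (Function.update (Function.update J i x) j (bar x)) = 0)
    (hvan : ∀ t ∈ S, ∀ J : σ → κ, (∀ j, P (J j)) → t J = 0) : S = ⊥ := by
  have hbot : Mh (K := K) (m := m) ε bar s P (Fintype.card σ) = ⊥ :=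
    polyTop hI hP m Finset.univ (by rw [Finset.card_univ, Fintype.card_fin]) Finset.univ _
      (Mh_fin ε bar s P _) (Mh_good ε bar s P _) (by rwa [Finset.card_univ, Fintype.card_fin])
      (fun he => by
        rw [Finset.card_univ, Fintype.card_fin, Finset.card_univ]
        exact h2 he)
  have hact : ∀ l : List (κ × κ), ∀ t ∈ S, ∃ t' ∈ S, act ε bar s l (Phi β t) = Phi β t' := by
    intro l
    induction l with
    | nil => exact fun t ht => ⟨t, ht, rfl⟩
    | cons p l ih =>
      intro t ht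
      rw [act_cons, Aa_Phi]
      exact ih _ (hlie t ht p.1 p.2)
  rw [eq_bot_iff]
  intro t ht
  have h3 : Phi β t ∈ Mh (K := K) (m := m) ε bar s P (Fintype.card σ) := by
    refine ⟨Eu_Phi β t, fun l => ?_⟩
    obtain ⟨t', ht', h4⟩ := hact l t ht
    rw [h4]
    exact ⟨fun b c => Dl_Phi β (htr t' ht') b c, rs_Phi β (hvan t' ht')⟩
  rw [hbot] at h3
  exact (Submodule.mem_bot K).2 (Phi_inj β (hsym t ht) ((Submodule.mem_bot K).1 h3))

end

end Pool.Agent.V5helper93.SMP.PT
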