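import Pool.Agent.V5helper93.SMP.Defs
import Pool.Agent.V5helper93.SMP.EigB

/-!
# Contractions and insertions
-/

set_option autoImplicit false
set_option linter.unusedSectionVars false

namespace Pool.Agent.V5helper93.SMP

open Module Polynomial Pool.Agent.V5helper93.GTC

noncomputable section

variable {k T W : Type} [Field k] [AddCommGroup T] [Module k T] [AddCommGroup W] [Module k W]

/-! ### dual pairs -/

/-- dual pairs of families -/
structure DP (B : T →ₗ[k] T →ₗ[k] k) {ι : Type} [Fintype ι] (d d' : ι → T) : Prop where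
  left : ∀ v, ∑ i, B v (d' i) • d i = v
  right : ∀ v, ∑ i, B (d i) v • d' i = v

theorem casimir {B : T →ₗ[k] T →ₗ[k] k} {ι ι' : Type} [Fintype ι] [Fintype ι'] {d d' : ι → T}
    {c c' : ι' → T} (hd : DP B d d') (hc : DP B c c') {M : Type} [AddCommGroup M] [Module k M]
    (β : T →ₗ[k] T →ₗ[k] M) : ∑ j, β (c j) (c' j) = ∑ i, β (d i) (d' i) := by
  have h1 : ∀ j, β (c j) (c' j) = ∑ i, B (c j) (d' i) • β (d i) (c' j) := by
    intro j
    conv_lhs => rw [← hd.left (c j)]
    simp only [map_sum, map_smul, LinearMap.sum_apply, LinearMap.smul_apply]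
  have h2 : ∀ i, β (d i) (d' i) = ∑ j, B (c j) (d' i) • β (d i) (c' j) := by
    intro i
    conv_lhs => rw [← hc.right (d' i)]
    simp only [map_sum, map_smul]
  rw [Finset.sum_congr rfl fun j _ => h1 j, Finset.sum_congr rfl fun i _ => h2 i, Finset.sum_comm]

/-- transport -/
theorem DP.map {B : T →ₗ[k] T →ₗ[k] k} {ι : Type} [Fintype ι] {d d' : ι → T} (h : DP B d d')
    {R : Module.End k T} {c : k} (hc : c ≠ 0) (hR : ∀ u v, B (R u) (R v) = c * B u v)
    (hs : Function.Surjective R) : DP B (fun i => R (d i)) (fun i => c⁻¹ • R (d' i)) := by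
  refine ⟨fun v => ?_, fun v => ?_⟩
  · obtain ⟨u, rfl⟩ := hs v
    conv_rhs => rw [← h.left u]
    rw [map_sum]
    refine Finset.sum_congr rfl fun i _ => ?_
    rw [map_smul, map_smul, hR, smul_eq_mul, inv_mul_cancel_left₀ hc]
  · obtain ⟨u, rfl⟩ := hs v
    conv_rhs => rw [← h.right u]
    rw [map_sum]
    refine Finset.sum_congr rfl fun i _ => ?_
    rw [hR, map_smul, smul_smul, mul_comm, inv_mul_cancel_left₀ hc]

theorem exists_DP [FiniteDimensional k T] {B : T →ₗ[k] T →ₗ[k] k}
    (hs : ∀ u v, B u v = B v u) (hnd : ∀ u, (∀ w, B u w = 0) → u = 0) :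
    ∃ (ι : Type) (_ : Fintype ι) (_ : DecidableEq ι) (d : Basis ι k T) (d' : ι → T),
      DP B d d' := by
  classical
  let b := Module.finBasis k T
  have hB : LinearMap.BilinForm.Nondegenerate (B : LinearMap.BilinForm k T) := by
    refine ⟨fun m h => hnd m h, fun m h => hnd m fun n => ?_⟩
    rw [hs]
    exact h n
  let D := LinearMap.BilinForm.dualBasis (B : LinearMap.BilinForm k T) hB b
  have h1 : ∀ i j, B (D i) (b j) = if j = i then 1 else 0 := fun i j =>
    LinearMap.BilinForm.apply_dualBasis_left (B := (B : LinearMap.BilinForm k T)) hB b i j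
  refine ⟨Fin (finrank k T), inferInstance, inferInstance, D, b, ⟨fun v => ?_, fun v => ?_⟩⟩
  · conv_rhs => rw [← D.sum_repr v]
    refine Finset.sum_congr rfl fun i _ => ?_
    congr 1
    conv_lhs => rw [← D.sum_repr v]
    simp only [map_sum, map_smul, LinearMap.sum_apply, LinearMap.smul_apply, h1, smul_eq_mul,
      mul_ite, mul_one, mul_zero, Finset.sum_ite_eq, Finset.mem_univ, if_true]
  · conv_rhs => rw [← b.sum_repr v]
    refine Finset.sum_congr rfl fun i _ => ?_
    congr 1
    conv_lhs => rw [← b.sum_repr v]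
    simp only [map_sum, map_smul, h1, smul_eq_mul,
      mul_ite, mul_one, mul_zero, Finset.sum_ite_eq', Finset.mem_univ, if_true]

theorem Sys.dp {B : T →ₗ[k] T →ₗ[k] k} {g : Module.End k T} {ι : Type} [DecidableEq ι] [Fintype ι]
    {e : Basis ι k T} {bar : ι → ι} {α : ι → k} (h : Sys B g e bar α) :
    DP B e (fun x => e (bar x)) := by
  have h1 : ∀ v x, B v (e (bar x)) = e.repr v x := by
    intro v x
    conv_lhs => rw [← e.sum_repr v]
    simp only [map_sum, map_smul, LinearMap.sum_apply, LinearMap.smul_apply, h.form, smul_eq_mul]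
    rw [Finset.sum_eq_single x]
    · rw [if_pos rfl, mul_one]
    · intro y _ hy
      rw [if_neg, mul_zero]
      intro h2
      exact hy (by rw [← h.inv y, ← h2, h.inv])
    · intro h2
      exact absurd (Finset.mem_univ _) h2
  have h2 : ∀ v x, B (e x) v = e.repr v (bar x) := by
    intro v x
    conv_lhs => rw [← e.sum_repr v]
    simp only [map_sum, map_smul, h.form, smul_eq_mul, mul_ite, mul_one,
      mul_zero, Finset.sum_ite_eq', Finset.mem_univ, if_true]
  refine ⟨fun v => ?_, fun v => ?_⟩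
  · simp only [h1]
    exact e.sum_repr v
  · simp only [h2]
    conv_rhs => rw [← e.sum_repr v]
    exact Fintype.sum_equiv (Function.Involutive.toPerm bar h.inv) _ _ fun x => rfl

/-! ### contraction -/

section slots

variable {σ : Type} [DecidableEq σ]

theorem put_eq {a b : σ} (hab : a ≠ b) (v : σ → T) (x y : T) :
    (fun j => if h : j ≠ a ∧ j ≠ b then res a b v ⟨j, h⟩ else
      if j = a then x else y) =
      Function.update (Function.update v a x) b y := by
  funext j
  by_cases hjb : j = b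
  · subst hjb
    rw [Function.update_self, dif_neg (fun h => h.2 rfl)]
    exact if_neg hab.symm
  · rw [Function.update_of_ne hjb]
    by_cases hja : j = a
    · subst hja
      rw [Function.update_self, dif_neg (fun h => h.1 rfl)]
      exact if_pos rfl
    · rw [Function.update_of_ne hja, dif_pos ⟨hja, hjb⟩]
      rfl

variable {ι : Type} [Fintype ι]

/-- Contraction. -/
def ctr {a b : σ} (_ : a ≠ b) (d d' : ι → T) :
    MultilinearMap k (fun _ : σ => T) W →ₗ[k]
      MultilinearMap k (fun _ : {l : σ // l ≠ a ∧ l ≠ b} => T) W where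
  toFun f := ∑ i, f.domDomRestrict (fun l => l ≠ a ∧ l ≠ b)
    (fun l => if l.1 = a then d i else d' i)
  map_add' f g := by
    rw [← Finset.sum_add_distrib]
    rfl
  map_smul' r f := by
    rw [RingHom.id_apply, Finset.smul_sum]
    rfl

theorem ctr_res {a b : σ} (hab : a ≠ b) (d d' : ι → T)
    (f : MultilinearMap k (fun _ : σ => T) W) (v : σ → T) :
    ctr hab d d' f (res a b v) = ∑ i, f (Function.update (Function.update v a (d i)) b (d' i)) := by
  change (∑ i, f.domDomRestrict (fun l => l ≠ a ∧ l ≠ b)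
    (fun l => if l.1 = a then d i else d' i)) (res a b v) = _
  rw [sum_apply]
  refine Finset.sum_congr rfl fun i _ => ?_
  rw [MultilinearMap.domDomRestrict_apply]
  exact congrArg f (put_eq hab v (d i) (d' i))

/-- Tuples of the other vectors are restrictions. -/
theorem res_surj (a b : σ) (w : {l : σ // l ≠ a ∧ l ≠ b} → T) : ∃ v : σ → T, res a b v = w :=
  ⟨fun l => if h : l ≠ a ∧ l ≠ b then w ⟨l, h⟩ else 0, by
    funext l
    exact dif_pos l.2⟩

theorem ext_res {a b : σ} {g h : MultilinearMap k (fun _ : {l : σ // l ≠ a ∧ l ≠ b} => T) W}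
    (hgh : ∀ v : σ → T, g (res a b v) = h (res a b v)) : g = h := by
  ext w
  obtain ⟨v, rfl⟩ := res_surj a b w
  exact hgh v

/-- the bilinear map given by two variables -/
def two {a b : σ} (hab : a ≠ b) (f : MultilinearMap k (fun _ : σ => T) W) (v : σ → T) :
    T →ₗ[k] T →ₗ[k] W :=
  LinearMap.mk₂ k (fun x y => f (Function.update (Function.update v a x) b y))
    (fun x x' y => by
      rw [Function.update_comm hab, MultilinearMap.map_update_add, Function.update_comm hab,
        Function.update_comm hab])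
    (fun c x y => by
      rw [Function.update_comm hab, MultilinearMap.map_update_smul, Function.update_comm hab])
    (fun x y y' => by rw [MultilinearMap.map_update_add])
    (fun c x y => by rw [MultilinearMap.map_update_smul])

theorem two_apply {a b : σ} (hab : a ≠ b) (f : MultilinearMap k (fun _ : σ => T) W) (v : σ → T)
    (x y : T) : two hab f v x y = f (Function.update (Function.update v a x) b y) := rfl

theorem ctr_indep {B : T →ₗ[k] T →ₗ[k] k} {ι' : Type} [Fintype ι'] {d d' : ι → T}
    {c c' : ι' → T} (hd : DP B d d') (hc : DP B c c') {a b : σ} (hab : a ≠ b)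
    (f : MultilinearMap k (fun _ : σ => T) W) : ctr hab c c' f = ctr hab d d' f := by
  refine ext_res fun v => ?_
  rw [ctr_res, ctr_res]
  exact casimir hd hc (two hab f v)

variable {Γ : Type} [Group Γ] (ρ : Representation k Γ T) (τ : Representation k Γ W)

theorem rho_cancel (s : Γ) (v : T) : ρ s⁻¹ (ρ s v) = v := by
  rw [← Module.End.mul_apply, ← map_mul, inv_mul_cancel, map_one]
  rfl

theorem rho_cancel' (s : Γ) (v : T) : ρ s (ρ s⁻¹ v) = v := by
  rw [← Module.End.mul_apply, ← map_mul, mul_inv_cancel, map_one]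
  rfl

/-- Equivariance of the contraction. -/
theorem ctr_act {B : T →ₗ[k] T →ₗ[k] k} {d d' : ι → T} (hd : DP B d d') {s : Γ} {c : k}
    (hc : c ≠ 0) (hB : ∀ u v, B (ρ s⁻¹ u) (ρ s⁻¹ v) = c * B u v) {a b : σ} (hab : a ≠ b)
    (f : MultilinearMap k (fun _ : σ => T) W) :
    ctr hab d d' (mulMap ρ τ σ s f) = c • mulMap ρ τ {l : σ // l ≠ a ∧ l ≠ b} s (ctr hab d d' f) := by
  have hc1 := hd.map hc hB (fun v => ⟨ρ s v, rho_cancel ρ s v⟩)
  have h1 : ctr hab d d' f = c⁻¹ • ctr hab (fun i => ρ s⁻¹ (d i)) (fun i => ρ s⁻¹ (d' i)) f := by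
    rw [← ctr_indep hd hc1]
    refine ext_res fun v => ?_
    rw [ctr_res, smul_apply, ctr_res, Finset.smul_sum]
    refine Finset.sum_congr rfl fun i _ => ?_
    rw [MultilinearMap.map_update_smul]
  rw [h1, map_smul, smul_smul, mul_inv_cancel₀ hc, one_smul]
  refine ext_res fun v => ?_
  rw [ctr_res, mulMap_apply]
  have h2 : (fun l => ρ s⁻¹ (res a b v l)) = res a b fun l => ρ s⁻¹ (v l) := rfl
  rw [h2, ctr_res, map_sum]
  refine Finset.sum_congr rfl fun i _ => ?_
  rw [mulMap_apply]
  congr 2
  funext l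
  by_cases hb : l = b
  · subst hb
    rw [Function.update_self, Function.update_self]
  rw [Function.update_of_ne hb, Function.update_of_ne hb]
  by_cases ha : l = a
  · subst ha
    rw [Function.update_self, Function.update_self]
  rw [Function.update_of_ne ha, Function.update_of_ne ha]

/-- Equivariance of the insertion. -/
theorem ins_act {B : T →ₗ[k] T →ₗ[k] k} {s : Γ} {c : k}
    (hB : ∀ u v, B (ρ s⁻¹ u) (ρ s⁻¹ v) = c * B u v) {a b : σ} (hab : a ≠ b)
    (g : MultilinearMap k (fun _ : {l : σ // l ≠ a ∧ l ≠ b} => T) W) :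
    mulMap ρ τ σ s (ins hab B g) = c • ins hab B (mulMap ρ τ {l : σ // l ≠ a ∧ l ≠ b} s g) := by
  ext v
  rw [mulMap_apply, ins_apply, map_smul, hB, smul_apply, ins_apply, smul_smul]
  rfl

variable [Fintype σ]

/-- The sum over all pairs of indices of: contract, then insert. -/
def KS (B : T →ₗ[k] T →ₗ[k] k) (d d' : ι → T) :
    Module.End k (MultilinearMap k (fun _ : σ => T) W) :=
  ∑ p : {p : σ × σ // p.1 ≠ p.2}, (ins p.2 B) ∘ₗ (ctr p.2 d d')

theorem KS_apply (B : T →ₗ[k] T →ₗ[k] k) (d d' : ι → T)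
    (f : MultilinearMap k (fun _ : σ => T) W) :
    KS B d d' f = ∑ p : {p : σ × σ // p.1 ≠ p.2}, ins p.2 B (ctr p.2 d d' f) := by
  unfold KS
  rw [LinearMap.sum_apply]
  rfl

theorem KS_act {B : T →ₗ[k] T →ₗ[k] k} {d d' : ι → T} (hd : DP B d d') {s : Γ} {c : k}
    (hc : c ≠ 0) (hB : ∀ u v, B (ρ s⁻¹ u) (ρ s⁻¹ v) = c * B u v)
    (f : MultilinearMap k (fun _ : σ => T) W) :
    KS B d d' (mulMap ρ τ σ s f) = mulMap ρ τ σ s (KS B d d' f) := by
  rw [KS_apply, KS_apply, map_sum]
  refine Finset.sum_congr rfl fun p _ => ?_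
  rw [ctr_act ρ τ hd hc hB, map_smul, ins_act ρ τ hB]

end slots

end

end Pool.Agent.V5helper93.SMP
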