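import Mathlib

/-!
# Traceless tensors and their components of extremal type

`κ` indexes a basis `e_x` of a quadratic space over a field `K` of characteristic zero, with
`Q(e_x, e_y) = 1` for `y = bar x` and `0` otherwise. A function `f` of `J : σ → κ` is the tensor with
coefficients `f J`. (Version of `TH164.GHC.Top` for general fields and index types of slots.)
-/

set_option autoImplicit false
set_option linter.unusedSectionVars false

open Finset Module

namespace Pool.Agent.V5helper93.SMP

noncomputable section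

variable {κ ι σ : Type} [Fintype κ] [DecidableEq κ] [DecidableEq ι] [Fintype σ] [DecidableEq σ]

/-- The elementary skew operators, acting on the slots in `S`. -/
def Fab (bar : κ → κ) (S : Finset (σ)) (x y : κ) {K : Type} [AddCommGroup K] (f : (σ → κ) → K) : (σ → κ) → K :=
  fun J => ∑ j ∈ S, ((if J j = x then f (Function.update J j (bar y)) else 0) -
    (if J j = y then f (Function.update J j (bar x)) else 0))

/-- homogeneous components -/
theorem trunc_mem {K : Type} [Field K] [CharZero K] {X : Type} [Fintype X] (M : Submodule K (X → K)) (w : X → ℤ)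
    (hM : ∀ f ∈ M, (fun J => (w J : K) * f J) ∈ M) (f : X → K) (hf : f ∈ M) (μ : ℤ) :
    (fun J => if w J = μ then f J else 0) ∈ M := by
  have h1 : ∀ s : Finset ℤ, μ ∉ s →
      (fun J => (∏ ν ∈ s, (((w J : K) - ν) / ((μ : K) - ν))) * f J) ∈ M := by
    intro s
    induction s using Finset.induction_on with
    | empty =>
      intro _
      simpa using hf
    | insert ν s hν ih =>
      intro hμ
      have h2 := ih (fun h => hμ (Finset.mem_insert_of_mem h))
      have h3 := hM _ h2
      have h4 : (fun J => (∏ ν ∈ insert ν s, (((w J : K) - ν) / ((μ : K) - ν))) * f J) =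
          ((μ : K) - ν)⁻¹ • ((fun J => (w J : K) *
            ((∏ ν ∈ s, (((w J : K) - ν) / ((μ : K) - ν))) * f J)) -
            (ν : K) • (fun J => (∏ ν ∈ s, (((w J : K) - ν) / ((μ : K) - ν))) * f J)) := by
        funext J
        rw [Finset.prod_insert hν]
        simp only [Pi.smul_apply, Pi.sub_apply, smul_eq_mul]
        ring
      rw [h4]
      exact M.smul_mem _ (M.sub_mem h3 (M.smul_mem _ h2))
  have h5 := h1 ((univ.image w).erase μ) (Finset.notMem_erase _ _)
  convert h5 using 1
  funext J
  by_cases hJ : w J = μ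
  · rw [if_pos hJ, Finset.prod_eq_one, one_mul]
    intro ν hν
    rw [hJ]
    apply div_self
    rw [sub_ne_zero]
    intro h
    exact (Finset.mem_erase.1 hν).1 (by exact_mod_cast h.symm)
  · rw [if_neg hJ, Finset.prod_eq_zero (i := w J), zero_mul]
    · exact Finset.mem_erase.2 ⟨hJ, Finset.mem_image_of_mem _ (Finset.mem_univ _)⟩
    · rw [sub_self, zero_div]

theorem stepC {bar : κ → κ} {c : κ → ι} {a : σ → ι} {S : Finset (σ)} {H : Finset κ}
    (hc : ∀ x, c (bar x) = c x) {φ φ' : κ} (hφ : φ ∈ H) (hφ' : φ' ∈ H)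
    (h1 : bar φ = φ') (h2 : bar φ' = φ) (hne : φ ≠ φ') {f : (σ → κ) → ℂ}
    (hs : ∀ J, f J ≠ 0 → ∀ j ∈ S, J j ∈ H ∧ c (J j) = a j)
    (ht : ∀ j ∈ S, ∀ k ∈ S, j ≠ k → ∀ J,
      ∑ x ∈ H, f (Function.update (Function.update J j x) k (bar x)) = 0)
    (hX : ∀ w ∈ H, c w = c φ → w ≠ φ → w ≠ φ' → Fab bar S φ w f = 0)
    (hcard : 2 * (S.filter fun j => a j = c φ).card < (H.filter fun x => c x = c φ).card) :
    ∀ J, (∃ j ∈ S, J j = φ') → f J = 0 := by
  have hcφ : c φ' = c φ := by rw [← h1, hc]
  intro J₁ hJ₁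
  by_contra hne1
  obtain ⟨J, hJB, hmax⟩ := Finset.exists_max_image
    (univ.filter fun J : σ → κ => ∃ j ∈ S, J j = φ') (fun J => ‖f J‖)
    ⟨J₁, Finset.mem_filter.2 ⟨Finset.mem_univ _, hJ₁⟩⟩
  have hJ0 : 0 < ‖f J‖ := lt_of_lt_of_le (norm_pos_iff.2 hne1)
    (hmax J₁ (Finset.mem_filter.2 ⟨Finset.mem_univ _, hJ₁⟩))
  have hfJ : f J ≠ 0 := norm_pos_iff.1 hJ0
  obtain ⟨j₀, hj₀, hJj⟩ := (Finset.mem_filter.1 hJB).2
  have ha0 : a j₀ = c φ := by rw [← (hs J hfJ j₀ hj₀).2, hJj, hcφ]
  obtain ⟨H', hH'⟩ : ∃ H', H' = H.filter (fun w => c w = c φ ∧ w ≠ φ ∧ w ≠ φ') := ⟨_, rfl⟩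
  have hmemH' : ∀ w, w ∈ H' ↔ w ∈ H ∧ c w = c φ ∧ w ≠ φ ∧ w ≠ φ' := by
    intro w; rw [hH', Finset.mem_filter]
  have hupd : Function.update J j₀ φ' = J := by rw [← hJj, Function.update_eq_self]
  -- the basic relation
  have hsum : ∑ j ∈ S, ∑ w ∈ H', ((if Function.update J j₀ w j = φ then
      f (Function.update (Function.update J j₀ w) j (bar w)) else 0) -
      (if Function.update J j₀ w j = w then
      f (Function.update (Function.update J j₀ w) j φ') else 0)) = 0 := by
    rw [Finset.sum_comm]
    refine Finset.sum_eq_zero fun w hw => ?_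
    obtain ⟨w1, w2, w3, w4⟩ := (hmemH' w).1 hw
    have h3 := congrFun (hX w w1 w2 w3 w4) (Function.update J j₀ w)
    rw [Fab, h1] at h3
    exact h3
  rw [← Finset.add_sum_erase S _ hj₀] at hsum
  have e0 : ∑ w ∈ H', ((if Function.update J j₀ w j₀ = φ then
      f (Function.update (Function.update J j₀ w) j₀ (bar w)) else 0) -
      (if Function.update J j₀ w j₀ = w then
      f (Function.update (Function.update J j₀ w) j₀ φ') else 0)) = -((H'.card : ℂ) * f J) := by
    rw [Finset.sum_congr rfl (g := fun _ => -f J), Finset.sum_const, nsmul_eq_mul, mul_neg]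
    intro w hw
    rw [Function.update_self, if_neg ((hmemH' w).1 hw).2.2.1, if_pos rfl, Function.update_idem,
      hupd, zero_sub]
  have e1 : ∀ j ∈ S.erase j₀, ∑ w ∈ H', ((if Function.update J j₀ w j = φ then
      f (Function.update (Function.update J j₀ w) j (bar w)) else 0) -
      (if Function.update J j₀ w j = w then
      f (Function.update (Function.update J j₀ w) j φ') else 0)) =
      -((if J j = φ then f J else 0) + (if J j = φ ∨ J j ∈ H' then
      f (Function.update (Function.update J j₀ (J j)) j φ') else 0)) := by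
    intro j hj
    obtain ⟨hjj, hjS⟩ := Finset.mem_erase.1 hj
    simp only [Function.update_of_ne hjj]
    rw [Finset.sum_sub_distrib]
    have e2 : ∑ w ∈ H', (if J j = w then
        f (Function.update (Function.update J j₀ w) j φ') else 0) =
        if J j ∈ H' then f (Function.update (Function.update J j₀ (J j)) j φ') else 0 := by
      rw [Finset.sum_ite_eq]
    rw [e2]
    by_cases hjφ : J j = φ
    · have hjH : J j ∉ H' := fun h => ((hmemH' _).1 h).2.2.1 hjφ
      rw [if_neg hjH, if_pos hjφ, if_pos (Or.inl hjφ), sub_zero]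
      simp only [hjφ, if_true]
      have h3 := ht j₀ hj₀ j hjS (Ne.symm hjj) J
      have h4 : ∑ x ∈ H, f (Function.update (Function.update J j₀ x) j (bar x)) =
          ∑ w ∈ H', f (Function.update (Function.update J j₀ w) j (bar w)) +
          (f (Function.update (Function.update J j₀ φ) j φ') + f J) := by
        have h5 : H' ∪ {φ, φ'} ⊆ H := by
          intro x hx
          rcases Finset.mem_union.1 hx with hx | hx
          · exact ((hmemH' x).1 hx).1
          · rcases Finset.mem_insert.1 hx with rfl | hx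
            · exact hφ
            · rw [Finset.mem_singleton.1 hx]; exact hφ'
        rw [← Finset.sum_subset h5, Finset.sum_union, Finset.sum_pair hne, h1, h2]
        · congr 2
          rw [hupd]
          congr 1
          rw [← hjφ, Function.update_eq_self]
        · rw [Finset.disjoint_left]
          intro x hx hx'
          obtain ⟨-, -, x3, x4⟩ := (hmemH' x).1 hx
          rcases Finset.mem_insert.1 hx' with h | h
          · exact x3 h
          · exact x4 (Finset.mem_singleton.1 h)
        · intro x hx hx'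
          by_contra h6
          have h7 := (hs _ h6 j₀ hj₀).2
          rw [Function.update_of_ne (Ne.symm hjj), Function.update_self, ha0] at h7
          apply hx'
          by_cases h8 : x = φ
          · rw [h8]; simp
          by_cases h9 : x = φ'
          · rw [h9]; simp
          exact Finset.mem_union_left _ ((hmemH' x).2 ⟨hx, h7, h8, h9⟩)
      rw [h3] at h4
      have h5 := eq_neg_of_add_eq_zero_left h4.symm
      rw [h5]
      ring
    · simp only [hjφ, if_false, Finset.sum_const_zero, false_or]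
      ring
  rw [e0, Finset.sum_congr rfl e1, Finset.sum_neg_distrib, ← neg_add, neg_eq_zero,
    Finset.sum_add_distrib, ← add_assoc, ← Finset.sum_filter, Finset.sum_const,
    nsmul_eq_mul, ← add_mul] at hsum
  have h3 : ((H'.card : ℂ) + (((S.erase j₀).filter fun j => J j = φ).card : ℂ)) * f J =
      -∑ j ∈ S.erase j₀, (if J j = φ ∨ J j ∈ H' then
      f (Function.update (Function.update J j₀ (J j)) j φ') else 0) :=
    eq_neg_of_add_eq_zero_left hsum
  have h4 := congrArg norm h3
  rw [norm_mul, norm_neg] at h4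
  have h5 : ‖∑ j ∈ S.erase j₀, (if J j = φ ∨ J j ∈ H' then
      f (Function.update (Function.update J j₀ (J j)) j φ') else 0)‖ ≤
      (((S.erase j₀).filter fun j => a j = c φ).card : ℝ) * ‖f J‖ := by
    refine (norm_sum_le _ _).trans ?_
    rw [← nsmul_eq_mul, ← Finset.sum_const, Finset.sum_filter]
    refine Finset.sum_le_sum fun j hj => ?_
    obtain ⟨hjj, hjS⟩ := Finset.mem_erase.1 hj
    by_cases h6 : J j = φ ∨ J j ∈ H'
    · have h7 : c (J j) = c φ := by
        rcases h6 with h | h
        · rw [h]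
        · exact ((hmemH' _).1 h).2.1
      rw [if_pos h6, if_pos (by rw [← (hs J hfJ j hjS).2, h7])]
      refine hmax _ (Finset.mem_filter.2 ⟨Finset.mem_univ _, j, hjS, ?_⟩)
      rw [Function.update_self]
    · rw [if_neg h6, norm_zero]
      split_ifs
      · exact hJ0.le
      · exact le_rfl
  rw [← h4] at h5
  have h6 := le_of_mul_le_mul_right h5 hJ0
  have h7 : ‖((H'.card : ℂ) + (((S.erase j₀).filter fun j => J j = φ).card : ℂ))‖ =
      (H'.card : ℝ) + (((S.erase j₀).filter fun j => J j = φ).card : ℝ) := by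
    rw [← Nat.cast_add, ← Nat.cast_add]
    exact Complex.norm_natCast _
  rw [h7] at h6
  have h8 : H'.card ≤ ((S.erase j₀).filter fun j => a j = c φ).card := by
    have h9 : (H'.card : ℝ) ≤ (((S.erase j₀).filter fun j => a j = c φ).card : ℝ) := by
      refine le_trans ?_ h6
      exact le_add_of_nonneg_right (Nat.cast_nonneg _)
    exact_mod_cast h9
  have h9 : ((S.erase j₀).filter fun j => a j = c φ).card + 1 =
      (S.filter fun j => a j = c φ).card := by
    rw [Finset.filter_erase, Finset.card_erase_add_one]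
    exact Finset.mem_filter.2 ⟨hj₀, ha0⟩
  have h10 : (H.filter fun x => c x = c φ).card = H'.card + 2 := by
    have h11 : H.filter (fun x => c x = c φ) = H' ∪ {φ, φ'} := by
      ext x
      simp only [Finset.mem_filter, Finset.mem_union, hmemH', Finset.mem_insert,
        Finset.mem_singleton]
      constructor
      · rintro ⟨x1, x2⟩
        by_cases h8 : x = φ
        · exact Or.inr (Or.inl h8)
        by_cases h9 : x = φ'
        · exact Or.inr (Or.inr h9)
        exact Or.inl ⟨x1, x2, h8, h9⟩
      · rintro (⟨x1, x2, -, -⟩ | rfl | rfl)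
        · exact ⟨x1, x2⟩
        · exact ⟨hφ, rfl⟩
        · exact ⟨hφ', hcφ⟩
    rw [h11, Finset.card_union_of_disjoint, Finset.card_pair hne]
    rw [Finset.disjoint_left]
    intro x hx hx'
    obtain ⟨-, -, x3, x4⟩ := (hmemH' x).1 hx
    rcases Finset.mem_insert.1 hx' with h | h
    · exact x3 h
    · exact x4 (Finset.mem_singleton.1 h)
  omega


theorem Fab_map {K L : Type} [AddCommGroup K] [AddCommGroup L] (l : K →+ L) (bar : κ → κ)
    (S : Finset σ) (x y : κ) (f : (σ → κ) → K) (J : σ → κ) :
    Fab bar S x y (fun J => l (f J)) J = l (Fab bar S x y f J) := by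
  unfold Fab
  rw [map_sum]
  refine Finset.sum_congr rfl fun j _ => ?_
  rw [map_sub]
  congr 1
  · split_ifs
    · rfl
    · rw [map_zero]
  · split_ifs
    · rfl
    · rw [map_zero]

/-- the functionals with values in the complex numbers -/
def toC {K : Type} [Field K] [CharZero K] (l : K →ₗ[ℚ] ℚ) : K →+ ℂ :=
  (algebraMap ℚ ℂ).toAddMonoidHom.comp l.toAddMonoidHom

theorem toC_zero {K : Type} [Field K] [CharZero K] (x : K) (h : ∀ l : K →ₗ[ℚ] ℚ, toC l x = 0) :
    x = 0 := by
  refine (Module.forall_dual_apply_eq_zero_iff ℚ x).1 fun l => ?_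
  exact (algebraMap ℚ ℂ).injective (by rw [map_zero]; exact h l)

theorem stepA {K : Type} [Field K] [CharZero K] {bar : κ → κ} {c : κ → ι} {a : σ → ι}
    {S : Finset σ} {H : Finset κ}
    (hc : ∀ x, c (bar x) = c x) {φ φ' : κ} (hφ : φ ∈ H) (hφ' : φ' ∈ H)
    (h1 : bar φ = φ') (h2 : bar φ' = φ) (hne : φ ≠ φ') {f : (σ → κ) → K}
    (hs : ∀ J, f J ≠ 0 → ∀ j ∈ S, J j ∈ H ∧ c (J j) = a j)
    (ht : ∀ j ∈ S, ∀ k ∈ S, j ≠ k → ∀ J,
      ∑ x ∈ H, f (Function.update (Function.update J j x) k (bar x)) = 0)
    (hX : ∀ w ∈ H, c w = c φ → w ≠ φ → w ≠ φ' → Fab bar S φ w f = 0)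
    (hcard : 2 * (S.filter fun j => a j = c φ).card < (H.filter fun x => c x = c φ).card) :
    ∀ J, (∃ j ∈ S, J j = φ') → f J = 0 := by
  intro J hJ
  refine toC_zero _ fun l => ?_
  refine stepC (f := fun J => toC l (f J)) hc hφ hφ' h1 h2 hne (fun J hJ => hs J fun h0 => ?_)
    (fun j hj k hk hjk J => ?_) (fun w hw hw1 hw2 hw3 => ?_) hcard J hJ
  · exact hJ (by rw [h0, map_zero])
  · rw [← map_sum, ht j hj k hk hjk J, map_zero]
  · funext J
    rw [Fab_map, hX w hw hw1 hw2 hw3]
    exact map_zero _

/-- the weight of an index -/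
def wt (φ φ' : κ) (S : Finset (σ)) (J : σ → κ) : ℤ :=
  ∑ j ∈ S, ((if J j = φ then 1 else 0) - (if J j = φ' then 1 else 0))

theorem wt_update {φ φ' : κ} {S : Finset (σ)} (J : σ → κ) {j : σ} (hj : j ∈ S) (y : κ) :
    wt φ φ' S (Function.update J j y) = wt φ φ' S J -
      ((if J j = φ then 1 else 0) - (if J j = φ' then 1 else 0)) +
      ((if y = φ then 1 else 0) - (if y = φ' then 1 else 0)) := by
  unfold wt
  rw [← Finset.add_sum_erase S _ hj, ← Finset.add_sum_erase S _ hj, Function.update_self]
  have h1 : ∑ x ∈ S.erase j, (((if Function.update J j y x = φ then (1 : ℤ) else 0)) -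
      (if Function.update J j y x = φ' then 1 else 0)) =
      ∑ x ∈ S.erase j, ((if J x = φ then 1 else 0) - (if J x = φ' then 1 else 0)) := by
    refine Finset.sum_congr rfl fun x hx => ?_
    rw [Function.update_of_ne (Finset.mem_erase.1 hx).1]
  rw [h1]
  ring

theorem Fab_diag {K : Type} [Field K] {bar : κ → κ} {φ φ' : κ} {S : Finset (σ)} (h1 : bar φ = φ')
    (h2 : bar φ' = φ) (f : (σ → κ) → K) :
    Fab bar S φ φ' f = fun J => (wt φ φ' S J : K) * f J := by
  funext J
  unfold Fab wt
  push_cast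
  rw [Finset.sum_mul]
  refine Finset.sum_congr rfl fun j _ => ?_
  rw [h1, h2, sub_mul, ite_mul, ite_mul, one_mul, zero_mul]
  congr 1
  · split_ifs with h
    · rw [← h, Function.update_eq_self]
    · rfl
  · split_ifs with h
    · rw [← h, Function.update_eq_self]
    · rfl

/-- The main lemma: a nonzero invariant space of traceless tensors contains a tensor with a nonzero
coefficient at an index all of whose entries satisfy `P`. -/
theorem top {K : Type} [Field K] [CharZero K] (bar : κ → κ) (hbar : ∀ x, bar (bar x) = x) (c : κ → ι) (hc : ∀ x, c (bar x) = c x)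
    (P : κ → Prop) [DecidablePred P] (hP : ∀ x, P x → ¬ P (bar x)) (a : σ → ι) :
    ∀ (N : ℕ) (S : Finset (σ)), S.card = N → ∀ H : Finset κ, (∀ x ∈ H, bar x ∈ H) →
      ∀ M : Submodule K ((σ → κ) → K),
      (∀ f ∈ M, ∀ J J', (∀ j ∈ S, J j = J' j) → f J = f J') →
      (∀ f ∈ M, ∀ J, f J ≠ 0 → ∀ j ∈ S, J j ∈ H ∧ c (J j) = a j) →
      (∀ f ∈ M, ∀ j ∈ S, ∀ k ∈ S, j ≠ k → ∀ J,
        ∑ x ∈ H, f (Function.update (Function.update J j x) k (bar x)) = 0) →
      (∀ f ∈ M, ∀ x ∈ H, ∀ y ∈ H, c x = c y → Fab bar S x y f ∈ M) →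
      (∀ j ∈ S, 2 * (S.filter fun k => a k = a j).card < (H.filter fun x => c x = a j).card) →
      (∀ j ∈ S, (S.filter fun k => a k = a j).card ≤
        (H.filter fun x => c x = a j ∧ P x).card) →
      M ≠ ⊥ → ∃ f ∈ M, ∃ J, (∀ j ∈ S, P (J j)) ∧ f J ≠ 0 := by
  intro N
  induction N using Nat.strong_induction_on with
  | _ N ih =>
    intro S hSN H hbarH M g1 g2 g3 g4 g5 g6 g7
    obtain ⟨f₀, hf₀, hne₀⟩ := Submodule.exists_mem_ne_zero_of_ne_bot g7
    rcases S.eq_empty_or_nonempty with rfl | ⟨j₀, hj₀⟩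
    · obtain ⟨J, hJ⟩ := Function.ne_iff.1 hne₀
      exact ⟨f₀, hf₀, J, fun j hj => absurd hj (Finset.notMem_empty _), hJ⟩
    -- the vector `φ`
    have hpos : 0 < (H.filter fun x => c x = a j₀ ∧ P x).card := by
      refine lt_of_lt_of_le ?_ (g6 j₀ hj₀)
      exact Finset.card_pos.2 ⟨j₀, Finset.mem_filter.2 ⟨hj₀, rfl⟩⟩
    obtain ⟨φ, hφ⟩ := Finset.card_pos.1 hpos
    obtain ⟨hφH, hφc, hφP⟩ := Finset.mem_filter.1 hφ
    obtain ⟨φ', hφ'⟩ : ∃ φ', bar φ = φ' := ⟨_, rfl⟩
    have hφ'' : bar φ' = φ := by rw [← hφ', hbar]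
    have hφ'H : φ' ∈ H := by rw [← hφ']; exact hbarH _ hφH
    have hφ'P : ¬ P φ' := by rw [← hφ']; exact hP _ hφP
    have hne : φ ≠ φ' := fun h => hφ'P (by rw [← h]; exact hφP)
    have hφ'c : c φ' = a j₀ := by rw [← hφ', hc, hφc]
    -- homogeneous elements
    let Mw : ℤ → Submodule K ((σ → κ) → K) := fun μ =>
      { carrier := {f | f ∈ M ∧ ∀ J, f J ≠ 0 → wt φ φ' S J = μ}
        zero_mem' := ⟨M.zero_mem, fun J h => absurd rfl h⟩
        add_mem' := by
          rintro f g ⟨hf, hf'⟩ ⟨hg, hg'⟩
          refine ⟨M.add_mem hf hg, fun J hJ => ?_⟩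
          by_cases h : f J = 0
          · exact hg' J (by rwa [Pi.add_apply, h, zero_add] at hJ)
          · exact hf' J h
        smul_mem' := by
          rintro z f ⟨hf, hf'⟩
          refine ⟨M.smul_mem z hf, fun J hJ => hf' J fun h => hJ ?_⟩
          rw [Pi.smul_apply, h, smul_zero] }
    have hMw : ∀ μ f, f ∈ Mw μ ↔ f ∈ M ∧ ∀ J, f J ≠ 0 → wt φ φ' S J = μ := fun μ f => Iff.rfl
    -- the maximal weight
    obtain ⟨μ, ⟨f₁, hf₁, hne₁⟩, hμmax⟩ : ∃ μ : ℤ, (∃ f ∈ Mw μ, f ≠ 0) ∧
        ∀ ν : ℤ, (∃ f ∈ Mw ν, f ≠ 0) → ν ≤ μ := by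
      apply Int.exists_greatest_of_bdd
      · refine ⟨S.card, ?_⟩
        rintro ν ⟨f, hf, hf0⟩
        obtain ⟨J, hJ⟩ := Function.ne_iff.1 hf0
        rw [← ((hMw ν f).1 hf).2 J hJ]
        unfold wt
        refine (Finset.sum_le_card_nsmul S _ 1 ?_).trans (le_of_eq (by simp))
        intro j _
        split_ifs <;> simp
      · obtain ⟨J, hJ⟩ := Function.ne_iff.1 hne₀
        refine ⟨wt φ φ' S J, fun K => if wt φ φ' S K = wt φ φ' S J then f₀ K else 0, ?_, ?_⟩
        · refine ⟨trunc_mem M (wt φ φ' S) ?_ f₀ hf₀ _, ?_⟩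
          · intro f hf
            have h1 := g4 f hf φ hφH φ' hφ'H (by rw [hφc, hφ'c])
            rwa [Fab_diag hφ' hφ''] at h1
          · intro K hK
            by_contra h
            exact hK (if_neg h)
        · intro h
          have h1 := congrFun h J
          simp only [if_true] at h1
          exact hJ h1
    -- raising operators kill
    have hraise : ∀ f ∈ Mw μ, ∀ w ∈ H, c w = c φ → w ≠ φ → w ≠ φ' → Fab bar S φ w f = 0 := by
      intro f hf w hw hwc hw1 hw2
      by_contra hcon
      have h1 : Fab bar S φ w f ∈ Mw (μ + 1) := by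
        refine ⟨g4 f hf.1 φ hφH w hw hwc.symm, fun J hJ => ?_⟩
        unfold Fab at hJ
        obtain ⟨j, hj, hjne⟩ := Finset.exists_ne_zero_of_sum_ne_zero hJ
        have hbw1 : bar w ≠ φ := fun h => hw2 (by rw [← hφ', ← h, hbar])
        have hbw2 : bar w ≠ φ' := fun h => hw1 (by rw [← hφ'', ← h, hbar])
        by_cases hjφ : J j = φ
        · rw [if_pos hjφ, if_neg (fun h => hw1 (by rw [← h, hjφ])), sub_zero] at hjne
          have h2 := hf.2 _ hjne
          rw [wt_update J hj, if_pos hjφ, if_neg hbw1, if_neg hbw2,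
            if_neg (fun h => hne (by rw [← hjφ, h]))] at h2
          omega
        · rw [if_neg hjφ, zero_sub, neg_ne_zero] at hjne
          have hjw : J j = w := by
            by_contra h
            exact hjne (if_neg h)
          rw [if_pos hjw, hφ'] at hjne
          have h2 := hf.2 _ hjne
          rw [wt_update J hj, if_neg hjφ, if_neg (fun h => hw2 (by rw [← h, hjw])),
            if_neg (Ne.symm hne), if_pos rfl] at h2
          omega
      have h2 := hμmax (μ + 1) ⟨_, h1, hcon⟩
      omega
    have hA : ∀ f ∈ Mw μ, ∀ J, (∃ j ∈ S, J j = φ') → f J = 0 := by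
      intro f hf
      refine stepA (bar := bar) (c := c) (a := a) hc hφH hφ'H hφ' hφ'' hne (g2 f hf.1)
        (g3 f hf.1) (hraise f hf) ?_
      rw [hφc]
      exact g5 j₀ hj₀
    -- some slot is `φ`
    have hB : ∀ f ∈ Mw μ, ∀ J, f J ≠ 0 → ∃ j ∈ S, J j = φ := by
      intro f hf J hJ
      by_contra hcon
      push Not at hcon
      obtain ⟨y1, y2⟩ := g2 f hf.1 J hJ j₀ hj₀
      have y3 : J j₀ ≠ φ' := fun h => hJ (hA f hf J ⟨j₀, hj₀, h⟩)
      have y4 := hcon j₀ hj₀
      have h1 : bar (J j₀) ≠ φ := fun h => y3 (by rw [← hφ', ← h, hbar])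
      have h2 : bar (J j₀) ≠ φ' := fun h => y4 (by rw [← hφ'', ← h, hbar])
      have h3 := congrFun (hraise f hf (bar (J j₀)) (hbarH _ y1) (by rw [hc, y2, hφc]) h1 h2)
        (Function.update J j₀ φ)
      unfold Fab at h3
      rw [Finset.sum_eq_single j₀] at h3
      · rw [Function.update_self, if_pos rfl, if_neg (Ne.symm h1), hbar, Function.update_idem,
          Function.update_eq_self, sub_zero] at h3
        exact hJ h3
      · intro j hj hjj
        rw [Function.update_of_ne hjj, if_neg (hcon j hj), zero_sub, neg_eq_zero]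
        split_ifs
        · exact hA f hf _ ⟨j, hj, by rw [Function.update_self, hφ']⟩
        · rfl
      · intro h
        exact absurd hj₀ h
    -- the number of slots equal to `φ`
    have hwt : ∀ f ∈ Mw μ, ∀ J, f J ≠ 0 → ((S.filter fun j => J j = φ).card : ℤ) = μ := by
      intro f hf J hJ
      rw [← hf.2 J hJ]
      unfold wt
      rw [Finset.card_filter]
      push_cast
      refine Finset.sum_congr rfl fun j hj => ?_
      rw [if_neg (fun h => hJ (hA f hf J ⟨j, hj, h⟩)), sub_zero]
    obtain ⟨J₀, hJ₀⟩ := Function.ne_iff.1 hne₁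
    obtain ⟨A, hA0⟩ : ∃ A, A = S.filter fun j => J₀ j = φ := ⟨_, rfl⟩
    have hAS : A ⊆ S := by rw [hA0]; exact Finset.filter_subset _ _
    have hAcard : (A.card : ℤ) = μ := by rw [hA0]; exact hwt f₁ hf₁ J₀ hJ₀
    have hAa : ∀ j ∈ A, a j = a j₀ := by
      intro j hj
      rw [hA0] at hj
      obtain ⟨hj1, hj2⟩ := Finset.mem_filter.1 hj
      rw [← (g2 f₁ hf₁.1 J₀ hJ₀ j hj1).2, hj2, hφc]
    obtain ⟨j₁, hj₁⟩ : A.Nonempty := by
      obtain ⟨j, hj, hj'⟩ := hB f₁ hf₁ J₀ hJ₀
      exact ⟨j, by rw [hA0]; exact Finset.mem_filter.2 ⟨hj, hj'⟩⟩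
    -- filling
    obtain ⟨fil, hfil⟩ : ∃ fil : (σ → κ) → σ → κ, fil = fun J j => if j ∈ A then φ else J j :=
      ⟨_, rfl⟩
    have fil1 : ∀ J j, j ∈ A → fil J j = φ := by
      intro J j hj; rw [hfil]; exact if_pos hj
    have fil2 : ∀ J j, j ∉ A → fil J j = J j := by
      intro J j hj; rw [hfil]; exact if_neg hj
    have fil3 : ∀ J j, j ∉ A → ∀ y, fil (Function.update J j y) = Function.update (fil J) j y := by
      intro J j hj y
      funext k
      by_cases hk : k = j
      · subst hk
        rw [Function.update_self, fil2 _ _ hj, Function.update_self]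
      · rw [Function.update_of_ne hk]
        by_cases hkA : k ∈ A
        · rw [fil1 _ _ hkA, fil1 _ _ hkA]
        · rw [fil2 _ _ hkA, fil2 _ _ hkA, Function.update_of_ne hk]
    let res : ((σ → κ) → K) →ₗ[K] ((σ → κ) → K) :=
      { toFun := fun f J => f (fil J)
        map_add' := fun _ _ => rfl
        map_smul' := fun _ _ => rfl }
    have hres : ∀ f J, res f J = f (fil J) := fun _ _ => rfl
    obtain ⟨H', hH'⟩ : ∃ H', H' = (H.erase φ).erase φ' := ⟨_, rfl⟩
    have hmemH' : ∀ x, x ∈ H' ↔ x ∈ H ∧ x ≠ φ ∧ x ≠ φ' := by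
      intro x
      rw [hH', Finset.mem_erase, Finset.mem_erase]
      tauto
    have hSA : (S \ A).card < N := by
      rw [← hSN]
      exact Finset.card_lt_card (Finset.sdiff_ssubset hAS ⟨j₁, hj₁⟩)
    -- outside of `A` there is no `φ`
    have hout : ∀ f ∈ Mw μ, ∀ J, f (fil J) ≠ 0 → ∀ j ∈ S \ A, J j ≠ φ := by
      intro f hf J hJ j hj hjφ
      obtain ⟨hjS, hjA⟩ := Finset.mem_sdiff.1 hj
      have h1 := hwt f hf _ hJ
      have h2 : insert j A ⊆ S.filter fun j => fil J j = φ := by
        intro k hk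
        rcases Finset.mem_insert.1 hk with rfl | hk
        · exact Finset.mem_filter.2 ⟨hjS, by rw [fil2 _ _ hjA, hjφ]⟩
        · exact Finset.mem_filter.2 ⟨hAS hk, fil1 _ _ hk⟩
      have h3 := Finset.card_le_card h2
      rw [Finset.card_insert_of_notMem hjA] at h3
      omega
    obtain ⟨g, hg, J, hJ1, hJ2⟩ := ih (S \ A).card hSA (S \ A) rfl H' (by
      intro x hx
      obtain ⟨x1, x2, x3⟩ := (hmemH' x).1 hx
      refine (hmemH' _).2 ⟨hbarH x x1, fun h => x3 ?_, fun h => x2 ?_⟩
      · rw [← hφ', ← h, hbar]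
      · rw [← hφ'', ← h, hbar]) ((Mw μ).map res) (by
      rintro _ ⟨f, hf, rfl⟩ J J' hJJ
      rw [hres, hres]
      refine g1 f hf.1 _ _ fun j hj => ?_
      by_cases hjA : j ∈ A
      · rw [fil1 _ _ hjA, fil1 _ _ hjA]
      · rw [fil2 _ _ hjA, fil2 _ _ hjA]
        exact hJJ j (Finset.mem_sdiff.2 ⟨hj, hjA⟩)) (by
      rintro _ ⟨f, hf, rfl⟩ J hJ j hj
      rw [hres] at hJ
      obtain ⟨hjS, hjA⟩ := Finset.mem_sdiff.1 hj
      have h1 := g2 f hf.1 _ hJ j hjS
      rw [fil2 _ _ hjA] at h1
      refine ⟨(hmemH' _).2 ⟨h1.1, hout f hf J hJ j hj, fun h => ?_⟩, h1.2⟩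
      exact hJ (hA f hf _ ⟨j, hjS, by rw [fil2 _ _ hjA, h]⟩)) (by
      rintro _ ⟨f, hf, rfl⟩ j hj k hk hjk J
      obtain ⟨hjS, hjA⟩ := Finset.mem_sdiff.1 hj
      obtain ⟨hkS, hkA⟩ := Finset.mem_sdiff.1 hk
      have h1 : ∀ x, res f (Function.update (Function.update J j x) k (bar x)) =
          f (Function.update (Function.update (fil J) j x) k (bar x)) := by
        intro x
        rw [hres, fil3 _ _ hkA, fil3 _ _ hjA]
      simp only [h1]
      have h2 := g3 f hf.1 j hjS k hkS hjk (fil J)
      rw [← Finset.add_sum_erase H _ hφH, ← Finset.add_sum_erase (H.erase φ) _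
        (Finset.mem_erase.2 ⟨Ne.symm hne, hφ'H⟩), ← hH', hφ', hφ''] at h2
      rw [hA f hf (Function.update (Function.update (fil J) j φ) k φ')
        ⟨k, hkS, Function.update_self _ _ _⟩, zero_add,
        hA f hf (Function.update (Function.update (fil J) j φ') k φ)
        ⟨j, hjS, by rw [Function.update_of_ne hjk, Function.update_self]⟩, zero_add] at h2
      exact h2) (by
      rintro _ ⟨f, hf, rfl⟩ x hx y hy hxy
      obtain ⟨x1, x2, x3⟩ := (hmemH' x).1 hx
      obtain ⟨y1, y2, y3⟩ := (hmemH' y).1 hy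
      have hbx1 : bar x ≠ φ := fun h => x3 (by rw [← hφ', ← h, hbar])
      have hbx2 : bar x ≠ φ' := fun h => x2 (by rw [← hφ'', ← h, hbar])
      have hby1 : bar y ≠ φ := fun h => y3 (by rw [← hφ', ← h, hbar])
      have hby2 : bar y ≠ φ' := fun h => y2 (by rw [← hφ'', ← h, hbar])
      refine ⟨Fab bar S x y f, ⟨g4 f hf.1 x x1 y y1 hxy, fun J hJ => ?_⟩, ?_⟩
      · unfold Fab at hJ
        obtain ⟨j, hj, hjne⟩ := Finset.exists_ne_zero_of_sum_ne_zero hJ
        by_cases hjx : J j = x ∧ f (Function.update J j (bar y)) ≠ 0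
        · have h2 := hf.2 _ hjx.2
          rw [wt_update J hj, hjx.1, if_neg hby1, if_neg hby2, if_neg x2, if_neg x3] at h2
          omega
        · have h3 : (if J j = x then f (Function.update J j (bar y)) else 0) = 0 := by
            split_ifs with h
            · by_contra h4
              exact hjx ⟨h, h4⟩
            · rfl
          rw [h3, zero_sub, neg_ne_zero] at hjne
          have hjy : J j = y := by
            by_contra h
            exact hjne (if_neg h)
          rw [if_pos hjy] at hjne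
          have h2 := hf.2 _ hjne
          rw [wt_update J hj, hjy, if_neg hbx1, if_neg hbx2, if_neg y2, if_neg y3] at h2
          omega
      · funext J
        rw [hres]
        unfold Fab
        have hsub : S \ A ⊆ S := Finset.sdiff_subset
        rw [← Finset.sum_subset hsub]
        · refine Finset.sum_congr rfl fun j hj => ?_
          obtain ⟨hjS, hjA⟩ := Finset.mem_sdiff.1 hj
          rw [fil2 _ _ hjA, hres, hres, fil3 _ _ hjA, fil3 _ _ hjA]
        · intro j hj hj'
          have hjA : j ∈ A := by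
            by_contra h
            exact hj' (Finset.mem_sdiff.2 ⟨hj, h⟩)
          rw [fil1 _ _ hjA, if_neg (Ne.symm x2), if_neg (Ne.symm y2), sub_zero]) (by
      intro j hj
      obtain ⟨hjS, hjA⟩ := Finset.mem_sdiff.1 hj
      have h1 := g5 j hjS
      by_cases hja : a j = a j₀
      · have h2 : (H.filter fun x => c x = a j).card = (H'.filter fun x => c x = a j).card + 2 := by
          have h11 : H.filter (fun x => c x = a j) =
              insert φ (insert φ' (H'.filter fun x => c x = a j)) := by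
            ext x
            simp only [Finset.mem_filter, Finset.mem_insert, hmemH']
            constructor
            · rintro ⟨z1, z2⟩
              by_cases h8 : x = φ
              · exact Or.inl h8
              by_cases h9 : x = φ'
              · exact Or.inr (Or.inl h9)
              exact Or.inr (Or.inr ⟨⟨z1, h8, h9⟩, z2⟩)
            · rintro (rfl | rfl | ⟨⟨z1, -, -⟩, z2⟩)
              · exact ⟨hφH, by rw [hφc, hja]⟩
              · exact ⟨hφ'H, by rw [hφ'c, hja]⟩
              · exact ⟨z1, z2⟩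
          rw [h11, Finset.card_insert_of_notMem, Finset.card_insert_of_notMem]
          · intro h
            exact ((hmemH' _).1 (Finset.mem_filter.1 h).1).2.2 rfl
          · intro h
            rcases Finset.mem_insert.1 h with h | h
            · exact hne h
            · exact ((hmemH' _).1 (Finset.mem_filter.1 h).1).2.1 rfl
        have h3 : ((S \ A).filter fun k => a k = a j).card + 1 ≤
            (S.filter fun k => a k = a j).card := by
          rw [Nat.succ_le_iff]
          apply Finset.card_lt_card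
          rw [Finset.ssubset_iff_of_subset (Finset.filter_subset_filter _ Finset.sdiff_subset)]
          refine ⟨j₁, Finset.mem_filter.2 ⟨hAS hj₁, by rw [hAa j₁ hj₁, hja]⟩, ?_⟩
          intro h
          exact (Finset.mem_sdiff.1 (Finset.mem_filter.1 h).1).2 hj₁
        omega
      · have h2 : H.filter (fun x => c x = a j) = H'.filter fun x => c x = a j := by
          ext x
          simp only [Finset.mem_filter, hmemH']
          constructor
          · rintro ⟨z1, z2⟩
            refine ⟨⟨z1, ?_, ?_⟩, z2⟩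
            · rintro rfl
              exact hja (by rw [← z2, hφc])
            · rintro rfl
              exact hja (by rw [← z2, hφ'c])
          · rintro ⟨⟨z1, -, -⟩, z2⟩
            exact ⟨z1, z2⟩
        rw [← h2]
        refine lt_of_le_of_lt (Nat.mul_le_mul_left 2 (Finset.card_le_card ?_)) h1
        exact Finset.filter_subset_filter _ Finset.sdiff_subset) (by
      intro j hj
      obtain ⟨hjS, hjA⟩ := Finset.mem_sdiff.1 hj
      have h1 := g6 j hjS
      by_cases hja : a j = a j₀
      · have h2 : (H.filter fun x => c x = a j ∧ P x).card =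
            (H'.filter fun x => c x = a j ∧ P x).card + 1 := by
          have h11 : H.filter (fun x => c x = a j ∧ P x) =
              insert φ (H'.filter fun x => c x = a j ∧ P x) := by
            ext x
            simp only [Finset.mem_filter, Finset.mem_insert, hmemH']
            constructor
            · rintro ⟨z1, z2, z3⟩
              by_cases h8 : x = φ
              · exact Or.inl h8
              refine Or.inr ⟨⟨z1, h8, ?_⟩, z2, z3⟩
              rintro rfl
              exact hφ'P z3
            · rintro (rfl | ⟨⟨z1, -, -⟩, z2⟩)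
              · exact ⟨hφH, by rw [hφc, hja], hφP⟩
              · exact ⟨z1, z2⟩
          rw [h11, Finset.card_insert_of_notMem]
          intro h
          exact ((hmemH' _).1 (Finset.mem_filter.1 h).1).2.1 rfl
        have h3 : ((S \ A).filter fun k => a k = a j).card + 1 ≤
            (S.filter fun k => a k = a j).card := by
          rw [Nat.succ_le_iff]
          apply Finset.card_lt_card
          rw [Finset.ssubset_iff_of_subset (Finset.filter_subset_filter _ Finset.sdiff_subset)]
          refine ⟨j₁, Finset.mem_filter.2 ⟨hAS hj₁, by rw [hAa j₁ hj₁, hja]⟩, ?_⟩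
          intro h
          exact (Finset.mem_sdiff.1 (Finset.mem_filter.1 h).1).2 hj₁
        omega
      · have h2 : H.filter (fun x => c x = a j ∧ P x) = H'.filter fun x => c x = a j ∧ P x := by
          ext x
          simp only [Finset.mem_filter, hmemH']
          constructor
          · rintro ⟨z1, z2, z3⟩
            refine ⟨⟨z1, ?_, ?_⟩, z2, z3⟩
            · rintro rfl
              exact hja (by rw [← z2, hφc])
            · rintro rfl
              exact hja (by rw [← z2, hφ'c])
          · rintro ⟨⟨z1, -, -⟩, z2⟩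
            exact ⟨z1, z2⟩
        rw [← h2]
        refine le_trans (Finset.card_le_card ?_) h1
        exact Finset.filter_subset_filter _ Finset.sdiff_subset) (by
      intro h
      have h1 : res f₁ ∈ (Mw μ).map res := ⟨f₁, hf₁, rfl⟩
      rw [h, Submodule.mem_bot] at h1
      apply hJ₀
      have h2 : fil J₀ = J₀ := by
        funext j
        by_cases hjA : j ∈ A
        · rw [fil1 _ _ hjA]
          rw [hA0] at hjA
          exact (Finset.mem_filter.1 hjA).2.symm
        · exact fil2 _ _ hjA
      have h3 := congrFun h1 J₀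
      rwa [hres, h2] at h3)
    obtain ⟨f, hf, rfl⟩ := hg
    refine ⟨f, hf.1, fil J, fun j hj => ?_, hJ2⟩
    by_cases hjA : j ∈ A
    · rw [fil1 _ _ hjA]
      exact hφP
    · rw [fil2 _ _ hjA]
      exact hJ1 j (Finset.mem_sdiff.2 ⟨hj, hjA⟩)

end

end Pool.Agent.V5helper93.SMP
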