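import Mathlib

/-!
# The number of unit eigenvalues
-/

set_option autoImplicit false
set_option linter.unusedSectionVars false

namespace Pool.Agent.V5helper93.SMP

open Module Polynomial

theorem val_lt_one {K : Type} [Field K] (A : ValuationSubring K) {x : K} (hx : x ∈ A)
    (hx' : x⁻¹ ∉ A) : A.valuation x < 1 := by
  have h1 : A.valuation x ≤ 1 := (A.valuation_le_one_iff x).2 hx
  refine lt_of_le_of_ne h1 fun h2 => hx' ?_
  rw [← A.valuation_le_one_iff, map_inv₀, h2, inv_one]

theorem int_le_one {K : Type} [Field K] (A : ValuationSubring K) (c : ℤ) :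
    A.valuation (c : K) ≤ 1 := (A.valuation_le_one_iff _).2 (intCast_mem A c)

theorem units_card {K : Type} [Field K] {ι : Type} [Fintype ι] [DecidableEq ι] (α : ι → K)
    (A : ValuationSubring K) (hα : ∀ x, α x ∈ A) {p : ℕ} (hp : p.Prime) (hpA : (p : K)⁻¹ ∉ A)
    (P : ℤ[X]) (hP : P.map (Int.castRingHom K) = ∏ x, (X - C (α x))) {j m : ℕ}
    (hj : j + m ≤ Fintype.card ι) (hc : ¬ (p : ℤ) ∣ P.coeff j) (U : Finset ι)
    (hU : ∀ x, x ∈ U ↔ (α x)⁻¹ ∈ A) : m ≤ U.card := by
  classical
  by_contra hcon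
  push Not at hcon
  have h1 : (P.map (Int.castRingHom K)).coeff j = (P.coeff j : K) := by
    rw [coeff_map]
    rfl
  have h2 : (∏ x, (X - C (α x)) : K[X]).coeff j =
      (-1) ^ (Fintype.card ι - j) *
        ∑ t ∈ Finset.univ.powersetCard (Fintype.card ι - j), ∏ x ∈ t, α x := by
    have h3 := Multiset.prod_X_sub_C_coeff ((Finset.univ : Finset ι).val.map α) (k := j) (by
      rw [Multiset.card_map, Finset.card_val, Finset.card_univ]
      omega)
    rw [Multiset.map_map, Multiset.card_map, Finset.card_val, Finset.card_univ,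
      Finset.esymm_map_val] at h3
    exact h3
  rw [hP, h2] at h1
  have h3 : A.valuation (∑ t ∈ Finset.univ.powersetCard (Fintype.card ι - j),
      ∏ x ∈ t, α x) < 1 := by
    refine Valuation.map_sum_lt _ one_ne_zero fun t ht => ?_
    rw [Finset.mem_powersetCard] at ht
    obtain ⟨x, hxt, hxU⟩ : ∃ x ∈ t, x ∉ U := by
      by_contra h4
      push Not at h4
      have h5 := Finset.card_le_card (show t ⊆ U from h4)
      omega
    rw [map_prod, ← Finset.mul_prod_erase t _ hxt]
    have h4 : A.valuation (α x) < 1 := val_lt_one A (hα x) fun h => hxU ((hU x).2 h)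
    have h5 : ∏ y ∈ t.erase x, A.valuation (α y) ≤ 1 := by
      rw [← map_prod]
      exact (A.valuation_le_one_iff _).2 (prod_mem fun y _ => hα y)
    exact lt_of_le_of_lt (mul_le_of_le_one_right' h5) h4
  have h4 : A.valuation ((P.coeff j : ℤ) : K) < 1 := by
    rw [← h1, map_mul, map_pow, Valuation.map_neg, map_one, one_pow, one_mul]
    exact h3
  have h5 : A.valuation (p : K) < 1 := val_lt_one A (natCast_mem A p) hpA
  have h6 : IsCoprime (P.coeff j) (p : ℤ) :=
    ((Nat.prime_iff_prime_int.1 hp).coprime_iff_not_dvd.2 hc).symm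
  obtain ⟨u, v, huv⟩ := h6
  have h7 : (1 : K) = (u : K) * ((P.coeff j : ℤ) : K) + (v : K) * (p : K) := by
    have h8 := congrArg (fun z : ℤ => (z : K)) huv
    push_cast at h8
    exact h8.symm
  have h8 : A.valuation (1 : K) < 1 := by
    rw [h7]
    refine Valuation.map_add_lt _ ?_ ?_
    · rw [map_mul]
      exact lt_of_le_of_lt (mul_le_of_le_one_left' (int_le_one A u)) h4
    · rw [map_mul]
      exact lt_of_le_of_lt (mul_le_of_le_one_left' (int_le_one A v)) h5
  rw [map_one] at h8
  exact lt_irrefl _ h8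

end Pool.Agent.V5helper93.SMP
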