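import Pool.Agent.V5helper93.SMP.BC
import Pool.Agent.V5helper93.SMP.Der
import Pool.Agent.V5helper93.SMP.Units
import Pool.Agent.V5helper93.GTC.Main3

/-!
# The values of stable spaces of traceless maps
-/

set_option autoImplicit false
set_option linter.unusedSectionVars false

namespace Pool.Agent.V5helper93.SMP

open Module TensorProduct Polynomial Pool.Agent.H204R3.SP Pool.Agent.V5helper93.GTC
  Pool.Agent.W529.Ta Pool.Agent.Y128.GT

noncomputable section

variable {k T W Γ : Type} [Field k] [CharZero k] [AddCommGroup T] [Module k T]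
  [FiniteDimensional k T] [AddCommGroup W] [Module k W] [Group Γ]

/-- `B` is symmetric and nondegenerate, and the group acts by similitudes with the factor `χ ^ w`. -/
structure Orthogonal (B : T →ₗ[k] T →ₗ[k] k) (ρ : Representation k Γ T) (χ : Γ →* k) (w : ℕ) :
    Prop where
  symm : ∀ u v, B u v = B v u
  nondeg : ∀ u, (∀ v, B u v = 0) → u = 0
  sim : ∀ g u v, B (ρ g u) (ρ g v) = χ g ^ w * B u v

/-- `γ` acts on `T` like an (arithmetic) Frobenius element at a place with a residue field of
`q = p ^ a` elements, and at least `m` of its eigenvalues are `p`-adic units: `χ(γ) = q`, the action is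
semisimple, its characteristic polynomial has integral coefficients, and for some
`j ≤ dim T - m` the coefficient at `X ^ j` is prime to `p`. -/
structure UnitFrobenius (ρ : Representation k Γ T) (χ : Γ →* k) (m p a : ℕ) (γ : Γ) : Prop where
  cyc : χ γ = (p : k) ^ a
  semisimple : Module.End.IsSemisimple (ρ γ)
  units : ∃ P : ℤ[X], P.map (Int.castRingHom k) = (ρ γ).charpoly ∧
    ∃ j, j + m ≤ finrank k T ∧ ¬ (p : ℤ) ∣ P.coeff j

/-- the span of the values -/
def vals {σ : Type} (U : Submodule k (MultilinearMap k (fun _ : σ => T) W)) : Submodule k W :=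
  Submodule.span k {y | ∃ f ∈ U, ∃ v, y = f v}

theorem vals_stable {ρ : Representation k Γ T} {τ : Representation k Γ W} {σ : Type}
    {U : Submodule k (MultilinearMap k (fun _ : σ => T) W)}
    (hU : ∀ s, ∀ f ∈ U, mulMap ρ τ σ s f ∈ U) (s : Γ) : ∀ y ∈ vals U, τ s y ∈ vals U := by
  intro y hy
  induction hy using Submodule.span_induction with
  | zero => rw [map_zero]; exact Submodule.zero_mem _
  | add x y _ _ hx hy => rw [map_add]; exact Submodule.add_mem _ hx hy
  | smul r x _ hx => rw [map_smul]; exact Submodule.smul_mem _ _ hx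
  | mem y hy =>
    obtain ⟨f, hf, v, rfl⟩ := hy
    refine Submodule.subset_span ⟨_, hU s f hf, fun l => ρ s (v l), ?_⟩
    rw [mulMap_apply]
    simp only [rho_cancel]

/-! ### the Lie algebra over an extension -/

section ext

variable {K : Type} [Field K] [CharZero K] [Algebra k K]

theorem XX_bc (B : T →ₗ[k] T →ₗ[k] k) (c c' : K) (a a' : T) :
    XX (bcb K B) (c ⊗ₜ[k] a) (c' ⊗ₜ[k] a') = (c * c') • (XX B a a').baseChange K := by
  refine LinearMap.ext fun z => ?_
  induction z with
  | zero => rw [map_zero, map_zero]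
  | add x y hx hy => rw [map_add, map_add, hx, hy]
  | tmul r v =>
    rw [XX_apply, LinearMap.smul_apply, LinearMap.baseChange_tmul, XX_apply, bcb_tmul, bcb_tmul,
      tmul_sub, tmul_smul, tmul_smul, smul_sub]
    simp only [TensorProduct.smul_tmul', smul_eq_mul, Algebra.smul_def]
    congr 2
    · ring
    · ring

theorem XX_add_left {X : Type} [AddCommGroup X] [Module K X] (B : X →ₗ[K] X →ₗ[K] K) (u u' v : X) :
    XX B (u + u') v = XX B u v + XX B u' v := by
  ext z
  simp only [XX_apply, LinearMap.add_apply, map_add, add_smul, smul_add]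
  abel

theorem XX_add_right {X : Type} [AddCommGroup X] [Module K X] (B : X →ₗ[K] X →ₗ[K] K)
    (u v v' : X) : XX B u (v + v') = XX B u v + XX B u v' := by
  ext z
  simp only [XX_apply, LinearMap.add_apply, map_add, add_smul, smul_add]
  abel

theorem XX_zero_left {X : Type} [AddCommGroup X] [Module K X] (B : X →ₗ[K] X →ₗ[K] K) (v : X) :
    XX B 0 v = 0 := by
  ext z
  simp [XX_apply]

theorem XX_zero_right {X : Type} [AddCommGroup X] [Module K X] (B : X →ₗ[K] X →ₗ[K] K) (v : X) :
    XX B v 0 = 0 := by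
  ext z
  simp [XX_apply]

/-- Stability over the extension. -/
theorem stable_ext {B : T →ₗ[k] T →ₗ[k] k} {ν : Type} [Fintype ν] [DecidableEq ν]
    (b : Basis ν k T) {σ : Type} [Fintype σ] [DecidableEq σ]
    {U : Submodule k (MultilinearMap k (fun _ : σ => T) W)}
    (hU : ∀ a c, ∀ f ∈ U, dW (XX B a c) f ∈ U) (μ : Dual K (K ⊗[k] W)) (u v : K ⊗[k] T) :
    ∀ F ∈ Submodule.span K ((Fm b μ) '' (U : Set (MultilinearMap k (fun _ : σ => T) W))),
      dF (XX (bcb K B) u v) F ∈
        Submodule.span K ((Fm b μ) '' (U : Set (MultilinearMap k (fun _ : σ => T) W))) := by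
  intro F hF
  induction hF using Submodule.span_induction with
  | zero => rw [map_zero]; exact Submodule.zero_mem _
  | add x y _ _ hx hy => rw [map_add]; exact Submodule.add_mem _ hx hy
  | smul r x _ hx => rw [map_smul]; exact Submodule.smul_mem _ _ hx
  | mem F hF =>
    obtain ⟨f, hf, rfl⟩ := hF
    induction u with
    | zero => rw [XX_zero_left, dF_zero]; exact Submodule.zero_mem _
    | add u u' hu hu' => rw [XX_add_left, dF_add]; exact Submodule.add_mem _ hu hu'
    | tmul c a =>
      induction v with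
      | zero => rw [XX_zero_right, dF_zero]; exact Submodule.zero_mem _
      | add v v' hv hv' => rw [XX_add_right, dF_add]; exact Submodule.add_mem _ hv hv'
      | tmul c' a' =>
        rw [XX_bc, dF_smul, Fm_dW]
        exact Submodule.smul_mem _ _ (Submodule.subset_span ⟨_, hU a a' f hf, rfl⟩)

end ext

/-! ### the skew operators on an adapted basis -/

section fab

variable {K : Type} [Field K] [CharZero K] {X : Type} [AddCommGroup X] [Module K X]
  {B : X →ₗ[K] X →ₗ[K] K} {g : Module.End K X}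
  {ι : Type} [DecidableEq ι] [Fintype ι] {e : Basis ι K X} {bar : ι → ι} {α : ι → K}
  {σ : Type} [Fintype σ] [DecidableEq σ]

theorem XX_e (h : Sys B g e bar α) (x y z : ι) : XX B (e (bar x)) (e (bar y)) (e z) =
    (if z = x then e (bar y) else 0) - (if z = y then e (bar x) else 0) := by
  rw [XX_apply, h.form, h.form, h.inv, h.inv]
  congr 1
  · split_ifs
    · rw [one_smul]
    · rw [zero_smul]
  · split_ifs
    · rw [one_smul]
    · rw [zero_smul]

theorem Fab_e (h : Sys B g e bar α) (F : MultilinearMap K (fun _ : σ => X) K) (x y : ι)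
    (J : σ → ι) : Fab bar Finset.univ x y (fun J => F fun l => e (J l)) J =
      dF (XX B (e (bar x)) (e (bar y))) F (fun l => e (J l)) := by
  rw [Fab, dF_apply]
  refine Finset.sum_congr rfl fun j _ => ?_
  rw [XX_e h, MultilinearMap.map_update_sub]
  congr 1
  · split_ifs
    · rw [update_e]
    · rw [MultilinearMap.map_update_zero]
  · split_ifs
    · rw [update_e]
    · rw [MultilinearMap.map_update_zero]

/-- the coefficients -/
def cf (e : Basis ι K X) (σ : Type) [Fintype σ] [DecidableEq σ] :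
    MultilinearMap K (fun _ : σ => X) K →ₗ[K] ((σ → ι) → K) where
  toFun F J := F fun l => e (J l)
  map_add' _ _ := rfl
  map_smul' _ _ := rfl

theorem cf_apply (F : MultilinearMap K (fun _ : σ => X) K) (J : σ → ι) :
    cf e σ F J = F fun l => e (J l) := rfl

/-- The main lemma on traceless forms. -/
theorem top_e (h : Sys B g e bar α) (P : ι → Prop) [DecidablePred P]
    (hP : ∀ x, P x → ¬ P (bar x)) (h1 : 2 * Fintype.card σ < Fintype.card ι)
    (h2 : Fintype.card σ ≤ (Finset.univ.filter fun x => P x).card)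
    (S : Submodule K (MultilinearMap K (fun _ : σ => X) K))
    (hS : ∀ u v, ∀ F ∈ S, dF (XX B u v) F ∈ S)
    (hctr : ∀ F ∈ S, ∀ (x y : σ) (hxy : x ≠ y), ctr hxy e (fun z => e (bar z)) F = 0)
    (hvan : ∀ F ∈ S, ∀ J : σ → ι, (∀ j, P (J j)) → F (fun l => e (J l)) = 0) : S = ⊥ := by
  classical
  by_contra hne
  have hne' : S.map (cf e σ) ≠ ⊥ := by
    intro h0
    apply hne
    rw [eq_bot_iff]
    intro F hF
    have h3 : cf e σ F = 0 := by
      have h4 : cf e σ F ∈ S.map (cf e σ) := ⟨F, hF, rfl⟩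
      rw [h0] at h4
      exact (Submodule.mem_bot K).1 h4
    exact (Submodule.mem_bot K).2 (ext_e (e := e) h3)
  obtain ⟨f, ⟨F, hF, rfl⟩, J, hJ, hJ'⟩ := top (K := K) bar h.inv (fun _ => ()) (fun _ => rfl) P hP
    (fun _ : σ => ()) (Fintype.card σ) Finset.univ rfl Finset.univ (fun x _ => Finset.mem_univ _)
    (S.map (cf e σ)) (fun f _ J J' hJ => by
      rw [show J = J' from funext fun j => hJ j (Finset.mem_univ j)])
    (fun f _ J _ j _ => ⟨Finset.mem_univ _, rfl⟩) (by
      rintro _ ⟨F, hF, rfl⟩ j _ l _ hjl J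
      have h3 := ctr_e (e := e) (bar := bar) F hjl J
      rw [hctr F hF j l hjl] at h3
      exact h3.symm) (by
      rintro _ ⟨F, hF, rfl⟩ x _ y _ _
      refine ⟨_, hS (e (bar x)) (e (bar y)) F hF, ?_⟩
      funext J
      exact (Fab_e h F x y J).symm) (fun j _ => by simpa using h1) (fun j _ => by
      simpa using h2) hne'
  exact hJ' (hvan F hF J fun j => hJ j (Finset.mem_univ j))

end fab

theorem field3 {K : Type} [Field K] {P : K} (hP : P ≠ 0) (r c : K) :
    r / c = (P * r / c) * P⁻¹ := by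
  rw [div_eq_mul_inv, div_eq_mul_inv, mul_comm (P * r * c⁻¹), ← mul_assoc, ← mul_assoc,
    inv_mul_cancel₀ hP, one_mul]

theorem field4 {K : Type} [Field K] {x y : K} (hx : x ≠ 0) : y⁻¹ = (x * y)⁻¹ * x := by
  rw [mul_inv_rev, mul_assoc, inv_mul_cancel₀ hx, mul_one]

variable [FiniteDimensional k W] {B : T →ₗ[k] T →ₗ[k] k} {ρ : Representation k Γ T} {χ : Γ →* k}
  {w : ℕ} {τ : Representation k Γ W}

/-- The forms attached to a functional are zero if they vanish on the tuples of basis vectors of slope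
zero. -/
theorem forms_zero {K : Type} [Field K] [CharZero K] [Algebra k K] {nu : Type} [Fintype nu]
    [DecidableEq nu] (b : Basis nu k T) (h : Orthogonal B ρ χ w) (big : BigImage B ρ τ)
    {σ : Type} [Fintype σ] [DecidableEq σ]
    {U : Submodule k (MultilinearMap k (fun _ : σ => T) W)}
    (hU : ∀ s, ∀ f ∈ U, mulMap ρ τ σ s f ∈ U)
    {ι₀ : Type} [Fintype ι₀] {d d' : ι₀ → T}
    (hd : DP B d d') (hctr : ∀ f ∈ U, ∀ (x y : σ) (hxy : x ≠ y), ctr hxy d d' f = 0)
    {g : Module.End K (K ⊗[k] T)} {ι : Type} [Fintype ι] [DecidableEq ι]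
    {e : Basis ι K (K ⊗[k] T)} {bar : ι → ι} {α : ι → K} (hsys : Sys (bcb K B) g e bar α)
    (μ : Dual K (K ⊗[k] W)) (P : ι → Prop) [DecidablePred P] (hP : ∀ x, P x → ¬ P (bar x))
    (h1 : 2 * Fintype.card σ < Fintype.card ι)
    (h2 : Fintype.card σ ≤ (Finset.univ.filter fun x => P x).card)
    (hvan : ∀ f ∈ U, ∀ J : σ → ι, (∀ j, P (J j)) → Fm b μ f (fun l => e (J l)) = 0) :
    ∀ f ∈ U, Fm b μ f = 0 := by
  have hstab : ∀ u v, ∀ F ∈ Submodule.span K ((Fm b μ) ''
      (U : Set (MultilinearMap k (fun _ : σ => T) W))), dF (XX (bcb K B) u v) F ∈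
        Submodule.span K ((Fm b μ) '' (U : Set (MultilinearMap k (fun _ : σ => T) W))) :=
    fun u v F hF => stable_ext b (fun a c f hf => der_stable big h.symm h.nondeg hU hf a c)
          μ u v F hF
  have hS := top_e hsys P hP h1 h2 (Submodule.span K ((Fm b μ) ''
      (U : Set (MultilinearMap k (fun _ : σ => T) W)))) hstab
    (fun F hF x y hxy => by
      induction hF using Submodule.span_induction with
      | zero => rw [map_zero]
      | add x y _ _ hx hy => rw [map_add, hx, hy, add_zero]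
      | smul r x _ hx => rw [map_smul, hx, smul_zero]
      | mem F hF =>
        obtain ⟨f, hf, rfl⟩ := hF
        rw [ctr_Fm b hd hsys.dp, hctr f hf, map_zero])
    (fun F hF J hJ => by
      induction hF using Submodule.span_induction with
      | zero => rfl
      | add x y _ _ hx hy => rw [add_apply, hx, hy, add_zero]
      | smul r x _ hx => rw [smul_apply, hx, smul_zero]
      | mem F hF =>
        obtain ⟨f, hf, rfl⟩ := hF
        exact hvan f hf J hJ)
  intro f hf
  have h1 : Fm b μ f ∈ Submodule.span K ((Fm b μ) ''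
      (U : Set (MultilinearMap k (fun _ : σ => T) W))) :=
    Submodule.subset_span ⟨f, hf, rfl⟩
  rw [hS] at h1
  exact (Submodule.mem_bot K).1 h1

/-- **The values of traceless maps.** -/
theorem vals_entire (h : Orthogonal B ρ χ w) (hw : 0 < w) (big : BigImage B ρ τ) {m p a : ℕ}
    (hp : p.Prime) (ha : 0 < a) {γ : Γ} (hγ : UnitFrobenius ρ χ m p a γ)
    {σ : Type} [Fintype σ] [DecidableEq σ] (hσ : Fintype.card σ ≤ m)
    (hm : 2 * Fintype.card σ < finrank k T) {ν : ℕ}
    {U : Submodule k (MultilinearMap k (fun _ : σ => T) W)}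
    (hU : ∀ s, ∀ f ∈ U, mulMap ρ τ σ s f ∈ U)
    (hE : EntireOn p a ν (mulMap ρ τ σ γ⁻¹) U) {ι₀ : Type} [Fintype ι₀] {d d' : ι₀ → T}
    (hd : DP B d d') (hctr : ∀ f ∈ U, ∀ (x y : σ) (hxy : x ≠ y), ctr hxy d d' f = 0) :
    EntireOn p a ν (τ γ⁻¹) (vals U) := by
  classical
  let K := AlgebraicClosure k
  obtain ⟨Q, hQm, hQU, hQβ⟩ := hE
  let b := Module.finBasis k T
  have hDP := hd.bc (K := K)
  set q : K := (p : K) ^ a with hq
  have hp0 : (p : K) ≠ 0 := Nat.cast_ne_zero.2 hp.ne_zero
  have hq0 : q ≠ 0 := pow_ne_zero _ hp0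
  let χ' : Γ →* k := (powMonoidHom w : k →* k).comp χ
  have hχ : bcc χ' K γ = q ^ w := by
    rw [bcc_apply]
    change algebraMap k K (χ γ ^ w) = q ^ w
    rw [hγ.cyc, map_pow, map_pow, map_natCast]
  -- an adapted basis
  obtain ⟨ι, _, _, e, bar, α, hsys⟩ := exists_sys (K := K) (V := K ⊗[k] T) (B := bcb K B)
    (g := bcr ρ K γ) (μ := q ^ w) (pow_ne_zero w hq0) (bcb_symm h.symm) hDP.nondeg
    (fun u v => by rw [← hχ]; exact bcb_inv ρ χ' B h.sim γ u v)
    (semisimple_bc K (ρ γ) hγ.semisimple)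
  have hcard : Fintype.card ι = finrank k T := by
    have h1 : finrank K (K ⊗[k] T) = finrank k T := Module.finrank_baseChange
    rw [← h1, Module.finrank_eq_card_basis e]
  have hαα : ∀ x, α x * α (bar x) = q ^ w := hsys.aa (fun u v => by
    rw [← hχ]; exact bcb_inv ρ χ' B h.sim γ u v)
  obtain ⟨P, hP, j, hj, hPj⟩ := hγ.units
  have hPK : P.map (Int.castRingHom K) = ∏ x, (X - C (α x)) := by
    rw [← charpoly_eigbasis e (bcr ρ K γ) α hsys.eig]
    change _ = ((ρ γ).baseChange K).charpoly
    rw [LinearMap.charpoly_baseChange, ← hP, Polynomial.map_map]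
    congr 1
  have hα0 : ∀ x, α x ≠ 0 := by
    intro x h0
    apply pow_ne_zero w hq0
    rw [← hαα x, h0, zero_mul]
  have hPm : P.Monic := by
    refine Polynomial.monic_of_injective (RingHom.injective_int (Int.castRingHom K)) ?_
    rw [hPK]
    exact monic_prod_of_monic _ _ fun x _ => monic_X_sub_C _
  have hαint : ∀ x, IsIntegral ℤ (α x) := by
    intro x
    refine ⟨P, hPm, ?_⟩
    have h1 : (P.map (Int.castRingHom K)).eval (α x) = 0 := by
      rw [hPK, eval_prod]
      exact Finset.prod_eq_zero (Finset.mem_univ x) (by rw [eval_sub, eval_X, eval_C, sub_self])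
    rw [← h1, ← eval_map]
    exact congrArg (fun t : ℤ →+* K => (P.map t).eval (α x)) (RingHom.ext_int _ _)
  have he' : ∀ x, bcr ρ K γ⁻¹⁻¹ (e x) = α x • e x := fun x => by rw [inv_inv]; exact hsys.eig x
  have hYst := vals_stable hU
  set R := τ γ⁻¹ with hR
  refine ⟨(R.restrict (hYst γ⁻¹)).charpoly, LinearMap.charpoly_monic _, fun y hy => ?_,
    fun β hβ => ?_⟩
  · have h1 := aeval_inter (R.restrict (hYst γ⁻¹)) R (vals U).subtype (fun _ => rfl)
      (R.restrict (hYst γ⁻¹)).charpoly ⟨y, hy⟩
    rw [LinearMap.aeval_self_charpoly, LinearMap.zero_apply, map_zero] at h1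
    exact h1.symm
  refine integral_of_forall fun A => ?_
  have hαA : ∀ x, α x ∈ A := fun x => mem_of_integral A (hαint x)
  -- the good and the bad eigenvalues
  set D : Module.End K (Dual K (K ⊗[k] W)) := (R.baseChange K).dualMap with hD
  obtain ⟨G, Bd, hGB, hG, hB⟩ := split_poly D (fun r => r / q ^ ν ∈ A)
  -- it suffices to prove that the bad part kills the values
  suffices hkey : ∀ l : Dual K (K ⊗[k] W), ∀ y ∈ vals U,
      (aeval D G l) ((1 : K) ⊗ₜ[k] y) = 0 by
    refine hG β (root_of_kill R _ (hYst γ⁻¹) G (fun y hy => ?_) β hβ)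
    refine (Module.forall_dual_apply_eq_zero_iff K _).1 fun l => ?_
    rw [← dualMap_aeval]
    exact hkey l y hy
  intro l
  set μ := aeval D G l with hμ
  have hBμ : aeval D Bd μ = 0 := by
    rw [hμ, ← Module.End.mul_apply, ← map_mul, hGB, LinearMap.zero_apply]
  -- the forms vanish on vectors of slope zero
  have hvan : ∀ f ∈ U, ∀ I : σ → ι, (∏ l, α (I l))⁻¹ ∈ A →
      Fm b μ f (fun l => e (I l)) = 0 := by
    intro f hf I hI
    refine Fm_vanish b ρ τ e γ⁻¹ he' hBμ (hQU f hf) I fun r hr h0 => hB r hr ?_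
    have h1 := mem_of_integral A (hQβ _ h0)
    have hne : (∏ l, α (I l)) ≠ 0 := Finset.prod_ne_zero_iff.2 fun l _ => hα0 _
    have h2 : r / q ^ ν = ((∏ l, α (I l)) * r / q ^ ν) * (∏ l, α (I l))⁻¹ := field3 hne r _
    rw [h2]
    exact A.mul_mem _ _ h1 hI
  -- the forms are zero
  have hzero : ∀ f ∈ U, Fm b μ f = 0 := by
    by_cases hpA : ((p : K))⁻¹ ∈ A
    · intro f hf
      refine Basis.ext_multilinear (fun _ => e) fun I => ?_
      rw [hvan f hf I]
      · rfl
      rw [← Finset.prod_inv_distrib]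
      refine prod_mem fun l _ => ?_
      have h2 : (α (I l))⁻¹ = (q ^ w)⁻¹ * α (bar (I l)) := by
        rw [← hαα (I l)]
        exact field2 (hα0 (I l)) (hα0 (bar (I l)))
      rw [h2]
      refine A.mul_mem _ _ ?_ (hαA _)
      rw [hq, ← inv_pow, ← inv_pow]
      exact A.pow_mem (A.pow_mem hpA a) w
    · -- the units
      let Un : Finset ι := Finset.univ.filter fun x => (α x)⁻¹ ∈ A
      have hUn := units_card α A hαA hp hpA P hPK (j := j) (m := m) (by rw [hcard]; exact hj) hPj
        Un (fun x => by simp [Un])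
      refine forms_zero b h big hU hd hctr hsys μ (fun x => (α x)⁻¹ ∈ A) (fun x hx hx' => ?_)
        (by rw [hcard]; exact hm) (hσ.trans hUn) (fun f hf J hJ => ?_)
      · apply hpA
        have h1 : (q ^ w)⁻¹ ∈ A := by
          rw [← hαα x, mul_inv]
          exact A.mul_mem _ _ hx hx'
        have h2 : (p : K)⁻¹ = (q ^ w)⁻¹ * (p : K) ^ (a * w - 1) := by
          have h3 : a * w - 1 + 1 = a * w := Nat.sub_add_cancel (Nat.mul_pos ha hw)
          have h4 : q ^ w = (p : K) ^ (a * w - 1) * p := by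
            rw [hq, ← pow_mul, ← pow_succ, h3]
          rw [h4]
          exact field4 (pow_ne_zero _ hp0)
        rw [h2]
        exact A.mul_mem _ _ h1 (A.pow_mem (natCast_mem A p) _)
      · refine hvan f hf J ?_
        rw [← Finset.prod_inv_distrib]
        exact prod_mem fun l _ => hJ l
  intro y hy
  induction hy using Submodule.span_induction with
  | zero => rw [tmul_zero, map_zero]
  | add x y _ _ hx hy => rw [tmul_add, map_add, hx, hy, add_zero]
  | smul r x _ hx => rw [tmul_smul, ← algebraMap_smul K r (1 ⊗ₜ[k] x : K ⊗[k] W), map_smul, hx,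
      smul_zero]
  | mem y hy =>
    obtain ⟨f, hf, v, rfl⟩ := hy
    rw [← Fm_one b, hzero f hf]
    rfl

end

end Pool.Agent.V5helper93.SMP
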